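import Pool.Agent.Lib.MP_6a1069_gt.Defs

/-!
Alex: the Alexander trick.  Every `h ∈ PLc E` is PL isotopic to the identity by an isotopy with
supports in a fixed ball: `H_t x = t • h (t⁻¹ • x)`.
-/

namespace PLH

variable {E : Type*} [NormedAddCommGroup E] [NormedSpace ℝ E]

/-- the Alexander isotopy as a function on `E × ℝ` -/
noncomputable def alexFun (h : E → E) (p : E × ℝ) : E :=
  if p.2 ≤ 0 then p.1 else p.2 • h (p.2⁻¹ • p.1)

theorem alexFun_PL [FiniteDimensional ℝ E] {h : E → E} (hh : IsPL h) {R : ℝ}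
    (hR : ∀ x, R < ‖x‖ → h x = x) : IsPL (alexFun h) := by
  have hbd : ∃ C : ℝ, ∀ x, ‖h x - x‖ ≤ C := by
    have := FiniteDimensional.proper ℝ E
    obtain ⟨C, hC⟩ := (isCompact_closedBall (0 : E) R).exists_bound_of_continuousOn
      (f := fun x => h x - x) (hh.continuous.sub continuous_id).continuousOn
    refine ⟨max C 0, fun x => ?_⟩
    by_cases hx : R < ‖x‖
    · rw [hR x hx, sub_self, norm_zero]; exact le_max_right _ _
    · exact (hC x (by rw [mem_closedBall_zero_iff]; exact not_lt.1 hx)).trans (le_max_left _ _)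
  obtain ⟨C, hC⟩ := hbd
  obtain ⟨hc, S, hS, hsel⟩ := hh
  refine ⟨?_, ?_⟩
  · rw [continuous_iff_continuousAt]
    rintro ⟨x, t⟩
    rcases lt_trichotomy t 0 with ht | ht | ht
    · have : alexFun h =ᶠ[nhds (x, t)] fun p => p.1 := by
        have h1 : ∀ᶠ p : E × ℝ in nhds (x, t), p.2 < 0 :=
          (continuous_snd.continuousAt (x := (x, t))).eventually (gt_mem_nhds ht)
        filter_upwards [h1] with p hp
        simp [alexFun, hp.le]
      exact (continuous_fst.continuousAt).congr this.symm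
    · subst ht
      have h0 : alexFun h (x, 0) = x := by simp [alexFun]
      rw [ContinuousAt, h0]
      have hle : ∀ p : E × ℝ, ‖alexFun h p - p.1‖ ≤ |C| * |p.2| := by
        rintro ⟨y, s⟩
        by_cases hs : s ≤ 0
        · have : alexFun h (y, s) = y := by simp [alexFun, hs]
          rw [this]; simp only [sub_self, norm_zero]
          positivity
        · have hs' : 0 < s := not_le.1 hs
          have h1 : alexFun h (y, s) - y = s • (h (s⁻¹ • y) - s⁻¹ • y) := by
            simp only [alexFun, hs, if_false]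
            rw [smul_sub, smul_inv_smul₀ hs'.ne']
          show ‖alexFun h (y, s) - y‖ ≤ |C| * |s|
          rw [h1, norm_smul, Real.norm_eq_abs, mul_comm]
          exact mul_le_mul_of_nonneg_right ((hC _).trans (le_abs_self _)) (abs_nonneg _)
      have h1 : Filter.Tendsto (fun p : E × ℝ => |C| * |p.2|) (nhds (x, 0)) (nhds 0) := by
        have : Continuous (fun p : E × ℝ => |C| * |p.2|) := by fun_prop
        simpa using this.tendsto (x, (0 : ℝ))
      have h2 : Filter.Tendsto (fun p : E × ℝ => alexFun h p - p.1) (nhds (x, 0)) (nhds 0) :=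
        squeeze_zero_norm hle h1
      have h3 : Filter.Tendsto (fun p : E × ℝ => p.1) (nhds (x, (0 : ℝ))) (nhds x) :=
        continuous_fst.tendsto _
      simpa using h2.add h3
    · have h1 : alexFun h =ᶠ[nhds (x, t)] fun p => p.2 • h (p.2⁻¹ • p.1) := by
        have h1 : ∀ᶠ p : E × ℝ in nhds (x, t), 0 < p.2 :=
          (continuous_snd.continuousAt (x := (x, t))).eventually (lt_mem_nhds ht)
        filter_upwards [h1] with p hp
        simp [alexFun, not_le.2 hp]
      refine ContinuousAt.congr ?_ h1.symm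
      refine continuous_snd.continuousAt.smul (hc.continuousAt.comp ?_)
      exact (continuous_snd.continuousAt.inv₀ (ne_of_gt ht)).smul continuous_fst.continuousAt
  · refine ⟨insert (LinearMap.fst ℝ E ℝ).toAffineMap
      ((fun a : E →ᵃ[ℝ] E => ((a.linear.comp (LinearMap.fst ℝ E ℝ)) +
        (LinearMap.toSpanSingleton ℝ E (a 0)).comp (LinearMap.snd ℝ E ℝ)).toAffineMap) '' S),
      (hS.image _).insert _, ?_⟩
    rintro ⟨x, t⟩
    by_cases ht : t ≤ 0
    · exact ⟨_, Set.mem_insert _ _, by simp [alexFun, ht]⟩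
    · obtain ⟨a, ha, hax⟩ := hsel (t⁻¹ • x)
      refine ⟨_, Set.mem_insert_of_mem _ ⟨a, ha, rfl⟩, ?_⟩
      have ht' : t ≠ 0 := (not_le.1 ht).ne'
      have h1 : alexFun h (x, t) = t • h (t⁻¹ • x) := by simp [alexFun, ht]
      rw [h1, hax]
      have h2 : a (t⁻¹ • x) = a.linear (t⁻¹ • x) + a 0 := by
        have := a.decomp'
        conv_lhs => rw [AffineMap.decomp a]
        simp
      rw [h2, map_smul, smul_add, smul_inv_smul₀ ht']
      simp

/-- the isotopy as a family of permutations -/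
noncomputable def alexPerm (h : Equiv.Perm E) (t : ℝ) : Equiv.Perm E :=
  if ht : t ≤ 0 then 1 else
    { toFun := fun x => t • h (t⁻¹ • x)
      invFun := fun x => t • h⁻¹ (t⁻¹ • x)
      left_inv := fun x => by
        have ht' : t ≠ 0 := (not_le.1 ht).ne'
        show t • h⁻¹ (t⁻¹ • t • h (t⁻¹ • x)) = x
        rw [inv_smul_smul₀ ht']
        have : h⁻¹ (h (t⁻¹ • x)) = t⁻¹ • x := h.symm_apply_apply _
        rw [this, smul_inv_smul₀ ht']
      right_inv := fun x => by
        have ht' : t ≠ 0 := (not_le.1 ht).ne'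
        show t • h (t⁻¹ • t • h⁻¹ (t⁻¹ • x)) = x
        rw [inv_smul_smul₀ ht']
        have : h (h⁻¹ (t⁻¹ • x)) = t⁻¹ • x := h.apply_symm_apply _
        rw [this, smul_inv_smul₀ ht'] }

theorem alexPerm_apply (h : Equiv.Perm E) (t : ℝ) (x : E) :
    alexPerm h t x = alexFun h (x, t) := by
  by_cases ht : t ≤ 0
  · simp [alexPerm, alexFun, ht]
  · simp [alexPerm, alexFun, ht]

theorem alexPerm_inv_apply (h : Equiv.Perm E) (t : ℝ) (x : E) :
    (alexPerm h t)⁻¹ x = alexFun (⇑h⁻¹) (x, t) := by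
  by_cases ht : t ≤ 0
  · simp [alexPerm, alexFun, ht]
  · simp only [alexPerm, alexFun, ht, dite_false, if_false]
    rfl

theorem alexander [FiniteDimensional ℝ E] {h : Equiv.Perm E} (hh : h ∈ PLc E) :
    ∃ H : ℝ → Equiv.Perm E, (∀ t ≤ 0, H t = 1) ∧ (∀ t ≥ 1, H t = h) ∧
      IsPL (fun p : E × ℝ => H p.2 p.1) ∧ IsPL (fun p : E × ℝ => (H p.2)⁻¹ p.1) ∧
      ∃ R : ℝ, ∀ t x, R < ‖x‖ → H t x = x := by
  have hh' := inv_mem hh
  obtain ⟨h1, h2, R, hR⟩ := hh
  obtain ⟨h1', h2', R', hR'⟩ := hh'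
  have hclamp : IsPL (fun p : E × ℝ => (p.1, min (max p.2 0) 1)) :=
    IsPL.fst.prodMk ((IsPL.snd.max (IsPL.const 0)).min (IsPL.const 1))
  refine ⟨fun t => alexPerm h (min (max t 0) 1), fun t ht => ?_, fun t ht => ?_, ?_, ?_,
    max R 0, fun t x hx => ?_⟩
  · have : min (max t 0) 1 = 0 := by rw [max_eq_right ht]; simp
    simp only [this]
    simp [alexPerm]
  · have : min (max t 0) 1 = 1 := by
      apply min_eq_right; exact ht.trans (le_max_left _ _)
    simp only [this]
    ext x
    rw [alexPerm_apply]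
    simp [alexFun]
  · exact ((alexFun_PL h1 hR).comp hclamp).congr fun p => alexPerm_apply _ _ _
  · exact ((alexFun_PL h1' hR').comp hclamp).congr fun p => alexPerm_inv_apply _ _ _
  · rw [alexPerm_apply]
    set s := min (max t 0) 1 with hs
    by_cases h0 : s ≤ 0
    · simp [alexFun, h0]
    · have hs0 : 0 < s := not_le.1 h0
      have hs1 : s ≤ 1 := min_le_right _ _
      have h3 : R < ‖s⁻¹ • x‖ := by
        rw [norm_smul, norm_inv, Real.norm_of_nonneg hs0.le]
        have h4 : 1 ≤ s⁻¹ := (one_le_inv₀ hs0).2 hs1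
        have h5 : ‖x‖ ≤ s⁻¹ * ‖x‖ := by nlinarith [norm_nonneg x]
        exact (lt_of_le_of_lt (le_max_left _ _) hx).trans_le h5
      simp only [alexFun, h0, if_false]
      rw [hR _ h3, smul_inv_smul₀ hs0.ne']

end PLH
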