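import Pool.Agent.Lib.MP_6a1069_gt.HB

/-!
BaseAux: small lemmas shared by BaseGT, BaseLT, BaseEQ.
-/

namespace PLH

variable {B : Type*} [NormedAddCommGroup B] [NormedSpace ℝ B]

omit [NormedAddCommGroup B] [NormedSpace ℝ B] in
theorem base_sup_apply (F G : B → P) (b : B) (t : ℝ) : (F ⊔ G) b t = max (F b t) (G b t) := rfl

omit [NormedAddCommGroup B] [NormedSpace ℝ B] in
theorem base_inf_apply (F G : B → P) (b : B) (t : ℝ) : (F ⊓ G) b t = min (F b t) (G b t) := rfl

theorem BddReg.base_proj {U W : B → P} (h : BddReg U W) :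
    Bornology.IsBounded {x | ∃ t, U x t < W x t} := by
  have h1 := (Bornology.isBounded_image_fst_and_snd.2 h).1
  refine h1.subset ?_
  rintro x ⟨t, ht⟩
  exact ⟨(x, t), ht, rfl⟩

theorem base_cut_third {U W G : B → P} (h : del U W ∈ NN B) (h1 : del U (W ⊓ G) ∈ NN B) :
    del (U ⊔ G) W ∈ NN B := by
  rw [F.del_cut U W G] at h
  exact ((NN B).mul_mem_cancel_left h1).1 h

theorem base_cut_first {U W G : B → P} (h : del U W ∈ NN B) (h2 : del (U ⊔ G) W ∈ NN B) :
    del U (W ⊓ G) ∈ NN B := by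
  rw [F.del_cut U W G] at h
  exact ((NN B).mul_mem_cancel_right h2).1 h

theorem base_del_mem {U W U' W' : B → P} (h : SameReg U W U' W') (h' : del U' W' ∈ NN B) :
    del U W ∈ NN B := by
  rw [F.del_congr h]
  exact h'

end PLH
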