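import Pool.Agent.Lib.MP_6a1069_gt.Lens
import Pool.Agent.Lib.MP_6a1069_gt.BaseAux

/-!
BaseEQ: parallelograms, `A = Ln m c` lower, `Ln m c'` upper, `m₀ < m`.
`K = {x | region not empty}`, `ψ ≥ β - α` and `ψ ≥ c' - c` on `K`, `ψ ≥ 0` (cut-off of the max).
`h = min (max (c'-c) 0) ψ`, `w = min (max (β-α) 0) ψ`; `G` = line of slope `m + 1` through the
crossing of `Ln m₀ α` and `Ln m (c+h)`.
-/

namespace PLH

variable {B : Type*} [NormedAddCommGroup B] [NormedSpace ℝ B] [FiniteDimensional ℝ B]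

theorem base_eq {m₀ m : ℝ} (h0 : 0 < m₀) (h1 : m₀ < m) {α β c c' : B → ℝ}
    (hα : IsPL α) (hβ : IsPL β) (hc : IsPL c) (hc' : IsPL c')
    (h : BddReg (Ln m₀ α ⊔ Ln m c) (Ln m₀ β ⊓ Ln m c')) :
    del (Ln m₀ α ⊔ Ln m c) (Ln m₀ β ⊓ Ln m c') ∈ NN B := by
  have hm : 0 < m := h0.trans h1
  have hM : 0 < m + 1 := by linarith
  have hd0 : 0 < m - m₀ := sub_pos.2 h1
  obtain ⟨ψ, hψ, hψ0, hψK, hψb⟩ := exists_cutoff h.base_proj
    (f := fun x => max (β x - α x) (c' x - c x)) ((hβ.sub hα).max (hc'.sub hc)).continuous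
  obtain ⟨e, he, hepl⟩ : ∃ e : B → ℝ, (∀ x, e x = min (max (c' x - c x) 0) (ψ x)) ∧ IsPL e :=
    ⟨fun x => min (max (c' x - c x) 0) (ψ x), fun _ => rfl,
      ((hc'.sub hc).max (IsPL.const 0)).min hψ⟩
  obtain ⟨w, hw, hwpl⟩ : ∃ w : B → ℝ, (∀ x, w x = min (max (β x - α x) 0) (ψ x)) ∧ IsPL w :=
    ⟨fun x => min (max (β x - α x) 0) (ψ x), fun _ => rfl,
      ((hβ.sub hα).max (IsPL.const 0)).min hψ⟩
  obtain ⟨t2, ht2, ht2pl⟩ : ∃ t2 : B → ℝ, (∀ x, t2 x * (m - m₀) = α x - c x - e x) ∧ IsPL t2 :=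
    ⟨fun x => (α x - c x - e x) / (m - m₀), fun x => div_mul_cancel₀ _ hd0.ne',
      ((hα.sub hc).sub hepl).div_const _⟩
  have he0 : ∀ x, 0 ≤ e x := fun x => by
    rw [he x]
    exact le_min (le_max_right _ _) (hψ0 x)
  have hw0 : ∀ x, 0 ≤ w x := fun x => by
    rw [hw x]
    exact le_min (le_max_right _ _) (hψ0 x)
  have heψ : ∀ x, e x ≤ ψ x := fun x => by
    rw [he x]
    exact min_le_right _ _
  have hwψ : ∀ x, w x ≤ ψ x := fun x => by
    rw [hw x]
    exact min_le_right _ _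
  have hgpl : IsPL (fun x => c x + e x - t2 x) := (hc.add hepl).sub ht2pl
  -- the four triangles
  have tri : ∀ ε γ : B → ℝ, IsPL ε → IsPL γ → (∀ x, 0 ≤ ε x) → (∀ x, ε x ≤ e x) →
      (∀ x, γ x ≤ α x + w x) →
      del (Ln m (fun x => c x + ε x)) (Ln (m + 1) (fun x => c x + e x - t2 x) ⊓ Ln m₀ γ) ∈
        NN B := by
    intro ε γ hε hγ hε0 hεe hγle
    refine lens1 h0 h1 (by linarith) hγ (hc.add hε) hgpl ?_
    refine (bounded_between hψb (f := fun x => t2 x + ε x - e x)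
      (g := fun x => (γ x - c x - ε x) / (m - m₀))
      ((ht2pl.add hε).sub hepl).continuous
      (((hγ.sub hc).sub hε).div_const _).continuous).subset ?_
    rintro ⟨x, t⟩ hxt
    simp only [Set.mem_ofPred_eq, base_inf_apply, Ln_apply hm, Ln_apply hM, Ln_apply h0,
      lt_min_iff] at hxt ⊢
    obtain ⟨h3, h4⟩ := hxt
    have a1 := ht2 x
    have a2 := hε0 x
    have a3 := hεe x
    have a4 := hγle x
    have a5 := heψ x
    have a6 := hwψ x
    have ht : t2 x + ε x - e x < t := by linarith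
    have ht' := mul_lt_mul_of_pos_right ht hd0
    refine ⟨?_, ht.le, ?_⟩
    · by_contra hψx
      have a7 := hψ0 x
      have a8 : ψ x = 0 := by linarith
      have a9 : e x = 0 := le_antisymm (by linarith) (he0 x)
      have a10 : w x = 0 := le_antisymm (by linarith) (hw0 x)
      have a11 : ε x = 0 := le_antisymm (by linarith) (hε0 x)
      rw [a9, a11] at ht'
      rw [a9] at a1
      linarith
    · rw [le_div_iff₀ hd0]
      linarith
  -- cut with `Ln m (c + e)`
  have Z : ∀ γ : B → ℝ, IsPL γ → (∀ x, γ x ≤ α x + w x) →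
      del (Ln m c) ((Ln (m + 1) (fun x => c x + e x - t2 x) ⊓ Ln m₀ γ) ⊓
        Ln m (fun x => c x + e x)) ∈ NN B := by
    intro γ hγ hγle
    refine base_cut_first ?_ ?_
    · have := tri (fun _ => 0) γ (IsPL.const 0) hγ (fun _ => le_rfl) he0 hγle
      simpa using this
    · refine base_del_mem ?_ (tri e γ hepl hγ he0 (fun _ => le_rfl) hγle)
      intro x t s
      simp only [base_sup_apply, Ln_apply hm, max_lt_iff]
      have := he0 x
      constructor
      · rintro ⟨⟨_, a1⟩, a2⟩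
        exact ⟨a1, a2⟩
      · rintro ⟨a1, a2⟩
        exact ⟨⟨by linarith, a1⟩, a2⟩
  -- cut with `Ln m₀ α`
  have Z1 : del (Ln m c ⊔ Ln m₀ α) ((Ln (m + 1) (fun x => c x + e x - t2 x) ⊓
      Ln m₀ (fun x => α x + w x)) ⊓ Ln m (fun x => c x + e x)) ∈ NN B := by
    refine base_cut_third (Z _ (hα.add hwpl) (fun _ => le_rfl)) ?_
    refine base_del_mem ?_ (Z α hα (fun x => by linarith [hw0 x]))
    intro x t s
    simp only [base_inf_apply, Ln_apply hm, Ln_apply hM, Ln_apply h0, lt_min_iff]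
    have := hw0 x
    constructor
    · rintro ⟨a1, ⟨⟨a2, _⟩, a3⟩, a4⟩
      exact ⟨a1, ⟨a2, a4⟩, a3⟩
    · rintro ⟨a1, ⟨a2, a4⟩, a3⟩
      exact ⟨a1, ⟨⟨a2, by linarith⟩, a3⟩, a4⟩
  refine base_del_mem ?_ Z1
  intro x t s
  simp only [base_inf_apply, base_sup_apply, Ln_apply hm, Ln_apply hM, Ln_apply h0, lt_min_iff,
    max_lt_iff]
  have a0 := ht2 x
  constructor
  · rintro ⟨⟨a1, a2⟩, a3, a4⟩
    have hK : x ∈ {x | ∃ t, (Ln m₀ α ⊔ Ln m c) x t < (Ln m₀ β ⊓ Ln m c') x t} := by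
      refine ⟨t, ?_⟩
      simp only [base_inf_apply, base_sup_apply, Ln_apply hm, Ln_apply h0,
        lt_min_iff, max_lt_iff]
      exact ⟨⟨by linarith, by linarith⟩, by linarith, by linarith⟩
    have hb := hψK x hK
    have b1 := (le_max_left (β x - α x) (c' x - c x)).trans hb
    have b2 := (le_max_right (β x - α x) (c' x - c x)).trans hb
    have e1 : e x = c' x - c x := by
      rw [he x, max_eq_left (by linarith), min_eq_left b2]
    have e2 : w x = β x - α x := by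
      rw [hw x, max_eq_left (by linarith), min_eq_left b1]
    have ht : t2 x < t := by
      refine lt_of_mul_lt_mul_right ?_ hd0.le
      linarith
    refine ⟨⟨a2, a1⟩, ⟨⟨by linarith, by linarith⟩, by linarith⟩⟩
  · rintro ⟨⟨a2, a1⟩, ⟨_, a3⟩, a4⟩
    refine ⟨⟨a1, a2⟩, ?_, ?_⟩
    · have hwx : 0 < w x := by linarith
      have b1 : w x ≤ max (β x - α x) 0 := by
        rw [hw x]
        exact min_le_left _ _
      rcases le_total (β x - α x) 0 with b2 | b2
      · rw [max_eq_right b2] at b1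
        linarith
      · rw [max_eq_left b2] at b1
        linarith
    · have hex : 0 < e x := by linarith
      have b1 : e x ≤ max (c' x - c x) 0 := by
        rw [he x]
        exact min_le_left _ _
      rcases le_total (c' x - c x) 0 with b2 | b2
      · rw [max_eq_right b2] at b1
        linarith
      · rw [max_eq_left b2] at b1
        linarith

end PLH
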