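import Pool.Agent.Lib.MP_6a1069_gt.Lens
import Pool.Agent.Lib.MP_6a1069_gt.BaseAux

/-!
BaseGT: trapezoids, upper line steeper.  `m₀ < m < m'`, lines `A = Ln m c` (lower),
`A' = Ln m' c'` (upper), crossing at `t = X x := (c x - c' x)/(m'-m)`, with offset
`cX = (m - m₀) * X + c` with respect to slope `m₀`.
-/

namespace PLH

variable {B : Type*} [NormedAddCommGroup B] [NormedSpace ℝ B] [FiniteDimensional ℝ B]

theorem base_gt {m₀ m m' : ℝ} (h0 : 0 < m₀) (h1 : m₀ < m) (h2 : m < m') {α β c c' : B → ℝ}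
    (hα : IsPL α) (hβ : IsPL β) (hc : IsPL c) (hc' : IsPL c')
    (h : BddReg (Ln m₀ α ⊔ Ln m c) (Ln m₀ β ⊓ Ln m' c')) :
    del (Ln m₀ α ⊔ Ln m c) (Ln m₀ β ⊓ Ln m' c') ∈ NN B := by
  have hm : 0 < m := h0.trans h1
  have hm' : 0 < m' := hm.trans h2
  have hd : 0 < m' - m := sub_pos.2 h2
  have hd0 : 0 < m - m₀ := sub_pos.2 h1
  obtain ⟨X, hX, hXpl⟩ : ∃ X : B → ℝ, (∀ x, X x * (m' - m) = c x - c' x) ∧ IsPL X :=
    ⟨fun x => (c x - c' x) / (m' - m), fun x => div_mul_cancel₀ _ hd.ne',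
      (hc.sub hc').div_const _⟩
  obtain ⟨cX, hcX, hcXpl⟩ : ∃ cX : B → ℝ, (∀ x, cX x = (m - m₀) * X x + c x) ∧ IsPL cX :=
    ⟨fun x => (m - m₀) * X x + c x, fun _ => rfl, (hXpl.const_mul _).add hc⟩
  obtain ⟨ψ, hψ, hψ0, hψK, hψb⟩ := exists_cutoff h.base_proj (f := fun x => β x - cX x)
    (hβ.sub hcXpl).continuous
  obtain ⟨β', hβ', hβ'pl⟩ : ∃ β' : B → ℝ, (∀ x, β' x = min (β x) (cX x + ψ x)) ∧ IsPL β' :=
    ⟨fun x => min (β x) (cX x + ψ x), fun _ => rfl, hβ.min (hcXpl.add hψ)⟩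
  obtain ⟨α', hα', hα'pl⟩ : ∃ α' : B → ℝ, (∀ x, α' x = min (α x) (cX x + ψ x)) ∧ IsPL α' :=
    ⟨fun x => min (α x) (cX x + ψ x), fun _ => rfl, hα.min (hcXpl.add hψ)⟩
  have bdd : ∀ γ : B → ℝ, IsPL γ → (∀ x, γ x ≤ cX x + ψ x) →
      BddReg (Ln m c) (Ln m' c' ⊓ Ln m₀ γ) := by
    intro γ hγ hγle
    refine (bounded_between hψb (f := X) (g := fun x => (γ x - c x) / (m - m₀))
      hXpl.continuous ((hγ.sub hc).div_const _).continuous).subset ?_
    rintro ⟨x, t⟩ hxt
    simp only [Set.mem_ofPred_eq, base_inf_apply, Ln_apply hm, Ln_apply hm', Ln_apply h0,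
      lt_min_iff] at hxt ⊢
    obtain ⟨h3, h4⟩ := hxt
    have hk := hX x
    have hcx := hcX x
    have hle := hγle x
    have ht : X x < t := by
      refine lt_of_mul_lt_mul_right ?_ hd.le
      linarith
    have ht' := mul_lt_mul_of_pos_left ht hd0
    refine ⟨by linarith, ht.le, ?_⟩
    rw [le_div_iff₀ hd0]
    linarith
  -- the region does not change
  have hreg : SameReg (Ln m₀ α ⊔ Ln m c) (Ln m₀ β ⊓ Ln m' c')
      (Ln m c ⊔ Ln m₀ α') (Ln m' c' ⊓ Ln m₀ β') := by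
    intro x t s
    simp only [base_inf_apply, base_sup_apply, Ln_apply hm, Ln_apply hm', Ln_apply h0,
      lt_min_iff, max_lt_iff]
    have hk := hX x
    have hcx := hcX x
    constructor
    · rintro ⟨⟨a1, a2⟩, a3, a4⟩
      have hK : x ∈ {x | ∃ t, (Ln m₀ α ⊔ Ln m c) x t < (Ln m₀ β ⊓ Ln m' c') x t} := by
        refine ⟨t, ?_⟩
        simp only [base_inf_apply, base_sup_apply, Ln_apply hm, Ln_apply hm', Ln_apply h0,
          lt_min_iff, max_lt_iff]
        exact ⟨⟨by linarith, by linarith⟩, by linarith, by linarith⟩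
      have hb := hψK x hK
      have e1 : β' x = β x := by
        rw [hβ' x]
        exact min_eq_left (by linarith)
      have e2 : α' x ≤ α x := by
        rw [hα' x]
        exact min_le_left _ _
      exact ⟨⟨a2, by linarith⟩, a4, by linarith⟩
    · rintro ⟨⟨a2, a1⟩, a4, a3⟩
      have e1 : β' x ≤ β x := by
        rw [hβ' x]
        exact min_le_left _ _
      have e2 : β' x ≤ cX x + ψ x := by
        rw [hβ' x]
        exact min_le_right _ _
      refine ⟨⟨?_, a2⟩, by linarith, a4⟩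
      rcases min_choice (α x) (cX x + ψ x) with e | e
      · rw [hα' x, e] at a1
        exact a1
      · rw [hα' x, e] at a1
        linarith
  refine base_del_mem hreg (base_cut_third ?_ ?_)
  · exact lens1 h0 h1 h2 hβ'pl hc hc' (bdd β' hβ'pl (fun x => by
      rw [hβ' x]
      exact min_le_right _ _))
  · refine base_del_mem (U' := Ln m c) (W' := Ln m' c' ⊓ Ln m₀ (fun x => min (α' x) (β' x)))
      ?_ (lens1 h0 h1 h2 (hα'pl.min hβ'pl) hc hc' (bdd _ (hα'pl.min hβ'pl) (fun x => by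
        refine (min_le_right _ _).trans ?_
        rw [hβ' x]
        exact min_le_right _ _)))
    intro x t s
    simp only [base_inf_apply, Ln_apply hm, Ln_apply hm', Ln_apply h0, lt_min_iff]
    constructor
    · rintro ⟨a1, ⟨a2, a3⟩, a4⟩
      refine ⟨a1, a2, ?_⟩
      rcases min_choice (α' x) (β' x) with e | e <;> rw [e] <;> assumption
    · rintro ⟨a1, a2, a3⟩
      have e1 := min_le_left (α' x) (β' x)
      have e2 := min_le_right (α' x) (β' x)
      exact ⟨a1, ⟨a2, by linarith⟩, by linarith⟩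

end PLH
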