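import Pool.Agent.Lib.MP_6a1069_gt.Lens
import Pool.Agent.Lib.MP_6a1069_gt.BaseAux

/-!
BaseLT: trapezoids, upper line flatter.  `m₀ < m' < m`, `A = Ln m c` (lower), `A' = Ln m' c'`
(upper), crossing `X = (c' - c)/(m - m')`, offset `cX = (m' - m₀) * X + c'`.
-/

namespace PLH

variable {B : Type*} [NormedAddCommGroup B] [NormedSpace ℝ B] [FiniteDimensional ℝ B]

theorem base_lt {m₀ m m' : ℝ} (h0 : 0 < m₀) (h1 : m₀ < m') (h2 : m' < m) {α β c c' : B → ℝ}
    (hα : IsPL α) (hβ : IsPL β) (hc : IsPL c) (hc' : IsPL c')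
    (h : BddReg (Ln m₀ α ⊔ Ln m c) (Ln m₀ β ⊓ Ln m' c')) :
    del (Ln m₀ α ⊔ Ln m c) (Ln m₀ β ⊓ Ln m' c') ∈ NN B := by
  have hm' : 0 < m' := h0.trans h1
  have hm : 0 < m := hm'.trans h2
  have hd : 0 < m - m' := sub_pos.2 h2
  have hd0 : 0 < m' - m₀ := sub_pos.2 h1
  obtain ⟨X, hX, hXpl⟩ : ∃ X : B → ℝ, (∀ x, X x * (m - m') = c' x - c x) ∧ IsPL X :=
    ⟨fun x => (c' x - c x) / (m - m'), fun x => div_mul_cancel₀ _ hd.ne',
      (hc'.sub hc).div_const _⟩
  obtain ⟨cX, hcX, hcXpl⟩ : ∃ cX : B → ℝ, (∀ x, cX x = (m' - m₀) * X x + c' x) ∧ IsPL cX :=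
    ⟨fun x => (m' - m₀) * X x + c' x, fun _ => rfl, (hXpl.const_mul _).add hc'⟩
  obtain ⟨ψ, hψ, hψ0, hψK, hψb⟩ := exists_cutoff h.base_proj (f := fun x => cX x - α x)
    (hcXpl.sub hα).continuous
  obtain ⟨β', hβ', hβ'pl⟩ : ∃ β' : B → ℝ, (∀ x, β' x = max (β x) (cX x - ψ x)) ∧ IsPL β' :=
    ⟨fun x => max (β x) (cX x - ψ x), fun _ => rfl, hβ.max (hcXpl.sub hψ)⟩
  obtain ⟨α', hα', hα'pl⟩ : ∃ α' : B → ℝ, (∀ x, α' x = max (α x) (cX x - ψ x)) ∧ IsPL α' :=
    ⟨fun x => max (α x) (cX x - ψ x), fun _ => rfl, hα.max (hcXpl.sub hψ)⟩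
  have bdd : ∀ γ : B → ℝ, IsPL γ → (∀ x, cX x - ψ x ≤ γ x) →
      BddReg (Ln m c ⊔ Ln m₀ γ) (Ln m' c') := by
    intro γ hγ hγle
    refine (bounded_between hψb (f := fun x => (γ x - c' x) / (m' - m₀)) (g := X)
      ((hγ.sub hc').div_const _).continuous hXpl.continuous).subset ?_
    rintro ⟨x, t⟩ hxt
    simp only [Set.mem_ofPred_eq, base_sup_apply, Ln_apply hm, Ln_apply hm', Ln_apply h0,
      max_lt_iff] at hxt ⊢
    obtain ⟨h3, h4⟩ := hxt
    have hk := hX x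
    have hcx := hcX x
    have hle := hγle x
    have ht : t < X x := by
      refine lt_of_mul_lt_mul_right ?_ hd.le
      linarith
    have ht' := mul_lt_mul_of_pos_left ht hd0
    refine ⟨by linarith, ?_, ht.le⟩
    rw [div_le_iff₀ hd0]
    linarith
  -- the region does not change
  have hreg : SameReg (Ln m₀ α ⊔ Ln m c) (Ln m₀ β ⊓ Ln m' c')
      (Ln m c ⊔ Ln m₀ α') (Ln m' c' ⊓ Ln m₀ β') := by
    intro x t s
    simp only [base_inf_apply, base_sup_apply, Ln_apply hm, Ln_apply hm', Ln_apply h0,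
      lt_min_iff, max_lt_iff]
    have hk := hX x
    have hcx := hcX x
    constructor
    · rintro ⟨⟨a1, a2⟩, a3, a4⟩
      have hK : x ∈ {x | ∃ t, (Ln m₀ α ⊔ Ln m c) x t < (Ln m₀ β ⊓ Ln m' c') x t} := by
        refine ⟨t, ?_⟩
        simp only [base_inf_apply, base_sup_apply, Ln_apply hm, Ln_apply hm', Ln_apply h0,
          lt_min_iff, max_lt_iff]
        exact ⟨⟨by linarith, by linarith⟩, by linarith, by linarith⟩
      have hb := hψK x hK
      have e1 : α' x = α x := by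
        rw [hα' x]
        exact max_eq_left (by linarith)
      have e2 : β x ≤ β' x := by
        rw [hβ' x]
        exact le_max_left _ _
      exact ⟨⟨a2, by linarith⟩, a4, by linarith⟩
    · rintro ⟨⟨a2, a1⟩, a4, a3⟩
      have e1 : α x ≤ α' x := by
        rw [hα' x]
        exact le_max_left _ _
      have e2 : cX x - ψ x ≤ α' x := by
        rw [hα' x]
        exact le_max_right _ _
      refine ⟨⟨by linarith, a2⟩, ?_, a4⟩
      rcases max_choice (β x) (cX x - ψ x) with e | e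
      · rw [hβ' x, e] at a3
        exact a3
      · rw [hβ' x, e] at a3
        linarith
  refine base_del_mem hreg (base_cut_first ?_ ?_)
  · exact lens2 h0 h1 h2 hα'pl hc' hc (bdd α' hα'pl (fun x => by
      rw [hα' x]
      exact le_max_right _ _))
  · refine base_del_mem (U' := Ln m c ⊔ Ln m₀ (fun x => max (α' x) (β' x))) (W' := Ln m' c')
      ?_ (lens2 h0 h1 h2 (hα'pl.max hβ'pl) hc' hc (bdd _ (hα'pl.max hβ'pl) (fun x => by
        refine le_trans ?_ (le_max_right _ _)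
        rw [hβ' x]
        exact le_max_right _ _)))
    intro x t s
    simp only [base_sup_apply, Ln_apply hm, Ln_apply hm', Ln_apply h0, max_lt_iff]
    constructor
    · rintro ⟨⟨⟨a1, a2⟩, a3⟩, a4⟩
      refine ⟨⟨a1, ?_⟩, a4⟩
      rcases max_choice (α' x) (β' x) with e | e <;> rw [e] <;> assumption
    · rintro ⟨⟨a1, a2⟩, a3⟩
      have e1 := le_max_left (α' x) (β' x)
      have e2 := le_max_right (α' x) (β' x)
      exact ⟨⟨⟨a1, by linarith⟩, by linarith⟩, a3⟩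

end PLH
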