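import Pool.Agent.Lib.MP_6a1069_gt.HB

/-!
Cell: a cell of the arrangement of lines is inside or outside of the region.
The set `C = {(b,t,s) | ∀ A ∈ J, A b t < s, ∀ A ∈ I, s < A b t}` in `B × ℝ × ℝ` is convex (the lines
are affine in `(b,t)`), so preconnected; on `C` the continuous functions `s - U b t` and
`W b t - s` do not vanish (hsel), so they keep the sign which they have at the given point.
-/

namespace PLH

open Set

variable {B : Type*} [NormedAddCommGroup B] [NormedSpace ℝ B] [FiniteDimensional ℝ B]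

/-- affine lines of positive slope -/
def IsAff (A : B → P) : Prop := ∃ (m : ℝ) (c : B →ᵃ[ℝ] ℝ), 0 < m ∧ A = Ln m (fun b => c b)

omit [FiniteDimensional ℝ B] in
theorem IsAff.combo {A : B → P} (hA : IsAff A) {α β : ℝ} (h : α + β = 1) (b1 b2 : B)
    (t1 t2 : ℝ) : A (α • b1 + β • b2) (α * t1 + β * t2) = α * A b1 t1 + β * A b2 t2 := by
  obtain ⟨m, c, hm, rfl⟩ := hA
  rw [Ln_apply hm, Ln_apply hm, Ln_apply hm, Convex.combo_affine_apply h]
  simp only [smul_eq_mul]
  ring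

theorem cell {U W : B → P} (hU : U ∈ HH B) (hW : W ∈ HH B) {J I : List (B → P)}
    (hJ : ∀ A ∈ J, IsAff A) (hI : ∀ A ∈ I, IsAff A)
    (hsU : ∀ b t, ∃ A ∈ J ++ I, U b t = A b t) (hsW : ∀ b t, ∃ A ∈ J ++ I, W b t = A b t)
    {b : B} {t s : ℝ} (h1 : ∀ A ∈ J, A b t < s) (h2 : ∀ A ∈ I, s < A b t)
    (h3 : U b t < s) (h4 : s < W b t) :
    J ≠ [] ∧ I ≠ [] ∧ ∀ b' t' s', (∀ A ∈ J, A b' t' < s') → (∀ A ∈ I, s' < A b' t') →
      U b' t' < s' ∧ s' < W b' t' := by
  refine ⟨?_, ?_, ?_⟩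
  · rintro rfl
    obtain ⟨A, hA, hAe⟩ := hsU b t
    have := h2 A (by simpa using hA)
    linarith
  · rintro rfl
    obtain ⟨A, hA, hAe⟩ := hsW b t
    have := h1 A (by simpa using hA)
    linarith
  · set C : Set (B × ℝ × ℝ) := {z | (∀ A ∈ J, A z.1 z.2.1 < z.2.2) ∧ ∀ A ∈ I, z.2.2 < A z.1 z.2.1}
      with hC
    have hconv : Convex ℝ C := by
      rintro ⟨b1, t1, s1⟩ ⟨hz1, hz1'⟩ ⟨b2, t2, s2⟩ ⟨hz2, hz2'⟩ α β hα hβ hαβ
      have hlt : ∀ {x1 x2 y1 y2 : ℝ}, x1 < y1 → x2 < y2 → α * x1 + β * x2 < α * y1 + β * y2 := by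
        intro x1 x2 y1 y2 hx hy
        rcases hα.eq_or_lt with rfl | hα'
        · have : β = 1 := by linarith
          rw [this]; linarith
        · have e1 := mul_lt_mul_of_pos_left hx hα'
          have e2 := mul_le_mul_of_nonneg_left hy.le hβ
          linarith
      refine ⟨fun A hA => ?_, fun A hA => ?_⟩
      · have := (hJ A hA).combo hαβ b1 b2 t1 t2
        simp only [Prod.smul_mk, Prod.mk_add_mk, smul_eq_mul]
        rw [this]
        exact hlt (hz1 A hA) (hz2 A hA)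
      · have := (hI A hA).combo hαβ b1 b2 t1 t2
        simp only [Prod.smul_mk, Prod.mk_add_mk, smul_eq_mul]
        rw [this]
        exact hlt (hz1' A hA) (hz2' A hA)
    have hpre := hconv.isPreconnected
    have hmem : ((b, t, s) : B × ℝ × ℝ) ∈ C := ⟨h1, h2⟩
    have hcU : Continuous fun z : B × ℝ × ℝ => z.2.2 - fn U (z.1, z.2.1) :=
      (by fun_prop : Continuous fun z : B × ℝ × ℝ => z.2.2).sub (hU.1.continuous.comp (by fun_prop))
    have hcW : Continuous fun z : B × ℝ × ℝ => fn W (z.1, z.2.1) - z.2.2 :=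
      (hW.1.continuous.comp (by fun_prop)).sub (by fun_prop : Continuous fun z : B × ℝ × ℝ => z.2.2)
    have hneU : ∀ z ∈ C, z.2.2 - fn U (z.1, z.2.1) ≠ 0 := by
      rintro ⟨b1, t1, s1⟩ ⟨hz1, hz1'⟩ h0
      obtain ⟨A, hA, hAe⟩ := hsU b1 t1
      have h0' : s1 - U b1 t1 = 0 := h0
      rcases List.mem_append.1 hA with hA | hA
      · have : A b1 t1 < s1 := hz1 A hA
        linarith
      · have : s1 < A b1 t1 := hz1' A hA
        linarith
    have hneW : ∀ z ∈ C, fn W (z.1, z.2.1) - z.2.2 ≠ 0 := by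
      rintro ⟨b1, t1, s1⟩ ⟨hz1, hz1'⟩ h0
      obtain ⟨A, hA, hAe⟩ := hsW b1 t1
      have h0' : W b1 t1 - s1 = 0 := h0
      rcases List.mem_append.1 hA with hA | hA
      · have : A b1 t1 < s1 := hz1 A hA
        linarith
      · have : s1 < A b1 t1 := hz1' A hA
        linarith
    intro b' t' s' h1' h2'
    have hmem' : ((b', t', s') : B × ℝ × ℝ) ∈ C := ⟨h1', h2'⟩
    constructor
    · by_contra hcon
      have hle : s' - U b' t' ≤ 0 := by linarith
      have hge : 0 ≤ s - U b t := by linarith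
      obtain ⟨z, hz, hz0⟩ := hpre.intermediate_value hmem' hmem hcU.continuousOn
        (show (0 : ℝ) ∈ Icc _ _ from ⟨hle, hge⟩)
      exact hneU z hz hz0
    · by_contra hcon
      have hle : W b' t' - s' ≤ 0 := by linarith
      have hge : 0 ≤ W b t - s := by linarith
      obtain ⟨z, hz, hz0⟩ := hpre.intermediate_value hmem' hmem hcW.continuousOn
        (show (0 : ℝ) ∈ Icc _ _ from ⟨hle, hge⟩)
      exact hneW z hz hz0

end PLH
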