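import Pool.Agent.Lib.MP_6a1069_gt.Inv

/-!
Coord: maps which change one coordinate.  `g x = update x k (f x)`.
Injective: if `g x = g y` then `x`, `y` differ only in coordinate `k`.  Surjective: on the line
`t ↦ update x k t`, `f` is continuous, strictly increasing and equal to `t` for large `|t|`.
Continuity of the inverse: as in `inv_PL` (or: `g` is a continuous bijection which is the identity
outside of a compact set, so a closed map: `Continuous.homeoOfEquivCompactToT2` on a big closed
ball, or sequences).  Then `isPL_symm`.
`homeo_of_compact`: a continuous bijection which is the identity outside of a ball has a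
continuous inverse (useful for `Pert` as well).
-/

namespace PLH

theorem homeo_of_compact {E : Type*} [NormedAddCommGroup E] [NormedSpace ℝ E]
    [FiniteDimensional ℝ E] (h : Equiv.Perm E) (hc : Continuous (h : E → E)) (R : ℝ)
    (hR : ∀ x, R < ‖x‖ → h x = x) : Continuous (⇑h⁻¹ : E → E) := by
  have hproper : ProperSpace E := FiniteDimensional.proper ℝ E
  have ht : Filter.Tendsto h (Filter.cocompact E) (Filter.cocompact E) := by
    refine Filter.tendsto_id.congr' ?_
    have h1 : (Metric.closedBall (0 : E) R)ᶜ ∈ Filter.cocompact E :=
      (isCompact_closedBall (0 : E) R).compl_mem_cocompact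
    filter_upwards [h1] with x hx
    have : R < ‖x‖ := by simpa using hx
    exact (hR x this).symm
  have hp : IsProperMap h := isProperMap_iff_tendsto_cocompact.2 ⟨hc, ht⟩
  exact (h.toHomeomorphOfContinuousClosed hc hp.isClosedMap).symm.continuous

theorem exists_coord {n : ℕ} (k : Fin n) (f : (Fin n → ℝ) → ℝ) (hf : IsPL f)
    (hm : ∀ x s t, s < t → f (Function.update x k s) < f (Function.update x k t))
    (R : ℝ) (hR : ∀ x, R < ‖x‖ → f x = x k) :
    ∃ g ∈ LPc (Pi.single k (1 : ℝ) : Fin n → ℝ), ∀ x, g x = Function.update x k (f x) := by
  set G : (Fin n → ℝ) → (Fin n → ℝ) := fun x => Function.update x k (f x) with hG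
  have hmono : ∀ x, StrictMono fun t => f (Function.update x k t) := fun x s t hst =>
    hm x s t hst
  have hnorm : ∀ (x : Fin n → ℝ) (t : ℝ), |t| ≤ ‖Function.update x k t‖ := fun x t => by
    have := norm_le_pi_norm (Function.update x k t) k
    rwa [Function.update_self, Real.norm_eq_abs] at this
  have hinj : Function.Injective G := by
    intro x y hxy
    have h1 : ∀ i, i ≠ k → x i = y i := fun i hi => by
      have := congrFun hxy i
      simpa [hG, hi] using this
    have h2 : f x = f y := by
      have := congrFun hxy k
      simpa [hG] using this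
    have h3 : y = Function.update x k (y k) := by
      funext i
      by_cases hi : i = k
      · subst hi; simp
      · simp [hi, h1 i hi]
    have h4 : x = Function.update x k (x k) := by simp
    have h5 : x k = y k := by
      apply (hmono x).injective
      show f (Function.update x k (x k)) = f (Function.update x k (y k))
      rw [← h3, ← h4, h2]
    funext i
    by_cases hi : i = k
    · subst hi; exact h5
    · exact h1 i hi
  have hsurj : Function.Surjective G := by
    intro y
    have hcont : Continuous fun t => f (Function.update y k t) :=
      hf.continuous.comp (continuous_const.update k continuous_id)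
    have hs : Function.Surjective fun t => f (Function.update y k t) := by
      refine hcont.surjective ?_ ?_
      · refine Filter.tendsto_id.congr' ?_
        filter_upwards [Filter.eventually_gt_atTop (Max.max R 0)] with t ht
        have : R < ‖Function.update y k t‖ := (le_max_left _ _).trans_lt
          (ht.trans_le ((le_abs_self t).trans (hnorm y t)))
        rw [hR _ this]
        simp
      · refine Filter.tendsto_id.congr' ?_
        filter_upwards [Filter.eventually_lt_atBot (-(Max.max R 0))] with t ht
        have : R < ‖Function.update y k t‖ := (le_max_left R 0).trans_lt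
          ((lt_neg_of_lt_neg ht).trans_le ((neg_le_abs t).trans (hnorm y t)))
        rw [hR _ this]
        simp
    obtain ⟨t, ht⟩ := hs (y k)
    refine ⟨Function.update y k t, ?_⟩
    have ht' : f (Function.update y k t) = y k := ht
    simp [hG, ht']
  have hadd : ∀ x, G x = x + (f x - x k) • (Pi.single k (1 : ℝ) : Fin n → ℝ) := by
    intro x
    funext i
    by_cases hi : i = k
    · subst hi; simp [hG]
    · simp [hG, hi]
  have hGPL : IsPL G := by
    have h1 : IsPL fun x : Fin n → ℝ => x k :=
      IsPL.clm (ContinuousLinearMap.proj (R := ℝ) (φ := fun _ : Fin n => ℝ) k)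
    have h2 : IsPL fun x => (f x - x k) • (Pi.single k (1 : ℝ) : Fin n → ℝ) :=
      (IsPL.clm (ContinuousLinearMap.toSpanSingleton ℝ
        (Pi.single k (1 : ℝ) : Fin n → ℝ))).comp (hf.sub h1)
    exact (IsPL.id.add h2).congr hadd
  set g : Equiv.Perm (Fin n → ℝ) := Equiv.ofBijective G ⟨hinj, hsurj⟩ with hg
  have hsupp : ∀ x, R < ‖x‖ → g x = x := by
    intro x hx
    show G x = x
    rw [hadd, hR x hx, sub_self, zero_smul, add_zero]
  have hgPL : IsPL (g : (Fin n → ℝ) → (Fin n → ℝ)) := hGPL
  refine ⟨g, ⟨⟨hgPL, isPL_symm g hgPL (homeo_of_compact g hgPL.continuous R hsupp), R, hsupp⟩,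
    fun x => ⟨f x - x k, hadd x⟩⟩, fun x => rfl⟩

end PLH
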