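import Pool.Agent.Lib.MP_6a1069_gt.LinP
import Pool.Agent.Lib.MP_6a1069_gt.Coord

/-!
Comp: compression.  Let `o ∈ O`, `S ⊂ [-R,R]^n`, `|o_i| < R`.  For each coordinate `i` and `l ∈ (0,1)`:
`g_i x = update x i (F x)` where, with the other coordinates frozen,
`F = em m l a o (x i)` for `x i ≤ o i` and the mirror image for `x i ≥ o i`; simplest formula:
`F x = max (min (o + l (x_i - o)) (a + m (x_i - a))) (..)`; or
`F x = em m l (a x) (o i) ((em (1/l) (1/m) (o i) (b x))⁻¹ (x i))`, with `a x = o - (o + R') χ x`,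
`b x = o + (R' - o) χ x`, `χ x` a PL cut-off of the other coordinates with values in `[0,1]`, `= 1`
on the cube `[-R,R]`; `m` so large that the apex of `em m l (-R') o` is left of `-R`.  Then `g_i` maps
the cube `[-R,R]^n` into itself and `|g_i x i - o i| ≤ l |x i - o i|` there, other coordinates are
kept.  The product of all `g_i` maps the cube into `{|x i - o i| ≤ 2 R l}`.
`g_i ∈ LPc e_i ≤ ⁅LPc e_i, LPc e_i⁆ ≤ ⁅PLc, PLc⁆` by `LPc_le`.
(`compress1` is the one coordinate statement.)
-/

namespace PLH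

theorem LPc_le_comm {n : ℕ} {v : Fin n → ℝ} (hv : v ≠ 0) :
    LPc v ≤ ⁅PLc (Fin n → ℝ), PLc (Fin n → ℝ)⁆ := by
  have h1 : LPc v ≤ PLc (Fin n → ℝ) := fun h hh => hh.1
  exact (LPc_le hv).trans (Subgroup.commutator_mono h1 h1)

/-- the compression to the left of `o` -/
noncomputable def cL (m l o u t : ℝ) : ℝ :=
  max t (min (o - u + m * (t - (o - u))) (o + l * (t - o)))

/-- the compression to the right of `o` -/
noncomputable def cR (m l o u t : ℝ) : ℝ :=
  min t (max (o + u + m * (t - (o + u))) (o + l * (t - o)))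

theorem cL_of_le {m l o u t : ℝ} (hm : 1 < m) (h : t ≤ o - u) : cL m l o u t = t := by
  unfold cL
  have h1 : o - u + m * (t - (o - u)) ≤ t := by nlinarith
  exact max_eq_left ((min_le_left _ _).trans h1)

theorem cL_of_ge {m l o u t : ℝ} (hl : l < 1) (h : o ≤ t) : cL m l o u t = t := by
  unfold cL
  have h1 : o + l * (t - o) ≤ t := by nlinarith
  exact max_eq_left ((min_le_right _ _).trans h1)

theorem cR_of_ge {m l o u t : ℝ} (hm : 1 < m) (h : o + u ≤ t) : cR m l o u t = t := by
  unfold cR
  have h1 : t ≤ o + u + m * (t - (o + u)) := by nlinarith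
  exact min_eq_left (h1.trans (le_max_left _ _))

theorem cR_of_le {m l o u t : ℝ} (hl : l < 1) (h : t ≤ o) : cR m l o u t = t := by
  unfold cR
  have h1 : t ≤ o + l * (t - o) := by nlinarith
  exact min_eq_left (h1.trans (le_max_right _ _))

theorem cL_lt {m l o u s t : ℝ} (hm : 1 < m) (hl : 0 < l) (h : s < t) :
    cL m l o u s < cL m l o u t := by
  unfold cL
  have h1 : o - u + m * (s - (o - u)) < o - u + m * (t - (o - u)) := by nlinarith
  have h2 : o + l * (s - o) < o + l * (t - o) := by nlinarith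
  exact max_lt_max h (min_lt_min h1 h2)

theorem cR_lt {m l o u s t : ℝ} (hm : 1 < m) (hl : 0 < l) (h : s < t) :
    cR m l o u s < cR m l o u t := by
  unfold cR
  have h1 : o + u + m * (s - (o + u)) < o + u + m * (t - (o + u)) := by nlinarith
  have h2 : o + l * (s - o) < o + l * (t - o) := by nlinarith
  exact min_lt_min h (max_lt_max h1 h2)

/-- both compressions -/
noncomputable def cF (m l o u t : ℝ) : ℝ := cL m l o u (cR m l o u t)

theorem cF_lt {m l o u s t : ℝ} (hm : 1 < m) (hl : 0 < l) (h : s < t) :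
    cF m l o u s < cF m l o u t := cL_lt hm hl (cR_lt hm hl h)

theorem cF_eq {m l o u t : ℝ} (hm : 1 < m) (hl : l < 1)
    (h : u ≤ 0 ∨ (o + u ≤ t ∧ o ≤ t) ∨ (t ≤ o - u ∧ t ≤ o)) : cF m l o u t = t := by
  unfold cF
  rcases h with h | ⟨h1, h2⟩ | ⟨h1, h2⟩
  · rcases le_total o t with h' | h'
    · rw [cR_of_ge hm (by linarith), cL_of_ge hl h']
    · rw [cR_of_le hl h', cL_of_le hm (by linarith)]
  · rw [cR_of_ge hm h1, cL_of_ge hl h2]
  · rw [cR_of_le hl h2, cL_of_le hm h1]

theorem cF_val {l o R t : ℝ} (ho : |o| < R) (hl0 : 0 < l) (hl : l < 1) (ht : |t| ≤ R) :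
    cF (4 * R + 2) l o (2 * R + 1) t = o + l * (t - o) := by
  obtain ⟨ho1, ho2⟩ := abs_lt.1 ho
  obtain ⟨ht1, ht2⟩ := abs_le.1 ht
  have hR : 0 < R := by linarith
  unfold cF
  rcases le_total o t with h' | h'
  · have h1 : cR (4 * R + 2) l o (2 * R + 1) t = o + l * (t - o) := by
      unfold cR
      rw [max_eq_right, min_eq_right]
      · nlinarith
      · have : 0 ≤ l * (t - o) := mul_nonneg hl0.le (by linarith)
        nlinarith
    rw [h1]
    exact cL_of_ge hl (by nlinarith)
  · rw [cR_of_le hl h']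
    unfold cL
    rw [min_eq_right, max_eq_right]
    · nlinarith
    · have : l * (t - o) ≤ 0 := by nlinarith
      nlinarith

theorem comp_isPL_sum {E ι : Type*} [NormedAddCommGroup E] [NormedSpace ℝ E] (s : Finset ι)
    {f : ι → E → ℝ} (h : ∀ j ∈ s, IsPL (f j)) : IsPL (fun x => ∑ j ∈ s, f j x) := by
  classical
  induction s using Finset.induction_on with
  | empty => exact (IsPL.const (0 : ℝ)).congr fun x => by simp
  | insert a s ha ih =>
    have h1 := (h a (Finset.mem_insert_self _ _)).add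
      (ih fun j hj => h j (Finset.mem_insert_of_mem hj))
    exact h1.congr fun x => by rw [Finset.sum_insert ha]

theorem comp_isPL_proj {n : ℕ} (j : Fin n) : IsPL (fun x : Fin n → ℝ => x j) :=
  IsPL.clm (ContinuousLinearMap.proj (R := ℝ) (φ := fun _ : Fin n => ℝ) j)

theorem comp_isPL_cF {E : Type*} [NormedAddCommGroup E] [NormedSpace ℝ E] (m l o : ℝ)
    {u t : E → ℝ} (hu : IsPL u) (ht : IsPL t) : IsPL (fun x => PLH.cF m l o (u x) (t x)) := by
  have hR : IsPL (fun x => cR m l o (u x) (t x)) := by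
    unfold cR
    exact ht.min ((((IsPL.const o).add hu).add
      ((ht.sub ((IsPL.const o).add hu)).const_mul m)).max
      ((IsPL.const o).add ((ht.sub (IsPL.const o)).const_mul l)))
  unfold PLH.cF cL
  exact hR.max ((((IsPL.const o).sub hu).add
      ((hR.sub ((IsPL.const o).sub hu)).const_mul m)).min
      ((IsPL.const o).add ((hR.sub (IsPL.const o)).const_mul l)))

theorem compress1 {n : ℕ} (i : Fin n) (R : ℝ) (o : ℝ) (ho : |o| < R) (l : ℝ) (hl0 : 0 < l)
    (hl : l < 1) :
    ∃ g ∈ LPc (Pi.single i (1 : ℝ) : Fin n → ℝ), ∀ x : Fin n → ℝ, (∀ j, |x j| ≤ R) →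
      (∀ j, j ≠ i → g x j = x j) ∧ |g x i - o| ≤ l * |x i - o| ∧ |g x i| ≤ R := by
  classical
  obtain ⟨ho1, ho2⟩ := abs_lt.1 ho
  have hR : 0 < R := by linarith
  set ρ : (Fin n → ℝ) → ℝ := fun x => ∑ j ∈ Finset.univ.erase i, max 0 (|x j| - R) with hρ
  set u : (Fin n → ℝ) → ℝ := fun x => 2 * R + 1 - ρ x with hu
  have hρ0 : ∀ x, 0 ≤ ρ x := fun x => Finset.sum_nonneg fun j _ => le_max_left _ _
  have hPρ : IsPL ρ := by
    apply comp_isPL_sum
    intro j _
    have h1 : IsPL (fun x : Fin n → ℝ => |x j|) :=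
      ((comp_isPL_proj j).max (comp_isPL_proj j).neg).congr fun x => rfl
    exact (IsPL.const (0 : ℝ)).max (h1.sub (IsPL.const R))
  have hPu : IsPL u := (IsPL.const (2 * R + 1)).sub hPρ
  have hm : 1 < 4 * R + 2 := by linarith
  obtain ⟨g, hg, hgx⟩ := exists_coord i (fun x => cF (4 * R + 2) l o (u x) (x i))
    (comp_isPL_cF _ _ _ hPu (comp_isPL_proj i)) (by
      intro x s t hst
      have h1 : u (Function.update x i s) = u (Function.update x i t) := by
        simp only [hu, hρ]
        congr 1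
        apply Finset.sum_congr rfl
        intro j hj
        rw [Function.update_of_ne (Finset.ne_of_mem_erase hj),
          Function.update_of_ne (Finset.ne_of_mem_erase hj)]
      simp only [h1, Function.update_self]
      exact cF_lt hm hl0 hst) (4 * R + 1) (by
      intro x hx
      apply cF_eq hm hl
      have h1 : ∃ j, 4 * R + 1 < |x j| := by
        by_contra hc
        push Not at hc
        have h2 : ‖x‖ ≤ 4 * R + 1 := (pi_norm_le_iff_of_nonneg (by linarith)).2
          fun j => by rw [Real.norm_eq_abs]; exact hc j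
        linarith
      obtain ⟨j, hj⟩ := h1
      by_cases hji : j = i
      · subst hji
        right
        have h3 : u x ≤ 2 * R + 1 := by
          have := hρ0 x
          simp only [hu]
          linarith
        rcases lt_abs.1 hj with h | h
        · left
          exact ⟨by linarith, by linarith⟩
        · right
          exact ⟨by linarith, by linarith⟩
      · left
        have h3 : max 0 (|x j| - R) ≤ ρ x :=
          Finset.single_le_sum (f := fun j => max 0 (|x j| - R))
            (fun j _ => le_max_left _ _)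
            (Finset.mem_erase.2 ⟨hji, Finset.mem_univ j⟩)
        have h4 := le_max_right 0 (|x j| - R)
        simp only [hu]
        linarith)
  refine ⟨g, hg, fun x hx => ?_⟩
  have hρx : ρ x = 0 := by
    apply Finset.sum_eq_zero
    intro j _
    exact max_eq_left (by linarith [hx j])
  have hux : u x = 2 * R + 1 := by simp only [hu, hρx]; ring
  have hval : g x i = o + l * (x i - o) := by
    rw [hgx x, Function.update_self, hux]
    exact cF_val ho hl0 hl (hx i)
  refine ⟨fun j hj => by rw [hgx x, Function.update_of_ne hj], ?_, ?_⟩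
  · rw [hval]
    have : o + l * (x i - o) - o = l * (x i - o) := by ring
    rw [this, abs_mul, abs_of_pos hl0]
  · rw [hval]
    obtain ⟨h1, h2⟩ := abs_le.1 (hx i)
    exact abs_le.2 ⟨by nlinarith, by nlinarith⟩

theorem compress {n : ℕ} {S : Set (Fin n → ℝ)} (hS : Bornology.IsBounded S)
    {O : Set (Fin n → ℝ)} (hO : IsOpen O) (hne : O.Nonempty) :
    ∃ r ∈ ⁅PLc (Fin n → ℝ), PLc (Fin n → ℝ)⁆, ∀ x ∈ S, r x ∈ O := by
  classical
  obtain ⟨o, ho⟩ := hne
  obtain ⟨ε, hε, hball⟩ := Metric.isOpen_iff.1 hO o ho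
  obtain ⟨C, hC⟩ := hS.exists_norm_le
  set R : ℝ := max C 0 + ‖o‖ + 1 with hRdef
  have hR1 : C ≤ R := by
    have := le_max_left C 0
    have := norm_nonneg o
    linarith
  have hR2 : ∀ i, |o i| < R := by
    intro i
    have h1 : |o i| ≤ ‖o‖ := norm_le_pi_norm o i
    have := le_max_right C 0
    linarith
  have hR0 : 0 < R := by
    have := le_max_right C 0
    have := norm_nonneg o
    linarith
  set l : ℝ := min (1 / 2) (ε / (4 * R)) with hl
  have hl0 : 0 < l := lt_min (by norm_num) (by positivity)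
  have hl1 : l < 1 := (min_le_left _ _).trans_lt (by norm_num)
  have hl2 : l * (2 * R) < ε := by
    have h1 : l ≤ ε / (4 * R) := min_le_right _ _
    have h2 : l * (2 * R) ≤ ε / (4 * R) * (2 * R) := mul_le_mul_of_nonneg_right h1 (by linarith)
    have h3 : ε / (4 * R) * (2 * R) = ε / 2 := by field_simp; ring
    linarith
  have key : ∀ s : Finset (Fin n), ∃ r ∈ ⁅PLc (Fin n → ℝ), PLc (Fin n → ℝ)⁆,
      ∀ x : Fin n → ℝ, (∀ j, |x j| ≤ R) → (∀ j, |r x j| ≤ R) ∧
        ∀ i ∈ s, |r x i - o i| ≤ l * (2 * R) := by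
    intro s
    induction s using Finset.induction_on with
    | empty => exact ⟨1, one_mem _, fun x hx => ⟨hx, fun i hi => absurd hi (Finset.notMem_empty i)⟩⟩
    | insert a s ha ih =>
      obtain ⟨r, hr, hrx⟩ := ih
      obtain ⟨g, hg, hgx⟩ := compress1 a R (o a) (hR2 a) l hl0 hl1
      refine ⟨g * r, mul_mem (LPc_le_comm (by simp) hg) hr, fun x hx => ?_⟩
      obtain ⟨h1, h2⟩ := hrx x hx
      obtain ⟨h3, h4, h5⟩ := hgx (r x) h1
      have hgr : (g * r) x = g (r x) := rfl
      rw [hgr]
      refine ⟨fun j => ?_, fun i hi => ?_⟩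
      · by_cases hj : j = a
        · rw [hj]; exact h5
        · rw [h3 j hj]; exact h1 j
      · by_cases hi' : i = a
        · rw [hi']
          have h6 : |r x a - o a| ≤ 2 * R := by
            have h7 := abs_sub (r x a) (o a)
            have h8 := h1 a
            have h9 := (hR2 a).le
            linarith
          exact h4.trans (mul_le_mul_of_nonneg_left h6 hl0.le)
        · rw [h3 i hi']
          exact h2 i ((Finset.mem_insert.1 hi).resolve_left hi')
  obtain ⟨r, hr, hrx⟩ := key Finset.univ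
  refine ⟨r, hr, fun x hx => hball ?_⟩
  have h1 : ∀ j, |x j| ≤ R := fun j => ((norm_le_pi_norm x j).trans (hC x hx)).trans hR1
  rw [Metric.mem_ball, dist_pi_lt_iff hε]
  intro i
  rw [Real.dist_eq]
  exact ((hrx x h1).2 i (Finset.mem_univ i)).trans_lt hl2

end PLH
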