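import Pool.Agent.Lib.MP_6a1069_gt.Defs

/-!
Lip: PL maps are Lipschitz.  `C ≥ ‖a.linear‖` for all `a ∈ S`.  Fix `x, y`; on the segment
`z τ = x + τ (y - x)` the set `T = {τ ∈ [0,1] | ‖f (z τ) - f x‖ ≤ C τ ‖y - x‖}` is closed, contains
`0`; if `τ₀ ∈ T`, `τ₀ < 1`, then near `z τ₀` only those `a ∈ S` with `a (z τ₀) = f (z τ₀)` are active
(finitely many others are excluded by continuity), so `‖f (z τ) - f (z τ₀)‖ ≤ C (τ-τ₀) ‖y-x‖`.
`IsClosed.Icc_subset_of_forall_mem_nhdsWithin` (or with `exists_gt`).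
-/

namespace PLH

theorem IsPL.lipschitz {E F : Type*} [NormedAddCommGroup E] [NormedSpace ℝ E]
    [FiniteDimensional ℝ E] [NormedAddCommGroup F] [NormedSpace ℝ F] {f : E → F}
    (hf : IsPL f) : ∃ C : ℝ, 0 ≤ C ∧ ∀ x y, ‖f x - f y‖ ≤ C * ‖x - y‖ := by
  obtain ⟨hfc, S, hS, hS'⟩ := hf
  obtain ⟨C₀, hC₀⟩ := (hS.image fun a => ‖a.linear.toContinuousLinearMap‖).bddAbove
  set C := Max.max C₀ 0 with hC
  have hCa : ∀ a ∈ S, ∀ u v : E, ‖a u - a v‖ ≤ C * ‖u - v‖ := by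
    intro a ha u v
    have h1 : a u - a v = a.linear.toContinuousLinearMap (u - v) := by
      rw [LinearMap.coe_toContinuousLinearMap']
      exact (a.linearMap_vsub u v).symm
    rw [h1]
    refine (ContinuousLinearMap.le_opNorm _ _).trans ?_
    exact mul_le_mul_of_nonneg_right ((hC₀ ⟨a, ha, rfl⟩).trans (le_max_left _ _))
      (norm_nonneg _)
  refine ⟨C, le_max_right _ _, fun y x => ?_⟩
  set z : ℝ → E := fun τ => x + τ • (y - x) with hz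
  have hzc : Continuous z := by fun_prop
  have hgc : Continuous fun τ => f (z τ) := hfc.comp hzc
  have hloc : ∀ τ₀ : ℝ, ∀ᶠ τ in nhds τ₀, ‖f (z τ) - f (z τ₀)‖ ≤ C * (|τ - τ₀| * ‖y - x‖) := by
    intro τ₀
    have h1 : ∀ a ∈ S, ∀ᶠ τ in nhds τ₀, a (z τ) = f (z τ) → a (z τ₀) = f (z τ₀) := by
      intro a _
      by_cases h : a (z τ₀) = f (z τ₀)
      · exact Filter.Eventually.of_forall fun _ _ => h
      · have hac : Continuous fun τ => a (z τ) :=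
          a.continuous_of_finiteDimensional.comp hzc
        have h2 : ∀ᶠ τ in nhds τ₀, a (z τ) - f (z τ) ≠ 0 :=
          (hac.sub hgc).continuousAt.eventually_ne (sub_ne_zero.2 h)
        filter_upwards [h2] with τ hτ h3
        exact absurd (sub_eq_zero.2 h3) hτ
    have h2 := (Filter.eventually_all_finite hS).2 h1
    filter_upwards [h2] with τ hτ
    obtain ⟨a, ha, hax⟩ := hS' (z τ)
    rw [hax, ← hτ a ha hax.symm]
    refine (hCa a ha _ _).trans (mul_le_mul_of_nonneg_left (le_of_eq ?_) (le_max_right _ _))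
    have : z τ - z τ₀ = (τ - τ₀) • (y - x) := by
      simp only [hz]
      rw [sub_smul]
      abel
    rw [this, norm_smul, Real.norm_eq_abs]
  set T : Set ℝ := {τ | ‖f (z τ) - f (z 0)‖ ≤ C * (τ * ‖y - x‖)} with hT
  have hTc : IsClosed (T ∩ Set.Icc 0 1) :=
    (isClosed_le (by fun_prop) (by fun_prop)).inter isClosed_Icc
  have h0 : (0 : ℝ) ∈ T := by simp [hT]
  have hsub := hTc.Icc_subset_of_forall_exists_gt h0 (fun τ₀ hτ₀ w hw => by
    have h1 : ∀ᶠ τ in nhdsWithin τ₀ (Set.Ioi τ₀),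
        ‖f (z τ) - f (z τ₀)‖ ≤ C * (|τ - τ₀| * ‖y - x‖) :=
      (hloc τ₀).filter_mono nhdsWithin_le_nhds
    have h2 : ∀ᶠ τ in nhdsWithin τ₀ (Set.Ioi τ₀), τ ∈ Set.Ioc τ₀ w :=
      Ioc_mem_nhdsGT hw
    obtain ⟨τ, hτ1, hτ2⟩ := (h1.and h2).exists
    refine ⟨τ, ?_, hτ2⟩
    show ‖f (z τ) - f (z 0)‖ ≤ C * (τ * ‖y - x‖)
    have h3 : ‖f (z τ₀) - f (z 0)‖ ≤ C * (τ₀ * ‖y - x‖) := hτ₀.1
    rw [abs_of_pos (sub_pos.2 hτ2.1)] at hτ1
    calc ‖f (z τ) - f (z 0)‖ = ‖(f (z τ) - f (z τ₀)) + (f (z τ₀) - f (z 0))‖ := by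
          congr 1; abel
      _ ≤ ‖f (z τ) - f (z τ₀)‖ + ‖f (z τ₀) - f (z 0)‖ := norm_add_le _ _
      _ ≤ C * ((τ - τ₀) * ‖y - x‖) + C * (τ₀ * ‖y - x‖) := add_le_add hτ1 h3
      _ = C * (τ * ‖y - x‖) := by ring)
  have h1 : ‖f (z 1) - f (z 0)‖ ≤ C * (1 * ‖y - x‖) := hsub ⟨zero_le_one, le_rfl⟩
  simpa [hz] using h1

end PLH
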