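import Pool.Agent.Lib.MP_6a1069_gt.Coord

/-!
Mono: monotone PL homeomorphisms are products of `n` line preserving ones.
`Ψ_j x = (h_0 x, .., h_{j-1} x, x_j, .., x_{n-1})`.  Induction on `j ≤ n`: there is a list `L` of
length `j` of elements of the groups `LPc (e_i)` whose product `ψ` satisfies
`(ψ x) i = (h x) i` for `i < j` and `= x i` for `i ≥ j`.
-/

namespace PLH

theorem mono_step {n : ℕ} {h ψ : Equiv.Perm (Fin n → ℝ)} (hh : h ∈ PLc (Fin n → ℝ))
    (hm : ∀ x y, x ≠ y → 0 < ∑ i, (h x i - h y i) * (x i - y i)) (k : Fin n)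
    (hψ : ψ ∈ PLc (Fin n → ℝ)) (h1 : ∀ x (i : Fin n), i < k → ψ x i = h x i)
    (h2 : ∀ x (i : Fin n), k ≤ i → ψ x i = x i) :
    ∃ g ∈ LPc (Pi.single k (1 : ℝ) : Fin n → ℝ),
      ∀ x, g (ψ x) = Function.update (ψ x) k (h x k) := by
  obtain ⟨hh1, -, R, hR⟩ := hh
  obtain ⟨-, hψ2, S, hS⟩ := hψ
  have hf : IsPL (fun y : Fin n → ℝ => h (ψ⁻¹ y) k) :=
    (IsPL.clm (ContinuousLinearMap.proj (R := ℝ) (φ := fun _ : Fin n => ℝ) k)).comp (hh1.comp hψ2)
  have hmono : ∀ x s t, s < t → (fun y : Fin n → ℝ => h (ψ⁻¹ y) k) (Function.update x k s) <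
      (fun y : Fin n → ℝ => h (ψ⁻¹ y) k) (Function.update x k t) := by
    intro y s t hst
    show h (ψ⁻¹ (Function.update y k s)) k < h (ψ⁻¹ (Function.update y k t)) k
    set a := ψ⁻¹ (Function.update y k s) with ha
    set b := ψ⁻¹ (Function.update y k t) with hb
    have ha' : ψ a = Function.update y k s := ψ.apply_symm_apply _
    have hb' : ψ b = Function.update y k t := ψ.apply_symm_apply _
    have hak : a k = s := by
      rw [← h2 a k le_rfl, ha', Function.update_self]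
    have hbk : b k = t := by
      rw [← h2 b k le_rfl, hb', Function.update_self]
    have hab : a ≠ b := by
      intro hab
      rw [hab, hbk] at hak
      exact hst.ne hak.symm
    have hsum := hm a b hab
    rw [Finset.sum_eq_single k] at hsum
    · rw [hak, hbk] at hsum
      by_contra hcon
      push Not at hcon
      have h3 : (h a k - h b k) * (s - t) ≤ 0 :=
        mul_nonpos_of_nonneg_of_nonpos (by linarith) (by linarith)
      linarith
    · intro i _ hik
      rcases lt_or_gt_of_ne hik with h3 | h3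
      · rw [← h1 a i h3, ← h1 b i h3, ha', hb', Function.update_of_ne hik,
          Function.update_of_ne hik, sub_self, zero_mul]
      · rw [← h2 a i h3.le, ← h2 b i h3.le, ha', hb', Function.update_of_ne hik,
          Function.update_of_ne hik, sub_self, mul_zero]
    · intro hk
      exact absurd (Finset.mem_univ k) hk
  obtain ⟨g, hg, hg'⟩ := exists_coord k (fun y : Fin n → ℝ => h (ψ⁻¹ y) k) hf hmono (max R S)
    (fun y hy => by
      have h3 : ψ⁻¹ y = y := by
        rw [Equiv.Perm.inv_eq_iff_eq]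
        exact (hS y ((le_max_right _ _).trans_lt hy)).symm
      show h (ψ⁻¹ y) k = y k
      rw [h3, hR y ((le_max_left _ _).trans_lt hy)])
  refine ⟨g, hg, fun x => ?_⟩
  have h3 : ψ⁻¹ (ψ x) = x := ψ.symm_apply_apply x
  rw [hg' (ψ x), h3]

theorem mono_prod {n : ℕ} {h : Equiv.Perm (Fin n → ℝ)} (hh : h ∈ PLc (Fin n → ℝ))
    (hm : ∀ x y, x ≠ y → 0 < ∑ i, (h x i - h y i) * (x i - y i)) :
    ∃ L : List (Equiv.Perm (Fin n → ℝ)), L.length = n ∧
      (∀ g ∈ L, ∃ i : Fin n, g ∈ LPc (Pi.single i (1 : ℝ) : Fin n → ℝ)) ∧ h = L.prod := by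
  have key : ∀ j : ℕ, j ≤ n → ∃ L : List (Equiv.Perm (Fin n → ℝ)), L.length = j ∧
      (∀ g ∈ L, ∃ i : Fin n, g ∈ LPc (Pi.single i (1 : ℝ) : Fin n → ℝ)) ∧
      (∀ x (i : Fin n), (i : ℕ) < j → L.prod x i = h x i) ∧
      (∀ x (i : Fin n), j ≤ (i : ℕ) → L.prod x i = x i) := by
    intro j
    induction j with
    | zero =>
      intro _
      exact ⟨[], rfl, by simp, by simp, by simp⟩
    | succ j ih =>
      intro hj
      obtain ⟨L, hL1, hL2, hL3, hL4⟩ := ih (by omega)
      have hψ : L.prod ∈ PLc (Fin n → ℝ) := by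
        refine Subgroup.list_prod_mem _ fun g hg => ?_
        obtain ⟨i, hi⟩ := hL2 g hg
        exact hi.1
      obtain ⟨g, hg, hg'⟩ := mono_step hh hm ⟨j, by omega⟩ hψ
        (fun x i hi => hL3 x i hi) (fun x i hi => hL4 x i hi)
      refine ⟨g :: L, by simp [hL1], ?_, ?_, ?_⟩
      · intro g' hg1
        rcases List.mem_cons.1 hg1 with h3 | h3
        · exact ⟨⟨j, by omega⟩, by rw [h3]; exact hg⟩
        · exact hL2 g' h3
      · intro x i hi
        rw [List.prod_cons]
        show g (L.prod x) i = h x i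
        rw [hg']
        by_cases h3 : i = ⟨j, by omega⟩
        · rw [h3, Function.update_self]
        · rw [Function.update_of_ne h3]
          refine hL3 x i ?_
          have : (i : ℕ) ≠ j := fun h4 => h3 (Fin.ext h4)
          omega
      · intro x i hi
        rw [List.prod_cons]
        show g (L.prod x) i = x i
        rw [hg', Function.update_of_ne (by intro h4; rw [h4] at hi; simp at hi)]
        exact hL4 x i (by omega)
  obtain ⟨L, hL1, hL2, hL3, -⟩ := key n le_rfl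
  refine ⟨L, hL1, hL2, ?_⟩
  ext x i
  exact (hL3 x i i.2).symm

/-- Lipschitz small (euclidean norm) implies monotone -/
theorem mono_of_lip {n : ℕ} {h : (Fin n → ℝ) → (Fin n → ℝ)} {ε : ℝ} (h0 : 0 ≤ ε) (h1 : ε < 1)
    (hl : ∀ x y, ∑ i, ((h x i - x i) - (h y i - y i)) ^ 2 ≤ ε ^ 2 * ∑ i, (x i - y i) ^ 2)
    {x y : Fin n → ℝ} (hxy : x ≠ y) : 0 < ∑ i, (h x i - h y i) * (x i - y i) := by
  have hpos : 0 < ∑ i, (x i - y i) ^ 2 := by
    obtain ⟨k, hk⟩ : ∃ k, x k ≠ y k := by
      by_contra hcon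
      push Not at hcon
      exact hxy (funext hcon)
    refine Finset.sum_pos' (fun i _ => sq_nonneg _) ⟨k, Finset.mem_univ k, ?_⟩
    exact sq_pos_of_ne_zero (sub_ne_zero.2 hk)
  have hcs : (∑ i, ((h x i - x i) - (h y i - y i)) * (x i - y i)) ^ 2 ≤
      (∑ i, ((h x i - x i) - (h y i - y i)) ^ 2) * ∑ i, (x i - y i) ^ 2 :=
    Finset.sum_mul_sq_le_sq_mul_sq _ _ _
  have h2 : (∑ i, ((h x i - x i) - (h y i - y i)) * (x i - y i)) ^ 2 ≤
      (ε * ∑ i, (x i - y i) ^ 2) ^ 2 := by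
    refine hcs.trans ?_
    calc _ ≤ (ε ^ 2 * ∑ i, (x i - y i) ^ 2) * ∑ i, (x i - y i) ^ 2 :=
          mul_le_mul_of_nonneg_right (hl x y) hpos.le
      _ = _ := by ring
  have h3 : |∑ i, ((h x i - x i) - (h y i - y i)) * (x i - y i)| ≤
      ε * ∑ i, (x i - y i) ^ 2 := abs_le_of_sq_le_sq h2 (by positivity)
  have h4 := (abs_le.1 h3).1
  have h5 : ∑ i, (h x i - h y i) * (x i - y i) =
      ∑ i, (x i - y i) ^ 2 + ∑ i, ((h x i - x i) - (h y i - y i)) * (x i - y i) := by
    rw [← Finset.sum_add_distrib]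
    refine Finset.sum_congr rfl fun i _ => ?_
    ring
  rw [h5]
  nlinarith

end PLH
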