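import Pool.Agent.Lib.MP_6a1069_gt.Coord

/-!
Pert: small perturbations of the identity are PL homeomorphisms.
`g` is injective and a homeomorphism onto `E`: Lipschitz perturbation of the identity
(`‖g x - g y‖ ≥ (1-ε)‖x-y‖`; surjective: for `y` the map `x ↦ y - (g x - x)` is a contraction with
constant `ε < 1` : Banach fixed point, `ContractingWith`).  Inverse continuous by the lower bound,
PL by `isPL_symm`.
-/

namespace PLH

theorem perturb {E : Type*} [NormedAddCommGroup E] [NormedSpace ℝ E] [FiniteDimensional ℝ E]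
    (g : E → E) (hg : IsPL g) (R : ℝ) (hR : ∀ x, R < ‖x‖ → g x = x) (ε : ℝ) (h0 : 0 ≤ ε)
    (hε : ε < 1) (hl : ∀ x y, ‖(g x - x) - (g y - y)‖ ≤ ε * ‖x - y‖) :
    ∃ G ∈ PLc E, ∀ x, G x = g x := by
  have : CompleteSpace E := FiniteDimensional.complete ℝ E
  have hlow : ∀ x y, (1 - ε) * ‖x - y‖ ≤ ‖g x - g y‖ := by
    intro x y
    have h1 := hl x y
    have h2 : x - y = (g x - g y) - ((g x - x) - (g y - y)) := by abel
    have h3 : ‖x - y‖ ≤ ‖g x - g y‖ + ‖(g x - x) - (g y - y)‖ := by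
      conv_lhs => rw [h2]
      exact norm_sub_le _ _
    linarith
  have hinj : Function.Injective g := by
    intro x y hxy
    have h1 := hlow x y
    rw [hxy, sub_self, norm_zero] at h1
    have h2 : ‖x - y‖ ≤ 0 := by
      by_contra hcon
      have : 0 < (1 - ε) * ‖x - y‖ := mul_pos (by linarith) (not_le.1 hcon)
      linarith
    exact sub_eq_zero.1 (norm_le_zero_iff.1 h2)
  have hsurj : Function.Surjective g := by
    intro y
    have hc : ContractingWith (⟨ε, h0⟩ : NNReal) (fun x => y - (g x - x)) := by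
      refine ⟨by exact_mod_cast hε, ?_⟩
      refine LipschitzWith.of_dist_le_mul fun x x' => ?_
      rw [dist_eq_norm, dist_eq_norm]
      have e : (y - (g x - x)) - (y - (g x' - x')) = -((g x - x) - (g x' - x')) := by abel
      rw [e, norm_neg]
      exact hl x x'
    obtain ⟨x, h1⟩ : ∃ x, Function.IsFixedPt (fun x => y - (g x - x)) x :=
      ⟨_, hc.fixedPoint_isFixedPt⟩
    have h2 : y - (g x - x) = x := h1
    exact ⟨x, by rw [sub_eq_iff_eq_add] at h2; rw [h2]; abel⟩
  set G : Equiv.Perm E := Equiv.ofBijective g ⟨hinj, hsurj⟩ with hG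
  have hGa : ∀ x, G x = g x := fun x => rfl
  have hGs : ∀ y, g (G⁻¹ y) = y := fun y => G.apply_symm_apply y
  have hGc : Continuous (⇑G⁻¹ : E → E) := by
    have h1 : (0 : ℝ) ≤ (1 - ε)⁻¹ := inv_nonneg.2 (by linarith)
    refine (LipschitzWith.of_dist_le_mul (K := ⟨(1 - ε)⁻¹, h1⟩) fun y y' => ?_).continuous
    rw [dist_eq_norm, dist_eq_norm]
    have h2 := hlow (G⁻¹ y) (G⁻¹ y')
    rw [hGs, hGs] at h2
    have h3 : 0 < 1 - ε := by linarith
    show _ ≤ (1 - ε)⁻¹ * ‖y - y'‖
    rw [inv_mul_eq_div, le_div_iff₀ h3, mul_comm]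
    exact h2
  have hGpl : IsPL (G : E → E) := hg.congr hGa
  exact ⟨G, ⟨hGpl, isPL_symm G hGpl hGc, R, fun x hx => hR x hx⟩, hGa⟩

end PLH
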