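import Pool.Agent.Lib.MP_6a1069_gt.HatInit
import Pool.Agent.Lib.MP_6a1069_gt.Lip
import Pool.Agent.Lib.MP_6a1069_gt.Pert
import Pool.Agent.Lib.MP_6a1069_gt.Mono
import Pool.Agent.Lib.MP_6a1069_gt.Comp

/-!
HatExt: moving the vertices in the cube.  `ψ_v x = if x ∈ Dk then φ_v x else 0` is PL for
`p v ∈ Qk` (`face`: zero on the frontier).  `H x = x + ∑_{v : p_v ∈ Qk} ψ_v (g x) • (w_v - z_v)`
where `g ∈ PLc` (`g = 1`: move sources; `g = h⁻¹`: move targets).  All `ψ_v ∘ g` are Lipschitz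
(`IsPL.lipschitz`), so for `w_v` close to `z_v` it is Lipschitz close to the identity in the sup norm
and in the euclidean norm: `perturb`, `mono_of_lip`, `mono_prod`, `LPc_le_comm`.
-/

namespace PLH

theorem ext_PL {n k N : ℕ} {p : ℕ → Fin n → ℝ} {φ : ℕ → (Fin n → ℝ) → ℝ}
    (h : IsHT (Dk n k) N p φ) {v : ℕ} (hv : v < N) (hp : p v ∈ Qk n k) :
    ∃ ψ : (Fin n → ℝ) → ℝ, IsPL ψ ∧ (∀ x ∈ Dk n k, ψ x = φ v x) ∧ ∀ x, x ∉ Dk n k → ψ x = 0 := by
  classical
  refine ⟨fun x => if x ∈ Dk n k then φ v x else 0, ⟨?_, ?_⟩, ?_, ?_⟩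
  · refine Continuous.if ?_ (h.pl v hv).1 continuous_const
    intro a ha
    by_contra hne
    have ha' : a ∈ frontier (Dk n k) := ha
    rw [frontier, (Dk_closed n k).closure_eq] at ha'
    exact face h ha'.1 ha'.2 hv hne hp
  · obtain ⟨S, hS, hS'⟩ := (h.pl v hv).2
    refine ⟨insert (AffineMap.const ℝ (Fin n → ℝ) (0 : ℝ)) S, hS.insert _, fun x => ?_⟩
    by_cases hx : x ∈ Dk n k
    · obtain ⟨a, ha, hax⟩ := hS' x
      refine ⟨a, Set.mem_insert_of_mem _ ha, ?_⟩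
      simp only [if_pos hx]
      exact hax
    · refine ⟨_, Set.mem_insert _ _, ?_⟩
      simp only [if_neg hx]
      rfl
  · intro x hx
    simp only [if_pos hx]
  · intro x hx
    simp only [if_neg hx]

theorem IsPL.sum_smul {E F : Type*} [NormedAddCommGroup E] [NormedSpace ℝ E]
    [NormedAddCommGroup F] [NormedSpace ℝ F] (N : ℕ) (ψ : ℕ → E → ℝ) (hψ : ∀ v < N, IsPL (ψ v))
    (u : ℕ → F) : IsPL (fun x => ∑ v ∈ Finset.range N, ψ v x • u v) := by
  induction N with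
  | zero =>
    simp only [Finset.range_zero, Finset.sum_empty]
    exact IsPL.const 0
  | succ N ih =>
    simp only [Finset.sum_range_succ]
    refine (ih fun v hv => hψ v (by omega)).add ?_
    exact (IsPL.clm ((ContinuousLinearMap.id ℝ ℝ).smulRight (u N))).comp (hψ N (by omega))

/-- small displacements: `ψ` PL with bounded support, directions of size `< δ` -/
theorem small_move {n N : ℕ} (ψ : ℕ → (Fin n → ℝ) → ℝ) (hψ : ∀ v < N, IsPL (ψ v)) (R : ℝ)
    (hR : ∀ v < N, ∀ x, R < ‖x‖ → ψ v x = 0) :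
    ∃ δ > 0, ∀ u : ℕ → (Fin n → ℝ), (∀ v < N, ‖u v‖ < δ) →
      ∃ H ∈ ⁅PLc (Fin n → ℝ), PLc (Fin n → ℝ)⁆, ∀ x,
        H x = x + ∑ v ∈ Finset.range N, ψ v x • u v := by
  have hlip : ∀ v, ∃ C : ℝ, 0 ≤ C ∧ (v < N → ∀ x y, ‖ψ v x - ψ v y‖ ≤ C * ‖x - y‖) := by
    intro v
    by_cases hv : v < N
    · obtain ⟨C, h1, h2⟩ := (hψ v hv).lipschitz
      exact ⟨C, h1, fun _ => h2⟩
    · exact ⟨0, le_refl _, fun h => absurd h hv⟩
  choose C hC0 hC using hlip
  set K : ℝ := ∑ v ∈ Finset.range N, C v with hK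
  have hK0 : 0 ≤ K := Finset.sum_nonneg fun v _ => hC0 v
  set δ : ℝ := 1 / (2 * (K + 1) * (n + 1)) with hδ
  have hδ0 : 0 < δ := by positivity
  refine ⟨δ, hδ0, fun u hu => ?_⟩
  set g : (Fin n → ℝ) → (Fin n → ℝ) := fun x => x + ∑ v ∈ Finset.range N, ψ v x • u v with hg
  have hgPL : IsPL g := IsPL.id.add (IsPL.sum_smul N ψ hψ u)
  have hgR : ∀ x, R < ‖x‖ → g x = x := by
    intro x hx
    rw [hg]
    simp only
    rw [Finset.sum_eq_zero, add_zero]
    intro v hv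
    rw [hR v (Finset.mem_range.mp hv) x hx, zero_smul]
  have hlip1 : ∀ x y, ‖(g x - x) - (g y - y)‖ ≤ (K * δ) * ‖x - y‖ := by
    intro x y
    have e1 : (g x - x) - (g y - y) = ∑ v ∈ Finset.range N, (ψ v x - ψ v y) • u v := by
      simp only [hg, add_sub_cancel_left, sub_smul, Finset.sum_sub_distrib]
    rw [e1]
    calc ‖∑ v ∈ Finset.range N, (ψ v x - ψ v y) • u v‖
        ≤ ∑ v ∈ Finset.range N, ‖(ψ v x - ψ v y) • u v‖ := norm_sum_le _ _
      _ ≤ ∑ v ∈ Finset.range N, C v * (δ * ‖x - y‖) := by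
          refine Finset.sum_le_sum fun v hv => ?_
          have hv' := Finset.mem_range.mp hv
          rw [norm_smul]
          calc ‖ψ v x - ψ v y‖ * ‖u v‖ ≤ (C v * ‖x - y‖) * δ :=
                mul_le_mul (hC v hv' x y) (hu v hv').le (norm_nonneg _)
                  (mul_nonneg (hC0 v) (norm_nonneg _))
            _ = C v * (δ * ‖x - y‖) := by ring
      _ = (K * δ) * ‖x - y‖ := by rw [← Finset.sum_mul, hK]; ring
  have hKδ : K * δ ≤ 1 / (2 * (n + 1)) := by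
    rw [hδ, mul_one_div, div_le_div_iff₀ (by positivity) (by positivity)]
    have : (0 : ℝ) ≤ n := by positivity
    nlinarith
  have hKδ0 : 0 ≤ K * δ := mul_nonneg hK0 hδ0.le
  have hn0 : (0 : ℝ) ≤ n := by positivity
  have hhalf : 1 / (2 * ((n : ℝ) + 1)) ≤ 1 / 2 := by
    apply one_div_le_one_div_of_le (by norm_num)
    linarith
  obtain ⟨G, hG, hGg⟩ := perturb g hgPL R hgR (K * δ) hKδ0 (by linarith) hlip1
  have hsq : ∀ x y, ∑ i, ((g x i - x i) - (g y i - y i)) ^ 2 ≤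
      (1 / 2 : ℝ) ^ 2 * ∑ i, (x i - y i) ^ 2 := by
    intro x y
    have e0 : ‖x - y‖ ^ 2 ≤ ∑ i, (x i - y i) ^ 2 := by
      by_cases hn : n = 0
      · subst hn
        have : x - y = 0 := Subsingleton.elim _ _
        rw [this]
        simp
      · have : Nonempty (Fin n) := ⟨⟨0, Nat.pos_of_ne_zero hn⟩⟩
        obtain ⟨i, -, hi⟩ := Finset.exists_max_image Finset.univ (fun i => |x i - y i|)
          Finset.univ_nonempty
        have e1 : ‖x - y‖ ≤ |x i - y i| := by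
          rw [pi_norm_le_iff_of_nonneg (abs_nonneg _)]
          intro j
          exact hi j (Finset.mem_univ j)
        calc ‖x - y‖ ^ 2 ≤ |x i - y i| ^ 2 := pow_le_pow_left₀ (norm_nonneg _) e1 2
          _ = (x i - y i) ^ 2 := sq_abs _
          _ ≤ ∑ j, (x j - y j) ^ 2 :=
            Finset.single_le_sum (f := fun j => (x j - y j) ^ 2) (fun j _ => sq_nonneg _)
              (Finset.mem_univ i)
    have e2 : ∀ i, ((g x i - x i) - (g y i - y i)) ^ 2 ≤ (1 / (2 * (n + 1)) * ‖x - y‖) ^ 2 := by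
      intro i
      have e3 : |(g x i - x i) - (g y i - y i)| ≤ ‖(g x - x) - (g y - y)‖ :=
        norm_le_pi_norm ((g x - x) - (g y - y)) i
      have e4 : |(g x i - x i) - (g y i - y i)| ≤ 1 / (2 * (n + 1)) * ‖x - y‖ :=
        e3.trans ((hlip1 x y).trans (mul_le_mul_of_nonneg_right hKδ (norm_nonneg _)))
      rw [← sq_abs]
      exact pow_le_pow_left₀ (abs_nonneg _) e4 2
    calc ∑ i, ((g x i - x i) - (g y i - y i)) ^ 2
        ≤ ∑ _i : Fin n, (1 / (2 * ((n : ℝ) + 1)) * ‖x - y‖) ^ 2 :=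
          Finset.sum_le_sum fun i _ => e2 i
      _ = n * (1 / (2 * ((n : ℝ) + 1)) * ‖x - y‖) ^ 2 := by
          rw [Finset.sum_const, Finset.card_univ, Fintype.card_fin, nsmul_eq_mul]
      _ = (n / (n + 1) ^ 2) * ((1 / 2) ^ 2 * ‖x - y‖ ^ 2) := by
          field_simp
      _ ≤ 1 * ((1 / 2) ^ 2 * ‖x - y‖ ^ 2) := by
          refine mul_le_mul_of_nonneg_right ?_ (by positivity)
          rw [div_le_one (by positivity)]
          nlinarith
      _ = (1 / 2) ^ 2 * ‖x - y‖ ^ 2 := one_mul _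
      _ ≤ (1 / 2) ^ 2 * ∑ i, (x i - y i) ^ 2 :=
          mul_le_mul_of_nonneg_left e0 (by positivity)
  have hmono : ∀ x y, x ≠ y → 0 < ∑ i, (G x i - G y i) * (x i - y i) := by
    intro x y hxy
    have e1 := mono_of_lip (h := g) (ε := 1 / 2) (by norm_num) (by norm_num) hsq hxy
    rw [hGg, hGg]
    exact e1
  obtain ⟨L, -, hL, hLG⟩ := mono_prod hG hmono
  refine ⟨G, ?_, fun x => by rw [hGg]⟩
  rw [hLG]
  refine Subgroup.list_prod_mem _ fun f hf => ?_
  obtain ⟨i, hi⟩ := hL f hf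
  refine LPc_le_comm ?_ hi
  intro h0
  have := congrFun h0 i
  simp at this

end PLH
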