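import Pool.Agent.Lib.MP_6a1069_gt.HatAd
import Pool.Agent.Lib.MP_6a1069_gt.HatExt

/-!
Cnt: every `h ∈ PLc` is, modulo the commutator subgroup, one of countably many.
`h`, `k`, `N`, `p`, `φ` from `adapted`.  Choose rational `w_v` close to `p_v` for `p_v ∈ Qk` and
`w_v = p_v` otherwise; rational `w'_v` close to `h (p_v)` for `p_v ∈ Qk` and `w'_v = p_v` otherwise.
`H x = x + ∑ ψ_v x (w_v - p_v)`, `H' y = y + ∑ ψ_v (h⁻¹ y) (w'_v - h (p_v))` (`small_move`),
`h' = H' * h * H⁻¹`.  For `x ∈ Dk`: `H x = ∑ φ_v x w_v`, `h' (H x) = ∑ φ_v x w'_v`; `H` maps `Dk` onto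
`Dk` (identity outside, bijective), `h' = id` outside of `Dk`.
`realize k N K w w'` : the graph of a code.  `IsCode c g` : `g = id` outside `Dk n k` and for every
`t : ℕ → ℝ`, `t ≥ 0`, `∑_{v<N} t_v = 1`, with support in the finite family `K` of finite subsets of
`range N`: `g (∑ t_v w_v) = ∑ t_v w'_v`, and every point of `Dk` is such a `∑ t_v w_v`.
Two permutations with the same code are equal.  Codes form a countable type.
-/

namespace PLH

/-- codes: `k`, `N`, the supports, rational vertices and their images -/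
abbrev Code (n : ℕ) := ℕ × ℕ × Finset (Finset ℕ) × List (Fin n → ℚ) × List (Fin n → ℚ)

/-- the rational point number `v` of a list, as a real vector -/
def pt {n : ℕ} (l : List (Fin n → ℚ)) (v : ℕ) : Fin n → ℝ := fun i => ((l.getD v 0) i : ℝ)

/-- `g` is described by the code `c` -/
def IsCode {n : ℕ} (c : Code n) (g : Equiv.Perm (Fin n → ℝ)) : Prop :=
  (∀ x, x ∉ Dk n c.1 → g x = x) ∧
  (∀ t : ℕ → ℝ, (∀ v, 0 ≤ t v) → ∑ v ∈ Finset.range c.2.1, t v = 1 →
    (∃ s ∈ c.2.2.1, ∀ v < c.2.1, t v ≠ 0 ↔ v ∈ s) →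
    g (∑ v ∈ Finset.range c.2.1, t v • pt c.2.2.2.1 v)
      = ∑ v ∈ Finset.range c.2.1, t v • pt c.2.2.2.2 v) ∧
  (∀ x ∈ Dk n c.1, ∃ t : ℕ → ℝ, (∀ v, 0 ≤ t v) ∧ ∑ v ∈ Finset.range c.2.1, t v = 1 ∧
    (∃ s ∈ c.2.2.1, ∀ v < c.2.1, t v ≠ 0 ↔ v ∈ s) ∧
    ∑ v ∈ Finset.range c.2.1, t v • pt c.2.2.2.1 v = x)

theorem IsCode.unique {n : ℕ} {c : Code n} {g g' : Equiv.Perm (Fin n → ℝ)} (h : IsCode c g)
    (h' : IsCode c g') : g = g' := by
  ext1 x
  by_cases hx : x ∈ Dk n c.1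
  · obtain ⟨t, h0, h1, hs, hsum⟩ := h.2.2 x hx
    have e1 := h.2.1 t h0 h1 hs
    have e2 := h'.2.1 t h0 h1 hs
    rw [hsum] at e1 e2
    rw [e1, e2]
  · rw [h.1 x hx, h'.1 x hx]

theorem cnt_comm_le {G : Type*} [Group G] (K : Subgroup G) : ⁅K, K⁆ ≤ K := by
  rw [Subgroup.commutator_le]
  intro a ha b hb
  exact mul_mem (mul_mem (mul_mem ha hb) (inv_mem ha)) (inv_mem hb)

theorem cnt_conj_mem {G : Type*} [Group G] {K : Subgroup G} {h c : G} (hh : h ∈ K)
    (hc : c ∈ ⁅K, K⁆) : h⁻¹ * c * h ∈ ⁅K, K⁆ := by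
  have h1 : h⁻¹ * c * (h⁻¹)⁻¹ * c⁻¹ ∈ ⁅K, K⁆ :=
    Subgroup.commutator_mem_commutator (inv_mem hh) (cnt_comm_le K hc)
  have h2 : h⁻¹ * c * h = h⁻¹ * c * (h⁻¹)⁻¹ * c⁻¹ * c := by group
  rw [h2]
  exact mul_mem h1 hc

theorem cnt_rat_near {n : ℕ} (z : Fin n → ℝ) {δ : ℝ} (hδ : 0 < δ) :
    ∃ q : Fin n → ℚ, ‖(fun i => (q i : ℝ)) - z‖ < δ := by
  choose q hq using fun i => exists_rat_near (z i) hδ
  refine ⟨q, (pi_norm_lt_iff hδ).2 fun i => ?_⟩
  rw [Pi.sub_apply, Real.norm_eq_abs, abs_sub_comm]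
  exact hq i

theorem cnt_pt {n N : ℕ} (q : ℕ → Fin n → ℚ) {v : ℕ} (hv : v < N) :
    pt ((List.range N).map q) v = fun i => (q v i : ℝ) := by
  unfold pt
  funext i
  rw [List.getD_eq_getElem _ _ (by simpa using hv)]
  simp

theorem exists_code {n : ℕ} {h : Equiv.Perm (Fin n → ℝ)} (hh : h ∈ PLc (Fin n → ℝ)) :
    ∃ (c : Code n) (g : Equiv.Perm (Fin n → ℝ)), IsCode c g ∧ g ∈ PLc (Fin n → ℝ) ∧
      h⁻¹ * g ∈ ⁅PLc (Fin n → ℝ), PLc (Fin n → ℝ)⁆ := by
  classical
  obtain ⟨k, N, p, φ, hT, hval, hQ, hout⟩ := adapted hh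
  obtain ⟨R, hR⟩ := (Dk_bounded n k).exists_norm_le
  -- the hat functions of the vertices in the cube
  have hψ : ∀ v, ∃ ψ : (Fin n → ℝ) → ℝ, IsPL ψ ∧ (∀ x, x ∉ Dk n k → ψ x = 0) ∧
      (v < N → p v ∈ Qk n k → ∀ x ∈ Dk n k, ψ x = φ v x) := by
    intro v
    by_cases hv : v < N ∧ p v ∈ Qk n k
    · obtain ⟨ψ, h1, h2, h3⟩ := ext_PL hT hv.1 hv.2
      exact ⟨ψ, h1, h3, fun _ _ => h2⟩
    · exact ⟨fun _ => 0, IsPL.const 0, fun _ _ => rfl, fun h1 h2 => absurd ⟨h1, h2⟩ hv⟩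
  choose ψ hψ1 hψ2 hψ3 using hψ
  have hnotD : ∀ x : Fin n → ℝ, R < ‖x‖ → x ∉ Dk n k := fun x hx hxD =>
    absurd (hR x hxD) (not_le.2 hx)
  have hinv : ∀ y, y ∉ Dk n k → h⁻¹ y = y := by
    intro y hy
    rw [Equiv.Perm.inv_eq_iff_eq]
    exact (hout y hy).symm
  obtain ⟨δ, hδ, hmove⟩ := small_move (N := N) ψ (fun v _ => hψ1 v) R
    (fun v _ x hx => hψ2 v x (hnotD x hx))
  obtain ⟨δ', hδ', hmove'⟩ := small_move (N := N) (fun v y => ψ v (h⁻¹ y))
    (fun v _ => (hψ1 v).comp hh.2.1) R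
    (fun v _ x hx => by
      have h1 := hnotD x hx
      show ψ v (h⁻¹ x) = 0
      rw [hinv x h1]
      exact hψ2 v x h1)
  -- rational vertices
  have hw : ∀ v, ∃ q : Fin n → ℚ, (v < N → p v ∉ Qk n k → (fun i => (q i : ℝ)) = p v) ∧
      (v < N → p v ∈ Qk n k → ‖(fun i => (q i : ℝ)) - p v‖ < δ) := by
    intro v
    by_cases hv : v < N ∧ p v ∉ Qk n k
    · choose q hq using (hQ v hv.1 hv.2).1
      exact ⟨q, fun _ _ => funext fun i => (hq i).symm, fun _ h2 => absurd h2 hv.2⟩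
    · obtain ⟨q, hq⟩ := cnt_rat_near (p v) hδ
      exact ⟨q, fun h1 h2 => absurd ⟨h1, h2⟩ hv, fun _ _ => hq⟩
  choose q hq1 hq2 using hw
  have hw' : ∀ v, ∃ q : Fin n → ℚ, (v < N → p v ∉ Qk n k → (fun i => (q i : ℝ)) = h (p v)) ∧
      (v < N → p v ∈ Qk n k → ‖(fun i => (q i : ℝ)) - h (p v)‖ < δ') := by
    intro v
    by_cases hv : v < N ∧ p v ∉ Qk n k
    · choose q hq using (hQ v hv.1 hv.2).1
      refine ⟨q, fun _ _ => ?_, fun _ h2 => absurd h2 hv.2⟩
      rw [(hQ v hv.1 hv.2).2]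
      exact funext fun i => (hq i).symm
    · obtain ⟨q, hq⟩ := cnt_rat_near (h (p v)) hδ'
      exact ⟨q, fun h1 h2 => absurd ⟨h1, h2⟩ hv, fun _ _ => hq⟩
  choose q' hq1' hq2' using hw'
  obtain ⟨H, hH, hHx⟩ := hmove
    (fun v => if p v ∈ Qk n k then (fun i => (q v i : ℝ)) - p v else 0) (by
      intro v hv
      split_ifs with h1
      · exact hq2 v hv h1
      · simpa using hδ)
  obtain ⟨H', hH', hHx'⟩ := hmove'
    (fun v => if p v ∈ Qk n k then (fun i => (q' v i : ℝ)) - h (p v) else 0) (by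
      intro v hv
      split_ifs with h1
      · exact hq2' v hv h1
      · simpa using hδ')
  have hHout : ∀ x, x ∉ Dk n k → H x = x := by
    intro x hx
    rw [hHx x, Finset.sum_eq_zero, add_zero]
    intro v _
    rw [hψ2 v x hx, zero_smul]
  have hHout' : ∀ x, x ∉ Dk n k → H' x = x := by
    intro x hx
    rw [hHx' x, Finset.sum_eq_zero, add_zero]
    intro v _
    rw [hinv x hx, hψ2 v x hx, zero_smul]
  -- the values of the two maps
  have hHD : ∀ x ∈ Dk n k, H x = ∑ v ∈ Finset.range N, φ v x • fun i => (q v i : ℝ) := by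
    intro x hx
    rw [hHx x]
    nth_rewrite 1 [← hT.bary x hx]
    rw [← Finset.sum_add_distrib]
    apply Finset.sum_congr rfl
    intro v hv
    have hv' := Finset.mem_range.1 hv
    split_ifs with h1
    · rw [hψ3 v hv' h1 x hx, smul_sub]
      abel
    · rw [smul_zero, add_zero, hq1 v hv' h1]
  have hHD' : ∀ x ∈ Dk n k, H' (h x) = ∑ v ∈ Finset.range N, φ v x • fun i => (q' v i : ℝ) := by
    intro x hx
    rw [hHx' (h x)]
    nth_rewrite 1 [hval x hx]
    rw [← Finset.sum_add_distrib]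
    apply Finset.sum_congr rfl
    intro v hv
    have hv' := Finset.mem_range.1 hv
    have hxx : h⁻¹ (h x) = x := h.symm_apply_apply x
    rw [hxx]
    split_ifs with h1
    · rw [hψ3 v hv' h1 x hx, smul_sub]
      abel
    · rw [smul_zero, add_zero, hq1' v hv' h1]
  set S : (Fin n → ℝ) → Finset ℕ := fun x => (Finset.range N).filter fun v => φ v x ≠ 0 with hS
  set K : Finset (Finset ℕ) := (Finset.range N).powerset.filter
    (fun s => ∃ x ∈ Dk n k, S x = s) with hK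
  refine ⟨(k, N, K, (List.range N).map q, (List.range N).map q'), H' * h * H⁻¹, ?_, ?_, ?_⟩
  · have hHinv : ∀ x, x ∉ Dk n k → H⁻¹ x = x := by
      intro x hx
      rw [Equiv.Perm.inv_eq_iff_eq]
      exact (hHout x hx).symm
    refine ⟨fun x hx => ?_, fun t h0 h1 hs => ?_, fun x hx => ?_⟩
    · have hx' : x ∉ Dk n k := hx
      show H' (h (H⁻¹ x)) = x
      rw [hHinv x hx', hout x hx', hHout' x hx']
    · simp only at h1 hs ⊢
      obtain ⟨s, hsK, hsv⟩ := hs
      rw [hK, Finset.mem_filter] at hsK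
      obtain ⟨-, x, hx, hSx⟩ := hsK
      obtain ⟨y, hy, hyt⟩ := hT.full x hx t (fun v _ => h0 v) h1 (by
        intro v hv
        rw [hsv v hv, ← hSx, hS]
        simp only [Finset.mem_filter, Finset.mem_range]
        exact ⟨fun h => h.2, fun h => ⟨hv, h⟩⟩)
      have e1 : ∑ v ∈ Finset.range N, t v • pt ((List.range N).map q) v = H y := by
        rw [hHD y hy]
        apply Finset.sum_congr rfl
        intro v hv
        rw [cnt_pt q (Finset.mem_range.1 hv), hyt v (Finset.mem_range.1 hv)]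
      have e2 : ∑ v ∈ Finset.range N, t v • pt ((List.range N).map q') v = H' (h y) := by
        rw [hHD' y hy]
        apply Finset.sum_congr rfl
        intro v hv
        rw [cnt_pt q' (Finset.mem_range.1 hv), hyt v (Finset.mem_range.1 hv)]
      rw [e1, e2]
      show H' (h (H⁻¹ (H y))) = H' (h y)
      have e3 : H⁻¹ (H y) = y := H.symm_apply_apply y
      rw [e3]
    · have hx' : x ∈ Dk n k := hx
      have hy : H⁻¹ x ∈ Dk n k := by
        by_contra hc
        have h1 := hHout _ hc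
        have h0 : H (H⁻¹ x) = x := H.apply_symm_apply x
        rw [h0] at h1
        rw [← h1] at hc
        exact hc hx'
      set y := H⁻¹ x with hyd
      refine ⟨fun v => if v < N then φ v y else 0, fun v => ?_, ?_, ?_, ?_⟩
      · show 0 ≤ if v < N then φ v y else 0
        split_ifs with hv
        · exact hT.nonneg v hv y hy
        · exact le_refl _
      · rw [← hT.sum_one y hy]
        apply Finset.sum_congr rfl
        intro v hv
        have hv' : v < N := Finset.mem_range.1 hv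
        show (if v < N then φ v y else 0) = _
        rw [if_pos hv']
      · refine ⟨S y, ?_, fun v hv => ?_⟩
        · show S y ∈ K
          rw [hK, Finset.mem_filter]
          exact ⟨Finset.mem_powerset.2 (Finset.filter_subset _ _), y, hy, rfl⟩
        · have hv' : v < N := hv
          show (if v < N then φ v y else 0) ≠ 0 ↔ v ∈ S y
          rw [if_pos hv', hS]
          simp only [Finset.mem_filter, Finset.mem_range]
          exact ⟨fun h => ⟨hv', h⟩, fun h => h.2⟩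
      · have h2 : H y = x := H.apply_symm_apply x
        rw [← h2, hHD y hy]
        apply Finset.sum_congr rfl
        intro v hv
        have hv' := Finset.mem_range.1 hv
        show (if v < N then φ v y else 0) • pt ((List.range N).map q) v = _
        rw [if_pos hv', cnt_pt q hv']
  · exact mul_mem (mul_mem (cnt_comm_le _ hH') hh) (inv_mem (cnt_comm_le _ hH))
  · have e : h⁻¹ * (H' * h * H⁻¹) = (h⁻¹ * H' * h) * H⁻¹ := by group
    rw [e]
    exact mul_mem (cnt_conj_mem hh hH') (inv_mem hH)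

end PLH
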