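import Mathlib

/-!
# MP_6a1069_gt : PL homeomorphisms of euclidean space, definitions

`IsPL`    : continuous maps which are finite selections of affine maps,
`P`       : increasing homeomorphisms of the line, a lattice ordered group,
`B -> P`  : families, `HH B` the PL ones, `VV B` the compactly supported PL ones,
`del U W` : the element `U⁻¹ * (U ⊔ W)`,
`PLc E`   : compactly supported PL homeomorphisms of `E`,
`LPc v`   : those which preserve every line parallel to `v`.
-/

namespace PLH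

open Set

section ispl

variable {E F G : Type*} [NormedAddCommGroup E] [NormedSpace ℝ E]
  [NormedAddCommGroup F] [NormedSpace ℝ F] [NormedAddCommGroup G] [NormedSpace ℝ G]

/-- Piecewise linear maps: continuous, and at every point equal to one of finitely many affine
maps. -/
def IsPL (f : E → F) : Prop :=
  Continuous f ∧ ∃ S : Set (E →ᵃ[ℝ] F), S.Finite ∧ ∀ x, ∃ a ∈ S, f x = a x

theorem IsPL.continuous {f : E → F} (hf : IsPL f) : Continuous f := hf.1

theorem IsPL.const (c : F) : IsPL (fun _ : E => c) :=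
  ⟨continuous_const, {AffineMap.const ℝ E c}, finite_singleton _, fun _ => ⟨_, rfl, rfl⟩⟩

theorem IsPL.id : IsPL (fun x : E => x) :=
  ⟨continuous_id, {AffineMap.id ℝ E}, finite_singleton _, fun _ => ⟨_, rfl, rfl⟩⟩

theorem IsPL.affine [FiniteDimensional ℝ E] (a : E →ᵃ[ℝ] F) : IsPL (fun x => a x) :=
  ⟨a.continuous_of_finiteDimensional, {a}, finite_singleton _, fun _ => ⟨_, rfl, rfl⟩⟩

theorem IsPL.clm (a : E →L[ℝ] F) : IsPL (fun x => a x) :=
  ⟨a.continuous, {a.toLinearMap.toAffineMap}, finite_singleton _, fun _ => ⟨_, rfl, rfl⟩⟩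

theorem IsPL.comp {g : F → G} {f : E → F} (hg : IsPL g) (hf : IsPL f) :
    IsPL (fun x => g (f x)) := by
  obtain ⟨hgc, S, hS, hS'⟩ := hg
  obtain ⟨hfc, T, hT, hT'⟩ := hf
  refine ⟨hgc.comp hfc, Set.image2 (fun a b => a.comp b) S T, hS.image2 _ hT, fun x => ?_⟩
  obtain ⟨b, hb, hbx⟩ := hT' x
  obtain ⟨a, ha, hax⟩ := hS' (f x)
  exact ⟨a.comp b, ⟨a, ha, b, hb, rfl⟩, by show g (f x) = a (b x); rw [hax, hbx]⟩

theorem IsPL.prodMk {f : E → F} {g : E → G} (hf : IsPL f) (hg : IsPL g) :
    IsPL (fun x => (f x, g x)) := by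
  obtain ⟨hfc, S, hS, hS'⟩ := hf
  obtain ⟨hgc, T, hT, hT'⟩ := hg
  refine ⟨hfc.prodMk hgc, Set.image2 (fun a b => a.prod b) S T, hS.image2 _ hT, fun x => ?_⟩
  obtain ⟨b, hb, hbx⟩ := hT' x
  obtain ⟨a, ha, hax⟩ := hS' x
  exact ⟨a.prod b, ⟨a, ha, b, hb, rfl⟩, by simp [hax, hbx]⟩

theorem IsPL.fst : IsPL (fun x : E × F => x.1) := IsPL.clm (ContinuousLinearMap.fst ℝ E F)

theorem IsPL.snd : IsPL (fun x : E × F => x.2) := IsPL.clm (ContinuousLinearMap.snd ℝ E F)

theorem IsPL.add {f g : E → F} (hf : IsPL f) (hg : IsPL g) : IsPL (fun x => f x + g x) :=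
  (IsPL.clm (ContinuousLinearMap.fst ℝ F F + ContinuousLinearMap.snd ℝ F F)).comp
    (hf.prodMk hg)

theorem IsPL.smul (c : ℝ) {f : E → F} (hf : IsPL f) : IsPL (fun x => c • f x) :=
  (IsPL.clm (c • ContinuousLinearMap.id ℝ F)).comp hf

theorem IsPL.neg {f : E → F} (hf : IsPL f) : IsPL (fun x => - f x) :=
  (IsPL.clm (-ContinuousLinearMap.id ℝ F)).comp hf

theorem IsPL.sub {f g : E → F} (hf : IsPL f) (hg : IsPL g) : IsPL (fun x => f x - g x) :=
  (IsPL.clm (ContinuousLinearMap.fst ℝ F F - ContinuousLinearMap.snd ℝ F F)).comp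
    (hf.prodMk hg)

theorem IsPL.const_mul (c : ℝ) {f : E → ℝ} (hf : IsPL f) : IsPL (fun x => c * f x) :=
  hf.smul c

theorem IsPL.mul_const (c : ℝ) {f : E → ℝ} (hf : IsPL f) : IsPL (fun x => f x * c) := by
  simpa [mul_comm] using hf.const_mul c

theorem IsPL.div_const (c : ℝ) {f : E → ℝ} (hf : IsPL f) : IsPL (fun x => f x / c) := by
  simpa [div_eq_mul_inv] using hf.mul_const c⁻¹

theorem IsPL.max {f g : E → ℝ} (hf : IsPL f) (hg : IsPL g) :
    IsPL (fun x => Max.max (f x) (g x)) := by
  obtain ⟨hfc, S, hS, hS'⟩ := hf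
  obtain ⟨hgc, T, hT, hT'⟩ := hg
  refine ⟨hfc.max hgc, S ∪ T, hS.union hT, fun x => ?_⟩
  show ∃ a ∈ S ∪ T, Max.max (f x) (g x) = a x
  rcases max_choice (f x) (g x) with h | h <;> rw [h]
  · obtain ⟨a, ha, hax⟩ := hS' x
    exact ⟨a, Or.inl ha, hax⟩
  · obtain ⟨a, ha, hax⟩ := hT' x
    exact ⟨a, Or.inr ha, hax⟩

theorem IsPL.min {f g : E → ℝ} (hf : IsPL f) (hg : IsPL g) :
    IsPL (fun x => Min.min (f x) (g x)) := by
  obtain ⟨hfc, S, hS, hS'⟩ := hf
  obtain ⟨hgc, T, hT, hT'⟩ := hg
  refine ⟨hfc.min hgc, S ∪ T, hS.union hT, fun x => ?_⟩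
  show ∃ a ∈ S ∪ T, Min.min (f x) (g x) = a x
  rcases min_choice (f x) (g x) with h | h <;> rw [h]
  · obtain ⟨a, ha, hax⟩ := hS' x
    exact ⟨a, Or.inl ha, hax⟩
  · obtain ⟨a, ha, hax⟩ := hT' x
    exact ⟨a, Or.inr ha, hax⟩

theorem IsPL.congr {f g : E → F} (hf : IsPL f) (h : ∀ x, g x = f x) : IsPL g := by
  have : g = f := funext h
  rw [this]; exact hf

end ispl

section P

/-- Increasing homeomorphisms of the line. Group: composition, `(f * g) t = f (g t)`. -/
abbrev P := ℝ ≃o ℝ

/-- pointwise maximum -/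
noncomputable def P.sup (f g : P) : P where
  toFun t := Max.max (f t) (g t)
  invFun s := Min.min (f.symm s) (g.symm s)
  left_inv t := by
    dsimp only
    rcases le_total (f t) (g t) with h | h
    · rw [max_eq_right h]
      simp only [OrderIso.symm_apply_apply]
      exact min_eq_right ((f.le_symm_apply).2 h)
    · rw [max_eq_left h]
      simp only [OrderIso.symm_apply_apply]
      exact min_eq_left ((g.le_symm_apply).2 h)
  right_inv s := by
    dsimp only
    rcases le_total (f.symm s) (g.symm s) with h | h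
    · rw [min_eq_left h]
      simp only [OrderIso.apply_symm_apply]
      exact max_eq_left ((g.le_symm_apply).1 h)
    · rw [min_eq_right h]
      simp only [OrderIso.apply_symm_apply]
      exact max_eq_right ((f.le_symm_apply).1 h)
  map_rel_iff' := by
    intro a b
    have : StrictMono (fun t => Max.max (f t) (g t)) :=
      fun x y hxy => max_lt_max (f.strictMono hxy) (g.strictMono hxy)
    exact this.le_iff_le

/-- pointwise minimum -/
noncomputable def P.inf (f g : P) : P where
  toFun t := Min.min (f t) (g t)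
  invFun s := Max.max (f.symm s) (g.symm s)
  left_inv t := by
    dsimp only
    rcases le_total (f t) (g t) with h | h
    · rw [min_eq_left h]
      simp only [OrderIso.symm_apply_apply]
      exact max_eq_left ((g.symm_apply_le).2 h)
    · rw [min_eq_right h]
      simp only [OrderIso.symm_apply_apply]
      exact max_eq_right ((f.symm_apply_le).2 h)
  right_inv s := by
    dsimp only
    rcases le_total (f.symm s) (g.symm s) with h | h
    · rw [max_eq_right h]
      simp only [OrderIso.apply_symm_apply]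
      exact min_eq_right ((f.symm_apply_le).1 h)
    · rw [max_eq_left h]
      simp only [OrderIso.apply_symm_apply]
      exact min_eq_left ((g.symm_apply_le).1 h)
  map_rel_iff' := by
    intro a b
    have : StrictMono (fun t => Min.min (f t) (g t)) :=
      fun x y hxy => min_lt_min (f.strictMono hxy) (g.strictMono hxy)
    exact this.le_iff_le

noncomputable instance : Max P := ⟨P.sup⟩
noncomputable instance : Min P := ⟨P.inf⟩

@[simp] theorem P.sup_apply (f g : P) (t : ℝ) : (f ⊔ g) t = Max.max (f t) (g t) := rfl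
@[simp] theorem P.inf_apply (f g : P) (t : ℝ) : (f ⊓ g) t = Min.min (f t) (g t) := rfl
@[simp] theorem P.mul_apply (f g : P) (t : ℝ) : (f * g) t = f (g t) := rfl
@[simp] theorem P.one_apply (t : ℝ) : (1 : P) t = t := rfl
@[simp] theorem P.inv_sup_apply (f g : P) (t : ℝ) :
    (f ⊔ g)⁻¹ t = Min.min (f⁻¹ t) (g⁻¹ t) := rfl
@[simp] theorem P.inv_inf_apply (f g : P) (t : ℝ) :
    (f ⊓ g)⁻¹ t = Max.max (f⁻¹ t) (g⁻¹ t) := rfl

/-- the line `t ↦ m t + c` (junk value `1` if `m ≤ 0`) -/
noncomputable def ln (m c : ℝ) : P :=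
  if h : 0 < m then
    { toFun := fun t => m * t + c
      invFun := fun s => (s - c) / m
      left_inv := fun t => by field_simp; ring
      right_inv := fun s => by field_simp; ring
      map_rel_iff' := by
        intro a b
        constructor
        · intro hab
          have : m * a + c ≤ m * b + c := hab
          have : m * a ≤ m * b := by linarith
          exact le_of_mul_le_mul_left this h
        · intro hab
          show m * a + c ≤ m * b + c
          have := mul_le_mul_of_nonneg_left hab h.le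
          linarith }
  else 1

theorem ln_apply {m : ℝ} (hm : 0 < m) (c t : ℝ) : ln m c t = m * t + c := by
  simp [ln, hm]

theorem ln_inv_apply {m : ℝ} (hm : 0 < m) (c s : ℝ) : (ln m c)⁻¹ s = (s - c) / m := by
  have : (ln m c).symm s = (s - c) / m := by
    rw [OrderIso.symm_apply_eq, ln_apply hm]
    field_simp; ring
  exact this

/-- the dilation with factor `m` about `a` -/
noncomputable def dil (m a : ℝ) : P := ln m ((1 - m) * a)

/-- `U⁻¹ * (U ⊔ W)` -/
def del {G : Type*} [Group G] [Max G] (U W : G) : G := U⁻¹ * (U ⊔ W)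

/-- the basic map: identity outside `[a,b]`, slope `m` after `a`, then slope `l` up to `b` -/
noncomputable def em (m l a b : ℝ) : P := 1 ⊔ (dil m a ⊓ dil l b)

end P

section families

variable {B : Type*} [NormedAddCommGroup B] [NormedSpace ℝ B]

/-- the function of two variables of a family -/
def fn (F : B → P) : B × ℝ → ℝ := fun x => F x.1 x.2

variable (B) in
/-- PL families of increasing homeomorphisms of the line -/
def HH : Subgroup (B → P) where
  carrier := {F | IsPL (fn F) ∧ IsPL (fn F⁻¹)}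
  one_mem' := ⟨IsPL.snd.congr fun _ => rfl, IsPL.snd.congr fun _ => rfl⟩
  mul_mem' := by
    rintro F G ⟨hF, hF'⟩ ⟨hG, hG'⟩
    refine ⟨(hF.comp (IsPL.fst.prodMk hG)).congr fun x => rfl, ?_⟩
    rw [mul_inv_rev]
    exact (hG'.comp (IsPL.fst.prodMk hF')).congr fun x => rfl
  inv_mem' := by
    rintro F ⟨hF, hF'⟩
    refine ⟨hF', ?_⟩
    rw [inv_inv]; exact hF

variable (B) in
/-- PL families with compact support in `B × ℝ` -/
def VV : Subgroup (B → P) where
  carrier := {F | F ∈ HH B ∧ ∃ R : ℝ, ∀ b t, R < ‖((b, t) : B × ℝ)‖ → F b t = t}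
  one_mem' := ⟨one_mem _, 0, fun _ _ _ => rfl⟩
  mul_mem' := by
    rintro F G ⟨hF, R, hR⟩ ⟨hG, S, hS⟩
    refine ⟨mul_mem hF hG, Max.max R S, fun b t h => ?_⟩
    show F b (G b t) = t
    rw [hS b t ((le_max_right _ _).trans_lt h), hR b t ((le_max_left _ _).trans_lt h)]
  inv_mem' := by
    rintro F ⟨hF, R, hR⟩
    refine ⟨inv_mem hF, R, fun b t h => ?_⟩
    have h1 := hR b t h
    show (F b)⁻¹ t = t
    conv_lhs => rw [← h1]
    exact RelIso.inv_apply_self _ _

/-- the set where the region `U < s < W` is not empty is bounded -/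
def BddReg (U W : B → P) : Prop := Bornology.IsBounded {x : B × ℝ | U x.1 x.2 < W x.1 x.2}

/-- the regions `{U < s < W}` and `{U' < s < W'}` coincide -/
def SameReg (U W U' W' : B → P) : Prop :=
  ∀ b t s, (U b t < s ∧ s < W b t) ↔ (U' b t < s ∧ s < W' b t)

/-- family of lines -/
noncomputable def Ln (m : ℝ) (c : B → ℝ) : B → P := fun b => ln m (c b)

/-- family of dilations -/
noncomputable def Dil (m : ℝ) (a : B → ℝ) : B → P := fun b => dil m (a b)

/-- family of basic maps -/
noncomputable def Em (m l : ℝ) (a b : B → ℝ) : B → P := fun x => em m l (a x) (b x)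

/-- families of lines of slope larger than `m₀` -/
def IsLn (m₀ : ℝ) (A : B → P) : Prop := ∃ m c, m₀ < m ∧ IsPL (c : B → ℝ) ∧ A = Ln m c

/-- the commutator subgroup of `VV B` -/
def NN (B : Type*) [NormedAddCommGroup B] [NormedSpace ℝ B] : Subgroup (B → P) := ⁅VV B, VV B⁆

end families

section groups

variable (E : Type*) [NormedAddCommGroup E] [NormedSpace ℝ E]

/-- compactly supported PL homeomorphisms of `E` -/
def PLc : Subgroup (Equiv.Perm E) where
  carrier := {h | IsPL (h : E → E) ∧ IsPL (⇑h⁻¹ : E → E) ∧ ∃ R : ℝ, ∀ x, R < ‖x‖ → h x = x}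
  one_mem' := ⟨IsPL.id, IsPL.id, 0, fun _ _ => rfl⟩
  mul_mem' := by
    rintro f g ⟨hf, hf', R, hR⟩ ⟨hg, hg', S, hS⟩
    refine ⟨hf.comp hg, ?_, Max.max R S, fun x h => ?_⟩
    · rw [mul_inv_rev]; exact hg'.comp hf'
    · show f (g x) = x
      rw [hS x ((le_max_right _ _).trans_lt h), hR x ((le_max_left _ _).trans_lt h)]
  inv_mem' := by
    rintro f ⟨hf, hf', R, hR⟩
    refine ⟨hf', by rw [inv_inv]; exact hf, R, fun x h => ?_⟩
    rw [Equiv.Perm.inv_eq_iff_eq]
    exact (hR x h).symm

variable {E}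

/-- compactly supported PL homeomorphisms which map every line parallel to `v` to itself -/
def LPc (v : E) : Subgroup (Equiv.Perm E) where
  carrier := {h | h ∈ PLc E ∧ ∀ x, ∃ t : ℝ, h x = x + t • v}
  one_mem' := ⟨one_mem _, fun x => ⟨0, by simp⟩⟩
  mul_mem' := by
    rintro f g ⟨hf, hf'⟩ ⟨hg, hg'⟩
    refine ⟨mul_mem hf hg, fun x => ?_⟩
    obtain ⟨t, ht⟩ := hg' x
    obtain ⟨s, hs⟩ := hf' (g x)
    refine ⟨t + s, ?_⟩
    show f (g x) = _
    rw [hs, ht, add_smul, add_assoc]
  inv_mem' := by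
    rintro f ⟨hf, hf'⟩
    refine ⟨inv_mem hf, fun x => ?_⟩
    obtain ⟨t, ht⟩ := hf' (f⁻¹ x)
    refine ⟨-t, ?_⟩
    have h1 : f (f⁻¹ x) = x := f.apply_symm_apply x
    rw [h1] at ht
    rw [neg_smul]
    nth_rewrite 2 [ht]
    simp

end groups

end PLH
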