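import Pool.Agent.Lib.MP_6a1069_gt.Defs

/-!
# MP_6a1069_gt : hat functions, simplices, polyhedral definition of PL maps
-/

namespace PLH

open Set

section poly

variable {E F : Type*} [NormedAddCommGroup E] [NormedSpace ℝ E]
  [NormedAddCommGroup F] [NormedSpace ℝ F]

/-- closed convex polyhedra: finite intersections of closed half spaces -/
def IsPolyhedron (Q : Set E) : Prop :=
  ∃ L : Set (E →ᵃ[ℝ] ℝ), L.Finite ∧ Q = {x | ∀ a ∈ L, 0 ≤ a x}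

/-- the usual definition of a PL map: the space is a finite union of closed convex polyhedra, on
each of which the map is affine -/
def IsPiecewiseLinear (f : E → F) : Prop :=
  ∃ C : Set (Set E × (E →ᵃ[ℝ] F)), C.Finite ∧
    (∀ c ∈ C, IsPolyhedron c.1 ∧ ∀ x ∈ c.1, f x = c.2 x) ∧ ∀ x, ∃ c ∈ C, x ∈ c.1

end poly

section hats

variable {E : Type*} [NormedAddCommGroup E] [NormedSpace ℝ E]

/-- `φ v`, `v < N`, are the hat functions of a triangulation of `D` with vertices `p v`. -/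
structure IsHT (D : Set E) (N : ℕ) (p : ℕ → E) (φ : ℕ → E → ℝ) : Prop where
  pl : ∀ v < N, IsPL (φ v)
  mem : ∀ v < N, p v ∈ D
  nonneg : ∀ v < N, ∀ x ∈ D, 0 ≤ φ v x
  sum_one : ∀ x ∈ D, ∑ v ∈ Finset.range N, φ v x = 1
  bary : ∀ x ∈ D, ∑ v ∈ Finset.range N, φ v x • p v = x
  full : ∀ x ∈ D, ∀ t : ℕ → ℝ, (∀ v < N, 0 ≤ t v) → ∑ v ∈ Finset.range N, t v = 1 →
    (∀ v < N, t v ≠ 0 ↔ φ v x ≠ 0) → ∃ y ∈ D, ∀ v < N, φ v y = t v

/-- no edge with both end points in `Q` crosses the hyperplane `l = 0` -/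
def GoodFor (D : Set E) (N : ℕ) (p : ℕ → E) (φ : ℕ → E → ℝ) (Q : Set E) (l : E →ᵃ[ℝ] ℝ) :
    Prop :=
  ∀ x ∈ D, ∀ a < N, ∀ b < N, φ a x ≠ 0 → φ b x ≠ 0 → p a ∈ Q → p b ∈ Q →
    ¬ (0 < l (p a) ∧ l (p b) < 0)

/-- points with rational coordinates -/
def IsRat {n : ℕ} (x : Fin n → ℝ) : Prop := ∀ i, ∃ q : ℚ, x i = q

/-- a large simplex -/
def Dk (n k : ℕ) : Set (Fin n → ℝ) :=
  {x | (∀ i, -(k : ℝ) ≤ x i) ∧ ∑ i, (x i + k) ≤ 2 * n * k + 1}

/-- a cube in the interior of `Dk n k` -/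
def Qk (n k : ℕ) : Set (Fin n → ℝ) := {x | ∀ i, |x i| ≤ (k : ℝ) - 1}

end hats

end PLH
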