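import Pool.Agent.Lib.MP_6a1069_gt.Defs

/-!
EmB: values of the basic maps `em m l a b` (`m > 1 > l > 0`) and of dilations.
`em m l a b t = max t (min (m t + (1-m) a) (l t + (1-l) b))`.
-/

namespace PLH

theorem dil_apply {m : ℝ} (hm : 0 < m) (a t : ℝ) : dil m a t = a + m * (t - a) := by
  rw [dil, ln_apply hm]; ring

theorem dil_inv {m : ℝ} (hm : 0 < m) (a : ℝ) : (dil m a)⁻¹ = dil m⁻¹ a := by
  ext t
  rw [dil_apply (inv_pos.2 hm), dil, ln_inv_apply hm]
  field_simp
  ring

theorem em_apply {m l : ℝ} (hm : 0 < m) (hl : 0 < l) (a b t : ℝ) :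
    em m l a b t = max t (min (a + m * (t - a)) (b + l * (t - b))) := by
  rw [em, P.sup_apply, P.inf_apply, P.one_apply, dil_apply hm, dil_apply hl]

theorem em_of_le {m l a b t : ℝ} (hm : 1 < m) (hl0 : 0 < l) (ht : t ≤ a) :
    em m l a b t = t := by
  rw [em_apply (by linarith) hl0]
  apply max_eq_left
  refine (min_le_left _ _).trans ?_
  nlinarith

theorem em_of_ge {m l a b t : ℝ} (hm : 1 < m) (hl0 : 0 < l) (hl : l < 1) (ht : b ≤ t) :
    em m l a b t = t := by
  rw [em_apply (by linarith) hl0]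
  apply max_eq_left
  refine (min_le_right _ _).trans ?_
  nlinarith

theorem em_eq_one {m l a b : ℝ} (hm : 1 < m) (hl0 : 0 < l) (hl : l < 1) (h : b ≤ a) :
    em m l a b = 1 := by
  ext t
  rw [P.one_apply]
  rcases le_total t a with ht | ht
  · exact em_of_le hm hl0 ht
  · exact em_of_ge hm hl0 hl (h.trans ht)

/-- left of the apex -/
theorem em_left {m l a b t : ℝ} (hm : 1 < m) (hl0 : 0 < l) (ht : a ≤ t)
    (h : a + m * (t - a) ≤ b + l * (t - b)) : em m l a b t = a + m * (t - a) := by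
  rw [em_apply (by linarith) hl0, min_eq_left h]
  apply max_eq_right
  nlinarith

/-- right of the apex -/
theorem em_right {m l a b t : ℝ} (hm : 1 < m) (hl0 : 0 < l) (hl : l < 1) (ht : t ≤ b)
    (h : b + l * (t - b) ≤ a + m * (t - a)) : em m l a b t = b + l * (t - b) := by
  rw [em_apply (by linarith) hl0, min_eq_right h]
  apply max_eq_right
  nlinarith

theorem em_mem_Icc {m l a b t : ℝ} (hm : 1 < m) (hl0 : 0 < l) (hl : l < 1) (h1 : a ≤ t)
    (h2 : t ≤ b) : a ≤ em m l a b t ∧ em m l a b t ≤ b := by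
  rw [em_apply (by linarith) hl0]
  refine ⟨h1.trans (le_max_left _ _), max_le h2 ((min_le_right _ _).trans ?_)⟩
  nlinarith

theorem le_em {m l a b t : ℝ} (hm : 0 < m) (hl0 : 0 < l) : t ≤ em m l a b t := by
  rw [em_apply hm hl0]
  exact le_max_left _ _

end PLH
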