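import Mathlib

/-!
Hig: Higman's argument for permutation groups.
For `α, β ∈ G`, `γ ∈ N`, `γ ≠ 1`, `ρ` as in `hC` and `δ = ρ⁻¹ γ ρ`: `δ` maps `S = supp α ∪ supp β`
into its complement, so `δ α⁻¹ δ⁻¹` commutes with `β`, and `⁅⁅α, δ⁆, β⁆ = ⁅α, β⁆`
(`⁅α,δ⁆ = α (δ α⁻¹ δ⁻¹)`).  If `N` is normalised by `ρ`, `α`, `β` and `γ ∈ N` then `⁅α,β⁆ ∈ N`.
(1) `N` normalised by `G`: `⁅G,G⁆ ≤ N`.
(2) `N = ⁅⁅G,G⁆,⁅G,G⁆⁆` in (1): `⁅G,G⁆` is perfect.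
(3) `N ≤ ⁅G,G⁆` normalised by `⁅G,G⁆`, not trivial: all `⁅α,β⁆` with `α, β ∈ ⁅G,G⁆` are in `N`,
so `⁅G,G⁆ = ⁅⁅G,G⁆,⁅G,G⁆⁆ ≤ N`.
-/

namespace PLH

/-- The main step of Higman's argument. -/
lemma hig_core {X : Type*} (α β γ ρ : Equiv.Perm X)
    (h : ∀ x y, (α x ≠ x ∨ β x ≠ x) → (α y ≠ y ∨ β y ≠ y) → γ (ρ x) ≠ ρ y)
    (N : Subgroup (Equiv.Perm X)) (hγ : γ ∈ N) (hρ : ∀ x ∈ N, ρ⁻¹ * x * ρ ∈ N)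
    (hα : ∀ x ∈ N, α * x * α⁻¹ ∈ N) (hβ : ∀ x ∈ N, β * x * β⁻¹ ∈ N) :
    α * β * α⁻¹ * β⁻¹ ∈ N := by
  set δ := ρ⁻¹ * γ * ρ with hδ
  have hδN : δ ∈ N := hρ γ hγ
  -- `c = δ α⁻¹ δ⁻¹` fixes the support of `β`
  have hfix : ∀ y, (α y ≠ y ∨ β y ≠ y) → (δ * α⁻¹ * δ⁻¹) y = y := by
    intro y hy
    by_contra hne
    have h1 : α (δ⁻¹ y) ≠ δ⁻¹ y := by
      intro h2
      apply hne
      have h3 : α⁻¹ (δ⁻¹ y) = δ⁻¹ y := by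
        rw [Equiv.Perm.inv_eq_iff_eq]
        exact h2.symm
      show δ (α⁻¹ (δ⁻¹ y)) = y
      rw [h3]
      exact Equiv.apply_symm_apply δ y
    have h2 := h (δ⁻¹ y) y (Or.inl h1) hy
    apply h2
    have h3 : δ (δ⁻¹ y) = y := Equiv.apply_symm_apply δ y
    have h4 : δ (δ⁻¹ y) = ρ⁻¹ (γ (ρ (δ⁻¹ y))) := rfl
    rw [h4] at h3
    rw [Equiv.Perm.inv_eq_iff_eq] at h3
    exact h3
  have hcomm : (δ * α⁻¹ * δ⁻¹) * β = β * (δ * α⁻¹ * δ⁻¹) := by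
    ext y
    show (δ * α⁻¹ * δ⁻¹) (β y) = β ((δ * α⁻¹ * δ⁻¹) y)
    by_cases hy : β y = y
    · -- `c y` is fixed by `β` as well
      rw [hy]
      by_cases hc : (δ * α⁻¹ * δ⁻¹) y = y
      · rw [hc, hy]
      · by_contra hne
        have h1 : β ((δ * α⁻¹ * δ⁻¹) y) ≠ (δ * α⁻¹ * δ⁻¹) y := fun h2 => hne h2.symm
        have h2 := hfix _ (Or.inr h1)
        exact hc ((δ * α⁻¹ * δ⁻¹).injective h2)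
    · have h1 := hfix y (Or.inr hy)
      have h2 : β (β y) ≠ β y := fun h3 => hy (β.injective h3)
      have h3 := hfix (β y) (Or.inr h2)
      rw [h1, h3]
  have h5 : α * δ * α⁻¹ * δ⁻¹ ∈ N := N.mul_mem (hα δ hδN) (N.inv_mem hδN)
  have h6 : α * δ * α⁻¹ * δ⁻¹ * (β * (α * δ * α⁻¹ * δ⁻¹)⁻¹ * β⁻¹) ∈ N :=
    N.mul_mem h5 (hβ _ (N.inv_mem h5))
  have h7 : α * δ * α⁻¹ * δ⁻¹ * (β * (α * δ * α⁻¹ * δ⁻¹)⁻¹ * β⁻¹) = α * β * α⁻¹ * β⁻¹ := by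
    have h8 : (α * δ * α⁻¹ * δ⁻¹) = α * (δ * α⁻¹ * δ⁻¹) := by group
    rw [h8]
    set c := δ * α⁻¹ * δ⁻¹
    have h9 : c * β * c⁻¹ = β := by rw [hcomm]; group
    calc α * c * (β * (α * c)⁻¹ * β⁻¹) = α * (c * β * c⁻¹) * α⁻¹ * β⁻¹ := by group
      _ = α * β * α⁻¹ * β⁻¹ := by rw [h9]
  rwa [h7] at h6

theorem higman {X : Type*} (G : Subgroup (Equiv.Perm X))
    (hC : ∀ α ∈ G, ∀ β ∈ G, ∀ γ ∈ G, γ ≠ 1 → ∃ ρ ∈ ⁅G, G⁆, ∀ x y,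
      (α x ≠ x ∨ β x ≠ x) → (α y ≠ y ∨ β y ≠ y) → γ (ρ x) ≠ ρ y)
    (hne : ⁅⁅G, G⁆, ⁅G, G⁆⁆ ≠ ⊥) :
    (∀ N : Subgroup (Equiv.Perm X), N ≤ G → (∀ g ∈ G, ∀ x ∈ N, g * x * g⁻¹ ∈ N) → N ≠ ⊥ →
      ⁅G, G⁆ ≤ N) ∧
    ⁅⁅G, G⁆, ⁅G, G⁆⁆ = ⁅G, G⁆ ∧
    (∀ N : Subgroup (Equiv.Perm X), N ≤ ⁅G, G⁆ → (∀ g ∈ ⁅G, G⁆, ∀ x ∈ N, g * x * g⁻¹ ∈ N) →
      N ≠ ⊥ → N = ⁅G, G⁆) := by
  have hGG : ∀ K : Subgroup (Equiv.Perm X), ⁅K, K⁆ ≤ K := fun K => by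
    rw [Subgroup.commutator_le]
    intro a ha b hb
    rw [commutatorElement_def]
    exact K.mul_mem (K.mul_mem (K.mul_mem ha hb) (K.inv_mem ha)) (K.inv_mem hb)
  have hex : ∀ N : Subgroup (Equiv.Perm X), N ≠ ⊥ → ∃ γ, γ ∈ N ∧ γ ≠ 1 := by
    intro N hbot
    by_contra hno
    push Not at hno
    exact hbot ((Subgroup.eq_bot_iff_forall N).2 hno)
  have h1 : ∀ N : Subgroup (Equiv.Perm X), N ≤ G → (∀ g ∈ G, ∀ x ∈ N, g * x * g⁻¹ ∈ N) → N ≠ ⊥ →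
      ⁅G, G⁆ ≤ N := by
    intro N hN hnorm hbot
    obtain ⟨γ, hγ, hγ1⟩ := hex N hbot
    rw [Subgroup.commutator_le]
    intro α hα β hβ
    obtain ⟨ρ, hρ, hρ2⟩ := hC α hα β hβ γ (hN hγ) hγ1
    rw [commutatorElement_def]
    refine hig_core α β γ ρ hρ2 N hγ (fun x hx => ?_) (hnorm α hα) (hnorm β hβ)
    have := hnorm ρ⁻¹ (G.inv_mem (hGG G hρ)) x hx
    rwa [inv_inv] at this
  have hconj : ∀ g ∈ G, ∀ x ∈ ⁅⁅G, G⁆, ⁅G, G⁆⁆, g * x * g⁻¹ ∈ ⁅⁅G, G⁆, ⁅G, G⁆⁆ := by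
    intro g hg x hx
    have hmap : Subgroup.map (MulAut.conj g).toMonoidHom G = G := by
      apply le_antisymm
      · rintro _ ⟨y, hy, rfl⟩
        exact G.mul_mem (G.mul_mem hg hy) (G.inv_mem hg)
      · intro y hy
        refine ⟨g⁻¹ * y * g, G.mul_mem (G.mul_mem (G.inv_mem hg) hy) hg, ?_⟩
        show g * (g⁻¹ * y * g) * g⁻¹ = y
        group
    have h2 : Subgroup.map (MulAut.conj g).toMonoidHom ⁅⁅G, G⁆, ⁅G, G⁆⁆ = ⁅⁅G, G⁆, ⁅G, G⁆⁆ := by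
      rw [Subgroup.map_commutator, Subgroup.map_commutator, hmap]
    rw [← h2]
    exact ⟨x, hx, rfl⟩
  have h2 : ⁅⁅G, G⁆, ⁅G, G⁆⁆ = ⁅G, G⁆ :=
    le_antisymm (hGG _) (h1 _ ((hGG _).trans (hGG G)) hconj hne)
  refine ⟨h1, h2, fun N hN hnorm hbot => le_antisymm hN ?_⟩
  obtain ⟨γ, hγ, hγ1⟩ := hex N hbot
  rw [← h2, Subgroup.commutator_le]
  intro α hα β hβ
  obtain ⟨ρ, hρ, hρ2⟩ := hC α (hGG G hα) β (hGG G hβ) γ (hGG G (hN hγ)) hγ1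
  rw [commutatorElement_def]
  refine hig_core α β γ ρ hρ2 N hγ (fun x hx => ?_) (hnorm α hα) (hnorm β hβ)
  have := hnorm ρ⁻¹ (Subgroup.inv_mem _ hρ) x hx
  rwa [inv_inv] at this

end PLH
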