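import Pool.Agent.Lib.MP_6a1069_gt.Comp
import Pool.Agent.Lib.MP_6a1069_gt.Mono
import Pool.Agent.Lib.MP_6a1069_gt.Hig
import Pool.Agent.Lib.MP_6a1069_gt.Pert

/-!
Fin1: the group theoretic consequences for `G = PLc (Fin n → ℝ)`, `n ≥ 1`.
`hC` of `higman`: `α, β` have bounded support `S`, `γ ≠ 1` moves some point, so there is an open
`O ≠ ∅` with `γ O ∩ O = ∅`; `compress`.  `hne`: `LPc e_0` is perfect (`LPc_le`) and not trivial, so
`LPc e_0 ≤ ⁅⁅G,G⁆,⁅G,G⁆⁆`.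
`normal_small`: for `0 < ε`, the normal closure of the elements with `Lip (h - id) ≤ ε` (euclidean
norm) is not trivial, so it contains `⁅G,G⁆`.
-/

namespace PLH

/-- euclidean distance of displacements is at most `ε` times the distance -/
def SmallLip {n : ℕ} (ε : ℝ) (h : (Fin n → ℝ) → (Fin n → ℝ)) : Prop :=
  ∀ x y, ∑ i, ((h x i - x i) - (h y i - y i)) ^ 2 ≤ ε ^ 2 * ∑ i, (x i - y i) ^ 2

theorem fin1_hC {n : ℕ} : ∀ α ∈ PLc (Fin n → ℝ), ∀ β ∈ PLc (Fin n → ℝ),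
    ∀ γ ∈ PLc (Fin n → ℝ), γ ≠ 1 → ∃ ρ ∈ ⁅PLc (Fin n → ℝ), PLc (Fin n → ℝ)⁆, ∀ x y,
      (α x ≠ x ∨ β x ≠ x) → (α y ≠ y ∨ β y ≠ y) → γ (ρ x) ≠ ρ y := by
  intro α hα β hβ γ hγ hγ1
  obtain ⟨-, -, Ra, hRa⟩ := hα
  obtain ⟨-, -, Rb, hRb⟩ := hβ
  obtain ⟨hγc, -, -, -⟩ := hγ
  -- a point that is moved
  obtain ⟨p, hp⟩ : ∃ p, γ p ≠ p := by
    by_contra hcon
    push Not at hcon
    exact hγ1 (Equiv.ext hcon)
  obtain ⟨U, U', hU, hU', hpU, hpU', hd⟩ := t2_separation hp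
  -- `γ p ∈ U`, `p ∈ U'`
  have hO : IsOpen (U' ∩ (γ : (Fin n → ℝ) → (Fin n → ℝ)) ⁻¹' U) :=
    hU'.inter (hU.preimage hγc.continuous)
  have hS : Bornology.IsBounded {x : Fin n → ℝ | α x ≠ x ∨ β x ≠ x} := by
    rw [isBounded_iff_forall_norm_le]
    refine ⟨max Ra Rb, ?_⟩
    rintro x (hx | hx)
    · by_contra hc
      push Not at hc
      exact hx (hRa x ((le_max_left _ _).trans_lt hc))
    · by_contra hc
      push Not at hc
      exact hx (hRb x ((le_max_right _ _).trans_lt hc))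
  obtain ⟨ρ, hρ, hρO⟩ := compress hS hO ⟨p, hpU', hpU⟩
  refine ⟨ρ, hρ, ?_⟩
  intro x y hx hy hxy
  have h1 := hρO x hx
  have h2 := hρO y hy
  have h3 : γ (ρ x) ∈ U := h1.2
  rw [hxy] at h3
  exact Set.disjoint_left.1 hd h3 h2.1

theorem fin1_LPc_le_PLc {n : ℕ} (v : Fin n → ℝ) : LPc v ≤ PLc (Fin n → ℝ) := fun _ h => h.1

theorem fin1_single_ne {n : ℕ} (i : Fin n) : (Pi.single i (1 : ℝ) : Fin n → ℝ) ≠ 0 := by
  intro h
  have := congrFun h i
  simp at this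

theorem fin1_hne {n : ℕ} (hn : 1 ≤ n) :
    ⁅⁅PLc (Fin n → ℝ), PLc (Fin n → ℝ)⁆, ⁅PLc (Fin n → ℝ), PLc (Fin n → ℝ)⁆⁆ ≠ ⊥ := by
  let i : Fin n := ⟨0, hn⟩
  have h1 : LPc (Pi.single i (1 : ℝ) : Fin n → ℝ) ≤
      ⁅⁅PLc (Fin n → ℝ), PLc (Fin n → ℝ)⁆, ⁅PLc (Fin n → ℝ), PLc (Fin n → ℝ)⁆⁆ :=
    (LPc_le (fin1_single_ne i)).trans (Subgroup.commutator_mono
      (LPc_le_comm (fin1_single_ne i)) (LPc_le_comm (fin1_single_ne i)))
  obtain ⟨g, hg, hg2⟩ := compress1 i 1 0 (by simp) (1 / 2) (by norm_num) (by norm_num)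
  intro hbot
  rw [hbot] at h1
  have h2 : g = 1 := by simpa using h1 hg
  have h3 := (hg2 (Pi.single i 1) (by
    intro j
    by_cases hj : j = i
    · subst hj; simp
    · simp [hj])).2.1
  rw [h2] at h3
  simp at h3
  norm_num at h3

theorem fin1_higman {n : ℕ} (hn : 1 ≤ n) :
    (∀ N : Subgroup (Equiv.Perm (Fin n → ℝ)), N ≤ PLc (Fin n → ℝ) →
      (∀ g ∈ PLc (Fin n → ℝ), ∀ x ∈ N, g * x * g⁻¹ ∈ N) → N ≠ ⊥ →
      ⁅PLc (Fin n → ℝ), PLc (Fin n → ℝ)⁆ ≤ N) ∧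
    ⁅⁅PLc (Fin n → ℝ), PLc (Fin n → ℝ)⁆, ⁅PLc (Fin n → ℝ), PLc (Fin n → ℝ)⁆⁆ =
      ⁅PLc (Fin n → ℝ), PLc (Fin n → ℝ)⁆ ∧
    (∀ N : Subgroup (Equiv.Perm (Fin n → ℝ)), N ≤ ⁅PLc (Fin n → ℝ), PLc (Fin n → ℝ)⁆ →
      (∀ g ∈ ⁅PLc (Fin n → ℝ), PLc (Fin n → ℝ)⁆, ∀ x ∈ N, g * x * g⁻¹ ∈ N) →
      N ≠ ⊥ → N = ⁅PLc (Fin n → ℝ), PLc (Fin n → ℝ)⁆) :=
  higman _ fin1_hC (fin1_hne hn)

/-- abstract part: simplicity of the commutator subgroup -/
theorem fin1_abstract {A : Type*} [Group A] (G : Subgroup A)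
    (h2 : ⁅⁅G, G⁆, ⁅G, G⁆⁆ = ⁅G, G⁆) (hne : ⁅G, G⁆ ≠ ⊥)
    (h3 : ∀ N : Subgroup A, N ≤ ⁅G, G⁆ → (∀ g ∈ ⁅G, G⁆, ∀ x ∈ N, g * x * g⁻¹ ∈ N) →
      N ≠ ⊥ → N = ⁅G, G⁆) :
    IsSimpleGroup ↥(commutator ↥G) ∧ commutator ↥(commutator ↥G) = ⊤ := by
  -- the embedding of `commutator ↥G` in `A`
  let f : ↥(commutator ↥G) →* A := G.subtype.comp (commutator ↥G).subtype
  have hf : Function.Injective f :=
    (Subgroup.subtype_injective G).comp (Subgroup.subtype_injective _)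
  have hrange : (⊤ : Subgroup ↥(commutator ↥G)).map f = ⁅G, G⁆ := by
    rw [← Subgroup.map_map, ← MonoidHom.range_eq_map, Subgroup.range_subtype,
      Subgroup.map_subtype_commutator]
  have hnt : Nontrivial ↥(commutator ↥G) := by
    by_contra hcon
    rw [not_nontrivial_iff_subsingleton] at hcon
    apply hne
    rw [← hrange]
    rw [Subgroup.eq_bot_iff_forall]
    rintro x ⟨y, -, rfl⟩
    have : y = 1 := Subsingleton.elim _ _
    rw [this, map_one]
  refine ⟨⟨fun H hH => ?_⟩, ?_⟩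
  · by_cases hb : H = ⊥
    · exact Or.inl hb
    · right
      have hle : H.map f ≤ ⁅G, G⁆ := by
        rw [← hrange]
        exact Subgroup.map_mono le_top
      have h4 := h3 (H.map f) hle (by
        intro g hg x hx
        rw [← hrange] at hg
        obtain ⟨g', -, rfl⟩ := hg
        obtain ⟨x', hx', rfl⟩ := hx
        refine ⟨g' * x' * g'⁻¹, hH.conj_mem x' hx' g', ?_⟩
        simp only [map_mul, map_inv]) (by
        intro h5
        apply hb
        exact (Subgroup.map_eq_bot_iff_of_injective H hf).1 h5)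
      rw [← hrange] at h4
      exact Subgroup.map_injective hf h4
  · apply Subgroup.map_injective hf
    rw [hrange]
    have e : (commutator ↥(commutator ↥G)).map f =
        ⁅(⊤ : Subgroup ↥(commutator ↥G)).map f, (⊤ : Subgroup ↥(commutator ↥G)).map f⁆ :=
      Subgroup.map_commutator _ _ f
    rw [e, hrange, h2]

theorem structure_thm {n : ℕ} (hn : 1 ≤ n) :
    (∀ N : Subgroup (Equiv.Perm (Fin n → ℝ)), N ≤ PLc (Fin n → ℝ) →
      (∀ g ∈ PLc (Fin n → ℝ), ∀ x ∈ N, g * x * g⁻¹ ∈ N) → N ≠ ⊥ →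
      ⁅PLc (Fin n → ℝ), PLc (Fin n → ℝ)⁆ ≤ N) ∧
    IsSimpleGroup ↥(commutator ↥(PLc (Fin n → ℝ))) ∧
    commutator ↥(commutator ↥(PLc (Fin n → ℝ))) = ⊤ := by
  obtain ⟨h1, h2, h3⟩ := fin1_higman hn
  have hne : ⁅PLc (Fin n → ℝ), PLc (Fin n → ℝ)⁆ ≠ ⊥ := by
    have := fin1_hne hn
    rwa [h2] at this
  exact ⟨h1, fin1_abstract _ h2 hne h3⟩

/-- a bump function -/
noncomputable def fin1_bump {n : ℕ} (x : Fin n → ℝ) : ℝ := max 0 (1 - ∑ i, |x i|)

theorem fin1_isPL_sum {n : ℕ} {ι : Type*} (s : Finset ι) (f : ι → (Fin n → ℝ) → ℝ)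
    (hf : ∀ i ∈ s, IsPL (f i)) : IsPL (fun x => ∑ i ∈ s, f i x) := by
  classical
  induction s using Finset.induction_on with
  | empty => exact (IsPL.const (0 : ℝ)).congr fun x => by simp
  | insert a s ha ih =>
    refine ((hf a (Finset.mem_insert_self a s)).add
      (ih fun i hi => hf i (Finset.mem_insert_of_mem hi))).congr fun x => ?_
    rw [Finset.sum_insert ha]

theorem fin1_isPL_coord {n : ℕ} (i : Fin n) : IsPL (fun x : Fin n → ℝ => x i) :=
  (IsPL.clm (ContinuousLinearMap.proj (R := ℝ) (φ := fun _ : Fin n => ℝ) i)).congr fun _ => rfl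

theorem fin1_isPL_bump {n : ℕ} : IsPL (fin1_bump : (Fin n → ℝ) → ℝ) := by
  unfold fin1_bump
  refine (IsPL.const (0 : ℝ)).max ((IsPL.const (1 : ℝ)).sub (fin1_isPL_sum Finset.univ _ ?_))
  intro i _
  exact ((fin1_isPL_coord i).max (fin1_isPL_coord i).neg).congr fun x => by
    rw [abs_eq_max_neg]

theorem fin1_bump_lip {n : ℕ} (x y : Fin n → ℝ) :
    |fin1_bump x - fin1_bump y| ≤ ∑ i, |x i - y i| := by
  unfold fin1_bump
  have h1 : |max 0 (1 - ∑ i, |x i|) - max 0 (1 - ∑ i, |y i|)| ≤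
      |(1 - ∑ i, |x i|) - (1 - ∑ i, |y i|)| := by
    have := abs_max_sub_max_le_max (0 : ℝ) (1 - ∑ i, |x i|) 0 (1 - ∑ i, |y i|)
    simpa using this
  refine h1.trans ?_
  have h2 : (1 - ∑ i, |x i|) - (1 - ∑ i, |y i|) = ∑ i, (|y i| - |x i|) := by
    rw [Finset.sum_sub_distrib]; ring
  rw [h2]
  refine (Finset.abs_sum_le_sum_abs _ _).trans ?_
  apply Finset.sum_le_sum
  intro i _
  rw [abs_sub_comm (x i)]
  exact abs_abs_sub_abs_le_abs_sub _ _

theorem fin1_sum_sq {n : ℕ} (a : Fin n → ℝ) : (∑ i, |a i|) ^ 2 ≤ n * ∑ i, a i ^ 2 := by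
  have := sq_sum_le_card_mul_sum_sq (s := Finset.univ) (f := fun i : Fin n => |a i|)
  simpa using this

theorem exists_small {n : ℕ} (hn : 1 ≤ n) {ε : ℝ} (hε : 0 < ε) :
    ∃ h ∈ PLc (Fin n → ℝ), h ≠ 1 ∧ SmallLip ε (h : (Fin n → ℝ) → (Fin n → ℝ)) := by
  let k : Fin n := ⟨0, hn⟩
  have hn' : (1 : ℝ) ≤ n := by exact_mod_cast hn
  obtain ⟨e, he⟩ : ∃ e : ℝ, e = min ε (1 / 2) / n := ⟨_, rfl⟩
  have hm : 0 < min ε (1 / 2) := lt_min hε (by norm_num)
  have he0 : 0 < e := by rw [he]; positivity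
  have he1 : e ≤ 1 / 2 := by
    rw [he, div_le_iff₀ (by linarith)]
    have := min_le_right ε (1 / 2)
    nlinarith
  have he2 : e * n ≤ ε := by
    rw [he, div_mul_cancel₀ _ (by linarith)]
    exact min_le_left _ _
  obtain ⟨g, hg, hg2⟩ := exists_coord k (fun x => x k + e * fin1_bump x)
    ((fin1_isPL_coord k).add (fin1_isPL_bump.const_mul e)) (by
      intro x s t hst
      have h1 := fin1_bump_lip (Function.update x k s) (Function.update x k t)
      have h2 : ∑ i, |Function.update x k s i - Function.update x k t i| = t - s := by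
        rw [Finset.sum_eq_single k]
        · rw [Function.update_self, Function.update_self, abs_sub_comm, abs_of_pos (by linarith)]
        · intro i _ hi
          rw [Function.update_of_ne hi, Function.update_of_ne hi, sub_self, abs_zero]
        · intro h; exact absurd (Finset.mem_univ k) h
      rw [h2] at h1
      have h3 := (abs_le.1 h1).2
      simp only [Function.update_self]
      nlinarith) 1 (by
      intro x hx
      have h1 : fin1_bump x = 0 := by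
        unfold fin1_bump
        apply max_eq_left
        obtain ⟨i, hi⟩ : ∃ i, 1 < |x i| := by
          by_contra hcon
          push Not at hcon
          have : ‖x‖ ≤ 1 := (pi_norm_le_iff_of_nonneg zero_le_one).2 hcon
          linarith
        have := Finset.single_le_sum (f := fun i => |x i|) (fun i _ => abs_nonneg (x i))
          (Finset.mem_univ i)
        linarith
      simp only [h1, mul_zero, add_zero])
  refine ⟨g, hg.1, ?_, ?_⟩
  · intro h1
    have h2 := congrFun (hg2 0) k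
    rw [h1] at h2
    simp [fin1_bump] at h2
    exact he0.ne h2
  · intro x y
    have h1 : ∀ z : Fin n → ℝ, ∀ i, g z i - z i = if i = k then e * fin1_bump z else 0 := by
      intro z i
      rw [hg2 z]
      by_cases hi : i = k
      · subst hi; simp
      · simp [hi]
    simp only [h1]
    have h2 : ∑ i, ((if i = k then e * fin1_bump x else 0) -
        (if i = k then e * fin1_bump y else 0)) ^ 2 = (e * (fin1_bump x - fin1_bump y)) ^ 2 := by
      rw [Finset.sum_eq_single k]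
      · simp; ring
      · intro i _ hi; simp [hi]
      · intro h; exact absurd (Finset.mem_univ k) h
    rw [h2]
    have h3 := fin1_bump_lip x y
    have h4 := fin1_sum_sq (fun i => x i - y i)
    have h5 : (fin1_bump x - fin1_bump y) ^ 2 ≤ n * ∑ i, (x i - y i) ^ 2 := by
      refine le_trans ?_ h4
      rw [← sq_abs]
      exact pow_le_pow_left₀ (abs_nonneg _) h3 2
    have h6 : 0 ≤ ∑ i, (x i - y i) ^ 2 := Finset.sum_nonneg fun i _ => sq_nonneg _
    have h7 : e ^ 2 * n ≤ ε ^ 2 := by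
      have : e ^ 2 * n ≤ (e * n) ^ 2 := by nlinarith [sq_nonneg e]
      exact this.trans (pow_le_pow_left₀ (by positivity) he2 2)
    calc (e * (fin1_bump x - fin1_bump y)) ^ 2 = e ^ 2 * (fin1_bump x - fin1_bump y) ^ 2 := by ring
      _ ≤ e ^ 2 * (n * ∑ i, (x i - y i) ^ 2) := mul_le_mul_of_nonneg_left h5 (sq_nonneg e)
      _ = (e ^ 2 * n) * ∑ i, (x i - y i) ^ 2 := by ring
      _ ≤ ε ^ 2 * ∑ i, (x i - y i) ^ 2 := mul_le_mul_of_nonneg_right h7 h6

theorem fin1_small_mem {n : ℕ} {ε : ℝ} (h0 : 0 < ε) (h1 : ε < 1)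
    {g : Equiv.Perm (Fin n → ℝ)} (hg : g ∈ PLc (Fin n → ℝ))
    (hs : SmallLip ε (g : (Fin n → ℝ) → (Fin n → ℝ))) :
    g ∈ ⁅PLc (Fin n → ℝ), PLc (Fin n → ℝ)⁆ := by
  obtain ⟨L, -, hL, hprod⟩ := mono_prod hg fun x y hxy => mono_of_lip h0.le h1 hs hxy
  rw [hprod]
  apply Subgroup.list_prod_mem
  intro a ha
  obtain ⟨i, hi⟩ := hL a ha
  exact LPc_le_comm (fin1_single_ne i) hi

theorem fin1_mem_commutator {A : Type*} [Group A] (G : Subgroup A) (g : ↥G) :
    g ∈ commutator ↥G ↔ (g : A) ∈ ⁅G, G⁆ := by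
  rw [← Subgroup.map_subtype_commutator]
  constructor
  · intro h
    exact ⟨g, h, rfl⟩
  · rintro ⟨g', hg', he⟩
    have : g' = g := Subtype.ext he
    rwa [this] at hg'

theorem normal_small {n : ℕ} (hn : 1 ≤ n) {ε : ℝ} (h0 : 0 < ε) (h1 : ε < 1) :
    Subgroup.normalClosure {g : ↥(PLc (Fin n → ℝ)) |
      SmallLip ε ((g : Equiv.Perm (Fin n → ℝ)) : (Fin n → ℝ) → (Fin n → ℝ))}
      = commutator ↥(PLc (Fin n → ℝ)) := by
  apply le_antisymm
  · apply Subgroup.normalClosure_le_normal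
    intro g hg
    exact (fin1_mem_commutator _ g).2 (fin1_small_mem h0 h1 g.2 hg)
  · set C := Subgroup.normalClosure {g : ↥(PLc (Fin n → ℝ)) |
      SmallLip ε ((g : Equiv.Perm (Fin n → ℝ)) : (Fin n → ℝ) → (Fin n → ℝ))} with hC
    have hnormal : C.Normal := Subgroup.normalClosure_normal
    have h2 := (fin1_higman hn).1 (C.map (PLc (Fin n → ℝ)).subtype)
      (Subgroup.map_subtype_le _) (by
        rintro g hg _ ⟨x, hx, rfl⟩
        exact ⟨⟨g, hg⟩ * x * ⟨g, hg⟩⁻¹, hnormal.conj_mem x hx _, rfl⟩) (by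
        intro hbot
        obtain ⟨h, hh, hne, hsmall⟩ := exists_small hn h0
        have h3 : (⟨h, hh⟩ : ↥(PLc (Fin n → ℝ))) ∈ C := Subgroup.subset_normalClosure hsmall
        have h4 : h ∈ C.map (PLc (Fin n → ℝ)).subtype := ⟨_, h3, rfl⟩
        rw [hbot, Subgroup.mem_bot] at h4
        exact hne h4)
    intro g hg
    rw [fin1_mem_commutator] at hg
    obtain ⟨g', hg', he⟩ := h2 hg
    have : g' = g := Subtype.ext he
    rwa [this] at hg'

theorem simple_iff {n : ℕ} (hn : 1 ≤ n) :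
    IsSimpleGroup ↥(PLc (Fin n → ℝ)) ↔ commutator ↥(PLc (Fin n → ℝ)) = ⊤ := by
  obtain ⟨h1, h2, -⟩ := fin1_higman hn
  have hne : commutator ↥(PLc (Fin n → ℝ)) ≠ ⊥ := by
    intro hb
    have h3 := fin1_hne hn
    rw [h2, ← Subgroup.map_subtype_commutator, hb, Subgroup.map_bot] at h3
    exact h3 rfl
  constructor
  · intro hs
    rcases hs.eq_bot_or_eq_top_of_normal (commutator ↥(PLc (Fin n → ℝ))) inferInstance with h | h
    · exact absurd h hne
    · exact h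
  · intro htop
    have hnt : Nontrivial ↥(PLc (Fin n → ℝ)) := by
      by_contra hcon
      rw [not_nontrivial_iff_subsingleton] at hcon
      exact hne (Subsingleton.elim _ _)
    refine ⟨fun H hH => ?_⟩
    by_cases hb : H = ⊥
    · exact Or.inl hb
    · right
      have h3 := h1 (H.map (PLc (Fin n → ℝ)).subtype) (Subgroup.map_subtype_le _) (by
        rintro g hg _ ⟨x, hx, rfl⟩
        exact ⟨⟨g, hg⟩ * x * ⟨g, hg⟩⁻¹, hH.conj_mem x hx _, rfl⟩) (by
        intro h5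
        exact hb ((Subgroup.map_eq_bot_iff_of_injective H
          (Subgroup.subtype_injective _)).1 h5))
      rw [← Subgroup.map_subtype_commutator, htop] at h3
      rw [eq_top_iff]
      intro g _
      obtain ⟨g', hg', he⟩ := h3 ⟨g, Subgroup.mem_top g, rfl⟩
      have : g' = g := Subtype.ext he
      rwa [this] at hg'

end PLH
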