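import Pool.Agent.Lib.MP_6a1069_gt.Cnt

/-!
Fin2: the abelianisation of `PLc (Fin n → ℝ)` is countable.
-/

namespace PLH

theorem countable_ab (n : ℕ) : Countable (Abelianization ↥(PLc (Fin n → ℝ))) := by
  -- choose representatives and their codes
  have hrep : ∀ a : Abelianization ↥(PLc (Fin n → ℝ)), ∃ h : ↥(PLc (Fin n → ℝ)),
      Abelianization.of h = a := fun a => QuotientGroup.mk_surjective a
  choose rep hrep using hrep
  have hcode : ∀ a : Abelianization ↥(PLc (Fin n → ℝ)), ∃ (c : Code n)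
      (g : Equiv.Perm (Fin n → ℝ)), IsCode c g ∧ g ∈ PLc (Fin n → ℝ) ∧
      (rep a : Equiv.Perm (Fin n → ℝ))⁻¹ * g ∈ ⁅PLc (Fin n → ℝ), PLc (Fin n → ℝ)⁆ :=
    fun a => exists_code (rep a).2
  choose code g h1 h2 h3 using hcode
  have hab : ∀ a, Abelianization.of (⟨g a, h2 a⟩ : ↥(PLc (Fin n → ℝ))) = a := by
    intro a
    have h4 : (rep a)⁻¹ * ⟨g a, h2 a⟩ ∈ commutator ↥(PLc (Fin n → ℝ)) := by
      have h5 := h3 a
      rw [← Subgroup.map_subtype_commutator] at h5
      obtain ⟨x, hx, he⟩ := h5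
      have : x = (rep a)⁻¹ * ⟨g a, h2 a⟩ := Subtype.ext he
      rwa [this] at hx
    have h6 : Abelianization.of ((rep a)⁻¹ * ⟨g a, h2 a⟩) = 1 :=
      (QuotientGroup.eq_one_iff _).2 h4
    rw [map_mul, map_inv, inv_mul_eq_one] at h6
    rw [← h6, hrep a]
  have hinj : Function.Injective code := by
    intro a b hcab
    have h4 : g a = g b := by
      have h5 := h1 b
      rw [← hcab] at h5
      exact (h1 a).unique h5
    rw [← hab a, ← hab b]
    congr 1
    exact Subtype.ext h4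
  exact hinj.countable

end PLH
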