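import Pool.Agent.Lib.MP_6a1069_gt.PB
import Pool.Agent.Lib.MP_6a1069_gt.EmB

/-!
HB: closure properties of `HH B` and `VV B`; cut-off functions.
-/

namespace PLH

variable {B : Type*} [NormedAddCommGroup B] [NormedSpace ℝ B]

theorem HH_sup {F G : B → P} (hF : F ∈ HH B) (hG : G ∈ HH B) : F ⊔ G ∈ HH B := by
  refine ⟨(hF.1.max hG.1).congr fun x => rfl, ?_⟩
  rw [PLH.F.inv_sup]
  exact (hF.2.min hG.2).congr fun x => rfl

theorem HH_inf {F G : B → P} (hF : F ∈ HH B) (hG : G ∈ HH B) : F ⊓ G ∈ HH B := by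
  refine ⟨(hF.1.min hG.1).congr fun x => rfl, ?_⟩
  rw [PLH.F.inv_inf]
  exact (hF.2.max hG.2).congr fun x => rfl

theorem Ln_apply {m : ℝ} (hm : 0 < m) (c : B → ℝ) (b : B) (t : ℝ) :
    Ln m c b t = m * t + c b := ln_apply hm (c b) t

theorem Ln_mem {m : ℝ} (hm : 0 < m) {c : B → ℝ} (hc : IsPL c) : Ln m c ∈ HH B := by
  constructor
  · refine ((IsPL.snd.const_mul m).add (hc.comp IsPL.fst)).congr fun x => ?_
    exact ln_apply hm (c x.1) x.2
  · refine ((IsPL.snd.sub (hc.comp IsPL.fst)).div_const m).congr fun x => ?_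
    exact ln_inv_apply hm (c x.1) x.2

theorem IsLn.mem {m₀ : ℝ} (h0 : 0 ≤ m₀) {A : B → P} (hA : IsLn m₀ A) : A ∈ HH B := by
  obtain ⟨m, c, hm, hc, rfl⟩ := hA
  exact Ln_mem (h0.trans_lt hm) hc

theorem del_mem_VV {U W : B → P} (hU : U ∈ HH B) (hW : W ∈ HH B) (h : BddReg U W) :
    del U W ∈ VV B := by
  refine ⟨mul_mem (inv_mem hU) (HH_sup hU hW), ?_⟩
  obtain ⟨R, hR⟩ := h.subset_closedBall 0
  refine ⟨R, fun b t hbt => ?_⟩
  have h1 : W b t ≤ U b t := by
    by_contra h2
    have := hR (show ((b, t) : B × ℝ) ∈ {x : B × ℝ | U x.1 x.2 < W x.1 x.2} from not_le.1 h2)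
    rw [mem_closedBall_zero_iff] at this
    exact absurd this (not_le.2 hbt)
  show (U b)⁻¹ (max (U b t) (W b t)) = t
  rw [max_eq_left h1]
  exact RelIso.inv_apply_self _ _

theorem Em_mem_HH {m l : ℝ} (hm : 0 < m) (hl : 0 < l) {a b : B → ℝ} (ha : IsPL a)
    (hb : IsPL b) : Em m l a b ∈ HH B := by
  have h : Em m l a b = 1 ⊔ (Ln m (fun x => (1 - m) * a x) ⊓ Ln l (fun x => (1 - l) * b x)) := rfl
  rw [h]
  exact HH_sup (one_mem _) (HH_inf (Ln_mem hm (ha.const_mul _)) (Ln_mem hl (hb.const_mul _)))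

/-- a continuous function on a finite dimensional space is bounded above on bounded sets -/
theorem exists_bound [FiniteDimensional ℝ B] {K : Set B} (hK : Bornology.IsBounded K)
    {f : B → ℝ} (hf : Continuous f) : ∃ M : ℝ, ∀ x ∈ K, |f x| ≤ M := by
  have := FiniteDimensional.proper ℝ B
  obtain ⟨C, hC⟩ := hK.isCompact_closure.exists_bound_of_continuousOn hf.continuousOn
  exact ⟨C, fun x hx => hC x (subset_closure hx)⟩

/-- subsets of `B × ℝ` between two continuous functions over a bounded set are bounded -/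
theorem bounded_between [FiniteDimensional ℝ B] {K : Set B} (hK : Bornology.IsBounded K)
    {f g : B → ℝ} (hf : Continuous f) (hg : Continuous g) :
    Bornology.IsBounded {x : B × ℝ | x.1 ∈ K ∧ f x.1 ≤ x.2 ∧ x.2 ≤ g x.1} := by
  obtain ⟨M, hM⟩ := exists_bound hK hf
  obtain ⟨M', hM'⟩ := exists_bound hK hg
  refine (hK.prod (Metric.isBounded_Icc (-M) M')).subset ?_
  rintro ⟨b, t⟩ ⟨h1, h2, h3⟩
  refine ⟨h1, ?_, ?_⟩
  · exact (neg_le_of_abs_le (hM b h1)).trans h2
  · exact h3.trans (le_of_abs_le (hM' b h1))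

theorem Em_mem_VV [FiniteDimensional ℝ B] {m l : ℝ} (hm : 1 < m) (hl0 : 0 < l) (hl : l < 1)
    {a b : B → ℝ} (ha : IsPL a) (hb : IsPL b) (hab : Bornology.IsBounded {x | a x < b x}) :
    Em m l a b ∈ VV B := by
  refine ⟨Em_mem_HH (by linarith) hl0 ha hb, ?_⟩
  obtain ⟨R, hR⟩ := (bounded_between hab ha.continuous hb.continuous).subset_closedBall 0
  refine ⟨R, fun x t hxt => ?_⟩
  show em m l (a x) (b x) t = t
  rcases le_or_gt t (a x) with h1 | h1
  · exact em_of_le hm hl0 h1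
  rcases le_or_gt (b x) t with h2 | h2
  · exact em_of_ge hm hl0 hl h2
  exfalso
  have h3 : ((x, t) : B × ℝ) ∈ {x : B × ℝ | x.1 ∈ {x | a x < b x} ∧ a x.1 ≤ x.2 ∧ x.2 ≤ b x.1} :=
    ⟨h1.trans h2, h1.le, h2.le⟩
  have := hR h3
  rw [mem_closedBall_zero_iff] at this
  exact absurd this (not_le.2 hxt)

/-- a PL function which is proper and nonnegative -/
theorem exists_PL_norm [FiniteDimensional ℝ B] : ∃ r : B → ℝ, IsPL r ∧ (∀ x, 0 ≤ r x) ∧
    (∀ R, Bornology.IsBounded {x | r x < R}) := by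
  let bs := Module.finBasis ℝ B
  let e : B ≃L[ℝ] (Fin (Module.finrank ℝ B) → ℝ) := bs.equivFun.toContinuousLinearEquiv
  refine ⟨fun x => ∑ i, max (e x i) (- e x i), ?_, ?_, ?_⟩
  · have key : ∀ s : Finset (Fin (Module.finrank ℝ B)),
        IsPL (fun x : B => ∑ i ∈ s, max (e x i) (- e x i)) := by
      intro s
      induction s using Finset.induction_on with
      | empty => simpa using IsPL.const (E := B) (0 : ℝ)
      | insert i s hi ih =>
        simp only [Finset.sum_insert hi]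
        have h1 : IsPL (fun x : B => e x i) :=
          (IsPL.clm ((ContinuousLinearMap.proj (R := ℝ) (φ := fun _ => ℝ) i).comp
            (e : B →L[ℝ] (Fin (Module.finrank ℝ B) → ℝ)))).congr fun x => rfl
        exact (h1.max h1.neg).add ih
    exact key Finset.univ
  · intro x
    exact Finset.sum_nonneg fun i _ => by
      rw [← abs_eq_max_neg]; exact abs_nonneg _
  · intro R
    have hb : Bornology.IsBounded (Metric.closedBall (0 : Fin (Module.finrank ℝ B) → ℝ) (|R|)) :=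
      Metric.isBounded_closedBall
    have h2 : Bornology.IsBounded (e.symm '' Metric.closedBall (0 : Fin (Module.finrank ℝ B) → ℝ) (|R|)) :=
      e.symm.lipschitz.isBounded_image hb
    refine h2.subset fun x hx => ⟨e x, ?_, e.symm_apply_apply x⟩
    rw [mem_closedBall_zero_iff, pi_norm_le_iff_of_nonneg (abs_nonneg _)]
    intro i
    have h3 : |e x i| ≤ ∑ i, max (e x i) (- e x i) := by
      have : ∀ j, max (e x j) (- e x j) = |e x j| := fun j => (abs_eq_max_neg).symm
      simp only [this]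
      exact Finset.single_le_sum (f := fun j => |e x j|) (fun j _ => abs_nonneg _)
        (Finset.mem_univ i)
    rw [Real.norm_eq_abs]
    exact (h3.trans (le_of_lt hx)).trans (le_abs_self _)

theorem exists_cutoff [FiniteDimensional ℝ B] {K : Set B} (hK : Bornology.IsBounded K)
    {f : B → ℝ} (hf : Continuous f) :
    ∃ ψ : B → ℝ, IsPL ψ ∧ (∀ x, 0 ≤ ψ x) ∧ (∀ x ∈ K, f x ≤ ψ x) ∧
      Bornology.IsBounded {x | 0 < ψ x} := by
  obtain ⟨r, hr, hr0, hrb⟩ := exists_PL_norm (B := B)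
  obtain ⟨M, hM⟩ := exists_bound hK hf
  obtain ⟨R, hR⟩ := exists_bound hK hr.continuous
  refine ⟨fun x => |M| * max 0 (min 1 (R + 1 - r x)), ?_, ?_, ?_, ?_⟩
  · exact ((IsPL.const 0).max ((IsPL.const 1).min ((IsPL.const (R + 1)).sub hr))).const_mul _
  · intro x
    exact mul_nonneg (abs_nonneg _) (le_max_left _ _)
  · intro x hx
    have h1 : r x ≤ R := le_of_abs_le (hR x hx)
    have h2 : max 0 (min 1 (R + 1 - r x)) = 1 := by
      rw [min_eq_left (by linarith)]
      exact max_eq_right zero_le_one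
    show f x ≤ |M| * max 0 (min 1 (R + 1 - r x))
    rw [h2, mul_one]
    exact (le_of_abs_le (hM x hx)).trans (le_abs_self _)
  · refine (hrb (R + 1)).subset fun x hx => ?_
    by_contra h
    have h1 : R + 1 ≤ r x := not_lt.1 h
    have h2 : max 0 (min 1 (R + 1 - r x)) = 0 := by
      apply max_eq_left
      exact (min_le_right _ _).trans (by linarith)
    have h3 : (0 : ℝ) < |M| * max 0 (min 1 (R + 1 - r x)) := hx
    rw [h2, mul_zero] at h3
    exact lt_irrefl _ h3

end PLH
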