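import Pool.Agent.Lib.MP_6a1069_gt.Defs2

/-!
HatInit: the simplex `Dk n k` with its `n+1` vertices.  `M = 2 n k + 1`, `p_n = (-k, .., -k)`,
`p_i = p_n + M e_i`, `φ_i x = (x_i + k)/M` for `i < n`, `φ_n = 1 - ∑ φ_i` (affine functions).
`full`: `y = ∑ t_v p_v`.  Also: `Dk` convex, compact, contains `Qk n k` in its interior.
-/

namespace PLH

theorem Dk_convex (n k : ℕ) : Convex ℝ (Dk n k) := by
  intro x hx y hy a b ha hb hab
  refine ⟨fun i => ?_, ?_⟩
  · have h1 := hx.1 i
    have h2 := hy.1 i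
    simp only [Pi.add_apply, Pi.smul_apply, smul_eq_mul]
    have e : -(k : ℝ) = a * (-(k : ℝ)) + b * (-(k : ℝ)) := by rw [← add_mul, hab, one_mul]
    rw [e]
    exact add_le_add (mul_le_mul_of_nonneg_left h1 ha) (mul_le_mul_of_nonneg_left h2 hb)
  · have h1 := hx.2
    have h2 := hy.2
    have e : ∑ i, ((a • x + b • y) i + (k : ℝ)) = a * ∑ i, (x i + (k : ℝ)) +
        b * ∑ i, (y i + (k : ℝ)) := by
      rw [Finset.mul_sum, Finset.mul_sum, ← Finset.sum_add_distrib]
      refine Finset.sum_congr rfl fun i _ => ?_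
      simp only [Pi.add_apply, Pi.smul_apply, smul_eq_mul]
      have : (k : ℝ) = a * k + b * k := by rw [← add_mul, hab, one_mul]
      linarith
    rw [e]
    have e2 : (2 * n * k + 1 : ℝ) = a * (2 * n * k + 1) + b * (2 * n * k + 1) := by
      rw [← add_mul, hab, one_mul]
    rw [e2]
    exact add_le_add (mul_le_mul_of_nonneg_left h1 ha) (mul_le_mul_of_nonneg_left h2 hb)

theorem Qk_convex (n k : ℕ) : Convex ℝ (Qk n k) := by
  intro x hx y hy a b ha hb hab i
  have h1 := abs_le.mp (hx i)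
  have h2 := abs_le.mp (hy i)
  have e : (k : ℝ) - 1 = a * ((k : ℝ) - 1) + b * ((k : ℝ) - 1) := by
    rw [← add_mul, hab, one_mul]
  simp only [Pi.add_apply, Pi.smul_apply, smul_eq_mul]
  rw [abs_le]
  constructor
  · have h3 := mul_le_mul_of_nonneg_left h1.1 ha
    have h4 := mul_le_mul_of_nonneg_left h2.1 hb
    linarith
  · have h3 := mul_le_mul_of_nonneg_left h1.2 ha
    have h4 := mul_le_mul_of_nonneg_left h2.2 hb
    linarith

theorem Dk_closed (n k : ℕ) : IsClosed (Dk n k) := by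
  have h1 : IsClosed {x : Fin n → ℝ | ∀ i, -(k : ℝ) ≤ x i} := by
    simp only [Set.ofPred_forall]
    exact isClosed_iInter fun i => isClosed_le continuous_const (continuous_apply i)
  have h2 : IsClosed {x : Fin n → ℝ | ∑ i, (x i + (k : ℝ)) ≤ 2 * n * k + 1} :=
    isClosed_le (by fun_prop) continuous_const
  exact h1.inter h2

theorem Dk_bounded (n k : ℕ) : Bornology.IsBounded (Dk n k) := by
  have h : Dk n k ⊆ Set.Icc (fun _ : Fin n => -(k : ℝ)) (fun _ => 2 * n * k + 1) := by
    intro x hx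
    refine ⟨fun i => hx.1 i, fun i => ?_⟩
    have h1 : x i + (k : ℝ) ≤ ∑ j, (x j + (k : ℝ)) :=
      Finset.single_le_sum (f := fun j => x j + (k : ℝ))
        (fun j _ => by have := hx.1 j; linarith) (Finset.mem_univ i)
    have h2 := hx.2
    have h3 : (0 : ℝ) ≤ k := by positivity
    show x i ≤ 2 * n * k + 1
    linarith
  exact (isCompact_Icc.isBounded).subset h

/-- points with strict inequalities are interior -/
theorem mem_interior_Dk {n k : ℕ} {x : Fin n → ℝ} (h1 : ∀ i, -(k : ℝ) < x i)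
    (h2 : ∑ i, (x i + (k : ℝ)) < 2 * n * k + 1) : x ∈ interior (Dk n k) := by
  have o1 : IsOpen {x : Fin n → ℝ | ∀ i, -(k : ℝ) < x i} := by
    simp only [Set.ofPred_forall]
    exact isOpen_iInter_of_finite fun i => isOpen_lt continuous_const (continuous_apply i)
  have o2 : IsOpen {x : Fin n → ℝ | ∑ i, (x i + (k : ℝ)) < 2 * n * k + 1} :=
    isOpen_lt (by fun_prop) continuous_const
  rw [mem_interior]
  refine ⟨_, ?_, o1.inter o2, ⟨h1, h2⟩⟩
  rintro y ⟨hy1, hy2⟩
  exact ⟨fun i => (hy1 i).le, hy2.le⟩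

theorem Qk_strict {n k : ℕ} {x : Fin n → ℝ} (hx : x ∈ Qk n k) : (∀ i, -(k : ℝ) < x i) ∧
    ∑ i, (x i + (k : ℝ)) < 2 * n * k + 1 := by
  constructor
  · intro i
    have := (abs_le.mp (hx i)).1
    linarith
  · have h : ∑ i, (x i + (k : ℝ)) ≤ ∑ _i : Fin n, (2 * (k : ℝ)) := by
      refine Finset.sum_le_sum fun i _ => ?_
      have := (abs_le.mp (hx i)).2
      linarith
    rw [Finset.sum_const, Finset.card_univ, Fintype.card_fin, nsmul_eq_mul] at h
    have e : (n : ℝ) * (2 * k) = 2 * n * k := by ring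
    linarith

theorem Qk_subset (n k : ℕ) : Qk n k ⊆ interior (Dk n k) := by
  intro x hx
  obtain ⟨h1, h2⟩ := Qk_strict hx
  exact mem_interior_Dk h1 h2

/-- at a frontier point of the simplex no vertex of the carrier lies in the cube -/
theorem face {n k N : ℕ} {p : ℕ → Fin n → ℝ} {φ : ℕ → (Fin n → ℝ) → ℝ}
    (h : IsHT (Dk n k) N p φ) {x : Fin n → ℝ} (hx : x ∈ Dk n k) (hx' : x ∉ interior (Dk n k))
    {v : ℕ} (hv : v < N) (hφ : φ v x ≠ 0) : p v ∉ Qk n k := by
  intro hq
  apply hx'
  obtain ⟨h1, h2⟩ := Qk_strict hq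
  have hpos : 0 < φ v x := lt_of_le_of_ne (h.nonneg v hv x hx) (Ne.symm hφ)
  have hs := h.sum_one x hx
  have hb := h.bary x hx
  have hbi : ∀ i, x i = ∑ w ∈ Finset.range N, φ w x * p w i := by
    intro i
    have := congrFun hb i
    rw [Finset.sum_apply] at this
    rw [← this]
    rfl
  have key : ∀ i, x i + (k : ℝ) = ∑ w ∈ Finset.range N, φ w x * (p w i + k) := by
    intro i
    rw [hbi i]
    simp_rw [mul_add]
    rw [Finset.sum_add_distrib, ← Finset.sum_mul, hs, one_mul]
  apply mem_interior_Dk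
  · intro i
    have e1 : φ v x * (p v i + k) ≤ ∑ w ∈ Finset.range N, φ w x * (p w i + k) := by
      refine Finset.single_le_sum (f := fun w => φ w x * (p w i + k)) (fun w hw => ?_)
        (Finset.mem_range.mpr hv)
      have hw' := Finset.mem_range.mp hw
      have := (h.mem w hw').1 i
      exact mul_nonneg (h.nonneg w hw' x hx) (by linarith)
    have e2 : 0 < φ v x * (p v i + k) := mul_pos hpos (by have := h1 i; linarith)
    have e3 := key i
    linarith
  · have e0 : ∑ i, (x i + (k : ℝ)) =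
        ∑ w ∈ Finset.range N, φ w x * ∑ i, (p w i + (k : ℝ)) := by
      simp_rw [key]
      rw [Finset.sum_comm]
      simp_rw [Finset.mul_sum]
    have e1 : (2 * n * k + 1 : ℝ) - ∑ i, (x i + (k : ℝ)) =
        ∑ w ∈ Finset.range N, φ w x * ((2 * n * k + 1) - ∑ i, (p w i + (k : ℝ))) := by
      rw [e0]
      simp_rw [mul_sub]
      rw [Finset.sum_sub_distrib, ← Finset.sum_mul, hs, one_mul]
    have e2 : φ v x * ((2 * n * k + 1) - ∑ i, (p v i + (k : ℝ))) ≤
        ∑ w ∈ Finset.range N, φ w x * ((2 * n * k + 1) - ∑ i, (p w i + (k : ℝ))) := by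
      refine Finset.single_le_sum
        (f := fun w => φ w x * ((2 * n * k + 1) - ∑ i, (p w i + (k : ℝ)))) (fun w hw => ?_)
        (Finset.mem_range.mpr hv)
      have hw' := Finset.mem_range.mp hw
      have := (h.mem w hw').2
      exact mul_nonneg (h.nonneg w hw' x hx) (by linarith)
    have e3 : 0 < φ v x * ((2 * n * k + 1) - ∑ i, (p v i + (k : ℝ))) :=
      mul_pos hpos (by linarith)
    linarith

theorem init_HT (n k : ℕ) : ∃ (p : ℕ → Fin n → ℝ) (φ : ℕ → (Fin n → ℝ) → ℝ),
    IsHT (Dk n k) (n+1) p φ ∧ ∀ v < n+1, IsRat (p v) := by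
  have hM : (0 : ℝ) < 2 * n * k + 1 := by positivity
  set p : ℕ → Fin n → ℝ := fun v j => -(k : ℝ) + (if (j : ℕ) = v then (2 * n * k + 1 : ℝ) else 0)
    with hp
  set φ : ℕ → (Fin n → ℝ) → ℝ := fun v x => if h : v < n then (x ⟨v, h⟩ + k) / (2 * n * k + 1)
    else 1 - (∑ j, (x j + (k : ℝ))) / (2 * n * k + 1) with hφ
  have hφ1 : ∀ (j : Fin n) (x : Fin n → ℝ), φ j x = (x j + k) / (2 * n * k + 1) := by
    intro j x
    simp [hφ, j.isLt]
  have hφ2 : ∀ x : Fin n → ℝ, φ n x = 1 - (∑ j, (x j + (k : ℝ))) / (2 * n * k + 1) := by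
    intro x
    simp [hφ]
  have hcases : ∀ v < n + 1, (∃ j : Fin n, v = j) ∨ v = n := by
    intro v hv
    rcases Nat.lt_or_ge v n with h | h
    · exact Or.inl ⟨⟨v, h⟩, rfl⟩
    · exact Or.inr (by omega)
  have hsumdiv : ∀ x : Fin n → ℝ, ∑ j : Fin n, (x j + (k : ℝ)) / (2 * n * k + 1) =
      (∑ j, (x j + (k : ℝ))) / (2 * n * k + 1) := by
    intro x
    rw [Finset.sum_div]
  refine ⟨p, φ, ⟨?_, ?_, ?_, ?_, ?_, ?_⟩, ?_⟩
  · intro v hv
    rcases hcases v hv with ⟨j, rfl⟩ | rfl
    · exact (((IsPL.clm (ContinuousLinearMap.proj (R := ℝ) (φ := fun _ : Fin n => ℝ) j)).add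
        (IsPL.const (k : ℝ))).div_const (2 * n * k + 1)).congr fun x => hφ1 j x
    · have e : IsPL (fun x : Fin v → ℝ => ∑ j, (x j + (k : ℝ))) := by
        refine ((IsPL.clm (∑ j : Fin v, ContinuousLinearMap.proj (R := ℝ)
          (φ := fun _ : Fin v => ℝ) j)).add (IsPL.const (∑ _j : Fin v, (k : ℝ)))).congr
            fun x => ?_
        rw [Finset.sum_add_distrib]
        simp
      exact ((IsPL.const (1 : ℝ)).sub (e.div_const (2 * v * k + 1))).congr fun x => hφ2 x
  · intro v hv
    refine ⟨fun i => ?_, ?_⟩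
    · simp only [hp]
      split_ifs
      · linarith
      · linarith
    · simp only [hp]
      have : ∀ i : Fin n, -(k : ℝ) + (if (i : ℕ) = v then (2 * n * k + 1 : ℝ) else 0) + k =
          if (i : ℕ) = v then (2 * n * k + 1 : ℝ) else 0 := by
        intro i; ring
      simp_rw [this]
      rcases hcases v hv with ⟨j, rfl⟩ | rfl
      · simp only [Fin.val_inj, Finset.sum_ite_eq', Finset.mem_univ, if_true]
        exact le_refl _
      · rw [Finset.sum_eq_zero]
        · exact hM.le
        · intro i _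
          rw [if_neg (by have := i.isLt; omega)]
  · intro v hv x hx
    rcases hcases v hv with ⟨j, rfl⟩ | rfl
    · rw [hφ1]
      have := hx.1 j
      exact div_nonneg (by linarith) hM.le
    · rw [hφ2]
      have := hx.2
      rw [sub_nonneg, div_le_one hM]
      exact this
  · intro x hx
    rw [Finset.sum_range_succ, Finset.sum_range, hφ2]
    simp_rw [hφ1]
    rw [hsumdiv]
    ring
  · intro x hx
    funext i
    rw [Finset.sum_apply, Finset.sum_range_succ, Finset.sum_range]
    simp only [Pi.smul_apply, smul_eq_mul]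
    rw [hφ2]
    simp_rw [hφ1]
    simp only [hp]
    simp_rw [mul_add]
    rw [Finset.sum_add_distrib]
    rw [← Finset.sum_mul, hsumdiv]
    have e1 : ∑ j : Fin n, (x j + (k : ℝ)) / (2 * n * k + 1) *
        (if (i : ℕ) = (j : ℕ) then (2 * n * k + 1 : ℝ) else 0) = x i + k := by
      rw [Finset.sum_eq_single i]
      · rw [if_pos rfl, div_mul_cancel₀ _ hM.ne']
      · intro b _ hb
        rw [if_neg, mul_zero]
        intro h
        exact hb (Fin.ext h.symm)
      · intro h
        exact absurd (Finset.mem_univ i) h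
    rw [e1, if_neg (by have := i.isLt; omega)]
    ring
  · intro x hx t ht0 ht1 _
    rw [Finset.sum_range_succ, Finset.sum_range] at ht1
    have hsum : ∑ j : Fin n, (-(k : ℝ) + t j * (2 * n * k + 1) + k) =
        (∑ j : Fin n, t j) * (2 * n * k + 1) := by
      rw [Finset.sum_mul]
      refine Finset.sum_congr rfl fun j _ => ?_
      ring
    have htn := ht0 n (by omega)
    refine ⟨fun j => -(k : ℝ) + t j * (2 * n * k + 1), ⟨fun i => ?_, ?_⟩, ?_⟩
    · have := ht0 i (by have := i.isLt; omega)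
      have := mul_nonneg this hM.le
      simp only
      linarith
    · rw [hsum]
      have : (∑ j : Fin n, t j) ≤ 1 := by linarith
      calc (∑ j : Fin n, t j) * (2 * n * k + 1) ≤ 1 * (2 * n * k + 1) :=
            mul_le_mul_of_nonneg_right this hM.le
        _ = 2 * n * k + 1 := one_mul _
    · intro v hv
      rcases hcases v hv with ⟨j, rfl⟩ | rfl
      · refine (hφ1 j _).trans ?_
        field_simp
        ring
      · refine (hφ2 _).trans ?_
        rw [hsum, mul_div_cancel_right₀ _ hM.ne']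
        linarith
  · intro v hv i
    refine ⟨-(k : ℚ) + (if (i : ℕ) = v then (2 * n * k + 1 : ℚ) else 0), ?_⟩
    simp only [hp]
    split_ifs
    · push_cast; ring
    · push_cast; ring

end PLH
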