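import Pool.Agent.Lib.MP_6a1069_gt.Defs2

/-!
Sel: selections on connected sets.
`select_one`: for `a ∈ S` the set `C_a = {x ∈ C | f x = a x}` is closed in `C`; `C_a` and `C_b` are
equal or disjoint; so the complement of `C_a` in `C` is a finite union of closed sets.
`isPL_iff`: (⟸) continuity: finite closed cover. (⟹) `S` the finite set of `f`; `T` the finite set of
all coordinates of differences `a - b` (choose a basis of `F`, or use: the zero set of `a - b` is an
affine subspace, intersection of finitely many hyperplanes): for every sign vector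
`σ : T → {-1,0,1}` take the polyhedron `{x | σ l * l x ≥ 0 (σ l ≠ 0), l x = 0 (σ l = 0)}`; on the
relatively open cell (strict signs), if not empty, which is convex, `f` is one `a` by `select_one`;
every point of the closed polyhedron is a limit of points of the open cell (segment to a point of the
open cell).  Every `x` lies in the open cell of its own sign vector.
-/

namespace PLH

open Set

theorem select_one {X F : Type*} [TopologicalSpace X] [TopologicalSpace F] [T2Space F]
    {C : Set X} (hC : IsPreconnected C) {f : X → F} (hf : ContinuousOn f C) (S : Set (X → F))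
    (hS : S.Finite) (hcont : ∀ a ∈ S, ContinuousOn a C) (hsel : ∀ x ∈ C, ∃ a ∈ S, f x = a x)
    (hsame : ∀ a ∈ S, ∀ b ∈ S, (∃ x ∈ C, a x = b x) → ∀ x ∈ C, a x = b x) {x₀ : X}
    (hx₀ : x₀ ∈ C) : ∃ a ∈ S, ∀ x ∈ C, f x = a x := by
  obtain ⟨a, haS, ha⟩ := hsel x₀ hx₀
  refine ⟨a, haS, ?_⟩
  have hps : PreconnectedSpace C := isPreconnected_iff_preconnectedSpace.1 hC
  have hfr : Continuous (C.domRestrict f) := continuousOn_iff_continuous_domRestrict.1 hf
  have hcl : ∀ b ∈ S, IsClosed {x : C | f x = b x} := fun b hb =>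
    isClosed_eq hfr (continuousOn_iff_continuous_domRestrict.1 (hcont b hb))
  have hcompl : {x : C | f x = a x}ᶜ =
      ⋃ b ∈ {b ∈ S | ∀ x ∈ C, a x ≠ b x}, {x : C | f x = b x} := by
    ext x
    simp only [mem_compl_iff, mem_ofPred_eq, mem_iUnion, exists_prop]
    constructor
    · intro hx
      obtain ⟨b, hb, hbx⟩ := hsel x x.2
      refine ⟨b, ⟨hb, fun y hy hay => hx ?_⟩, hbx⟩
      rw [hbx, hsame a haS b hb ⟨y, hy, hay⟩ x x.2]
    · rintro ⟨b, ⟨hb, hab⟩, hbx⟩ hax
      exact hab x x.2 (hax ▸ hbx)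
  have hclopen : IsClopen {x : C | f x = a x} := by
    refine ⟨hcl a haS, ?_⟩
    rw [← isClosed_compl_iff, hcompl]
    exact (hS.subset (fun b hb => hb.1)).isClosed_biUnion fun b hb => hcl b hb.1
  rcases isClopen_iff.1 hclopen with h | h
  · exact absurd (show (⟨x₀, hx₀⟩ : C) ∈ {x : C | f x = a x} from ha) (by rw [h]; exact id)
  · intro x hx
    have : (⟨x, hx⟩ : C) ∈ {x : C | f x = a x} := by rw [h]; trivial
    exact this

variable {E F : Type*} [NormedAddCommGroup E] [NormedSpace ℝ E] [FiniteDimensional ℝ E]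
  [NormedAddCommGroup F] [NormedSpace ℝ F] [FiniteDimensional ℝ F]

/-- finitely many affine functions whose signs separate the affine pieces -/
theorem exists_tests {f : E → F} (hf : IsPL f) : ∃ L : List (E →ᵃ[ℝ] ℝ),
    ∀ C : Set E, Convex ℝ C → C.Nonempty →
      (∀ l ∈ L, (∀ x ∈ C, 0 < l x) ∨ (∀ x ∈ C, l x = 0) ∨ (∀ x ∈ C, l x < 0)) →
      ∃ a : E →ᵃ[ℝ] F, ∀ x ∈ closure C, f x = a x := by
  obtain ⟨hfc, S, hS, hS'⟩ := hf
  let B := Module.finBasis ℝ F
  let T : Set (E →ᵃ[ℝ] ℝ) := Set.image2 (fun (ab : (E →ᵃ[ℝ] F) × (E →ᵃ[ℝ] F)) i =>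
    (B.coord i).toAffineMap.comp (ab.1 - ab.2)) (S ×ˢ S) Set.univ
  have hT : T.Finite := (hS.prod hS).image2 _ Set.finite_univ
  refine ⟨hT.toFinset.toList, fun C hC hne hsign => ?_⟩
  obtain ⟨x₀, hx₀⟩ := hne
  have key := select_one (C := C) hC.isPreconnected (f := f) hfc.continuousOn
    ((fun (a : E →ᵃ[ℝ] F) => (a : E → F)) '' S) (hS.image _) ?_ ?_ ?_ hx₀
  · obtain ⟨_, ⟨a, ha, rfl⟩, hax⟩ := key
    refine ⟨a, fun x hx => ?_⟩
    have hcl : IsClosed {x | f x = a x} :=
      isClosed_eq hfc a.continuous_of_finiteDimensional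
    exact closure_minimal (fun y hy => hax y hy) hcl hx
  · rintro _ ⟨a, ha, rfl⟩
    exact a.continuous_of_finiteDimensional.continuousOn
  · intro x hx
    obtain ⟨a, ha, hax⟩ := hS' x
    exact ⟨a, ⟨a, ha, rfl⟩, hax⟩
  · rintro _ ⟨a, ha, rfl⟩ _ ⟨b, hb, rfl⟩ ⟨x, hx, hab⟩ y hy
    have hab' : a x = b x := hab
    show a y = b y
    rw [← sub_eq_zero]
    refine B.ext_elem fun i => ?_
    have hmem : (B.coord i).toAffineMap.comp (a - b) ∈ hT.toFinset.toList := by
      rw [Finset.mem_toList, Set.Finite.mem_toFinset]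
      exact ⟨(a, b), ⟨ha, hb⟩, i, trivial, rfl⟩
    have hval : ∀ z, ((B.coord i).toAffineMap.comp (a - b)) z = B.repr (a z - b z) i := by
      intro z
      simp
    have hx0 : ((B.coord i).toAffineMap.comp (a - b)) x = 0 := by
      rw [hval, hab', sub_self]; simp
    rcases hsign _ hmem with h | h | h
    · exact absurd hx0 (h x hx).ne'
    · have := h y hy
      rw [hval] at this
      rw [this]; simp
    · exact absurd hx0 (h x hx).ne

/-- the closed polyhedron of a sign vector -/
def sgPoly {n : ℕ} (l : Fin n → E →ᵃ[ℝ] ℝ) (σ : Fin n → SignType) : Set E :=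
  {x | ∀ i, (σ i ≠ -1 → 0 ≤ l i x) ∧ (σ i ≠ 1 → l i x ≤ 0)}

/-- the open cell of a sign vector -/
def sgCell {n : ℕ} (l : Fin n → E →ᵃ[ℝ] ℝ) (σ : Fin n → SignType) : Set E :=
  {x | ∀ i, SignType.sign (l i x) = σ i}

omit [FiniteDimensional ℝ E] in
theorem sgPoly_poly {n : ℕ} (l : Fin n → E →ᵃ[ℝ] ℝ) (σ : Fin n → SignType) :
    IsPolyhedron (sgPoly l σ) := by
  refine ⟨(l '' {i | σ i ≠ -1}) ∪ ((fun i => -(l i)) '' {i | σ i ≠ 1}),
    ((Set.toFinite _).image _).union ((Set.toFinite _).image _), ?_⟩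
  ext x
  constructor
  · rintro hx a (⟨i, hi, rfl⟩ | ⟨i, hi, rfl⟩)
    · exact (hx i).1 hi
    · have := (hx i).2 hi
      simpa using this
  · intro hx i
    refine ⟨fun hi => hx _ (Or.inl ⟨i, hi, rfl⟩), fun hi => ?_⟩
    have := hx _ (Or.inr ⟨i, hi, rfl⟩)
    simpa using this

omit [FiniteDimensional ℝ E] in
theorem sgCell_convex {n : ℕ} (l : Fin n → E →ᵃ[ℝ] ℝ) (σ : Fin n → SignType) :
    Convex ℝ (sgCell l σ) := by
  intro x hx y hy a b ha hb hab i
  have h1 := hx i
  have h2 := hy i
  rw [Convex.combo_affine_apply hab, smul_eq_mul, smul_eq_mul]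
  rcases hs : σ i with _ | _ | _
  · rw [hs] at h1 h2
    have h1' : l i x = 0 := by simpa using h1
    have h2' : l i y = 0 := by simpa using h2
    rw [h1', h2']; simp
  · rw [hs] at h1 h2
    have h1' : l i x < 0 := sign_eq_neg_one_iff.1 h1
    have h2' : l i y < 0 := sign_eq_neg_one_iff.1 h2
    have : a * l i x + b * l i y < 0 := by
      rcases ha.eq_or_lt with h | h
      · subst h
        have : b = 1 := by linarith
        subst this; linarith
      · nlinarith [mul_neg_of_pos_of_neg h h1', mul_nonpos_of_nonneg_of_nonpos hb h2'.le]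
    exact sign_neg this
  · rw [hs] at h1 h2
    have h1' : 0 < l i x := sign_eq_one_iff.1 h1
    have h2' : 0 < l i y := sign_eq_one_iff.1 h2
    have : 0 < a * l i x + b * l i y := by
      rcases ha.eq_or_lt with h | h
      · subst h
        have : b = 1 := by linarith
        subst this; linarith
      · nlinarith [mul_pos h h1', mul_nonneg hb h2'.le]
    exact sign_pos this

omit [FiniteDimensional ℝ E] in
theorem sgPoly_subset {n : ℕ} (l : Fin n → E →ᵃ[ℝ] ℝ) (σ : Fin n → SignType)
    (hne : (sgCell l σ).Nonempty) : sgPoly l σ ⊆ closure (sgCell l σ) := by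
  obtain ⟨y, hy⟩ := hne
  intro x hx
  have hcont : Continuous (fun t : ℝ => AffineMap.lineMap x y t) :=
    AffineMap.lineMap_continuous
  have h0 : (0 : ℝ) ∈ closure (Set.Ioo (0 : ℝ) 1) := by
    rw [closure_Ioo (by norm_num)]
    exact ⟨le_rfl, zero_le_one⟩
  have hmaps : Set.MapsTo (fun t : ℝ => AffineMap.lineMap x y t) (Set.Ioo (0 : ℝ) 1)
      (sgCell l σ) := by
    intro t ht i
    have h1 := hx i
    have h2 := hy i
    show SignType.sign (l i (AffineMap.lineMap x y t)) = σ i
    rw [AffineMap.apply_lineMap, AffineMap.lineMap_apply_ring]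
    have ht1 : 0 < 1 - t := by linarith [ht.2]
    have ht0 : 0 < t := ht.1
    rcases hs : σ i with _ | _ | _
    · rw [hs] at h1 h2
      have h2' : l i y = 0 := by simpa using h2
      have h1' : l i x = 0 := le_antisymm (h1.2 (by decide)) (h1.1 (by decide))
      rw [h1', h2']; simp
    · rw [hs] at h1 h2
      have h2' : l i y < 0 := sign_eq_neg_one_iff.1 h2
      have h1' : l i x ≤ 0 := h1.2 (by decide)
      have : (1 - t) * l i x + t * l i y < 0 := by
        nlinarith [mul_neg_of_pos_of_neg ht0 h2', mul_nonpos_of_nonneg_of_nonpos ht1.le h1']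
      exact sign_neg this
    · rw [hs] at h1 h2
      have h2' : 0 < l i y := sign_eq_one_iff.1 h2
      have h1' : 0 ≤ l i x := h1.1 (by decide)
      have : 0 < (1 - t) * l i x + t * l i y := by
        nlinarith [mul_pos ht0 h2', mul_nonneg ht1.le h1']
      exact sign_pos this
  have := map_mem_closure hcont h0 hmaps
  simpa using this

theorem IsPolyhedron.isClosed {Q : Set E} (hQ : IsPolyhedron Q) : IsClosed Q := by
  obtain ⟨L, -, rfl⟩ := hQ
  have : {x | ∀ a ∈ L, 0 ≤ a x} = ⋂ a ∈ L, {x : E | 0 ≤ a x} := by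
    ext x; simp
  rw [this]
  exact isClosed_biInter fun a _ =>
    isClosed_le continuous_const a.continuous_of_finiteDimensional

theorem isPL_iff {f : E → F} : IsPL f ↔ IsPiecewiseLinear f := by
  constructor
  · intro hf
    obtain ⟨L, hL⟩ := exists_tests hf
    let l : Fin L.length → E →ᵃ[ℝ] ℝ := fun i => L.get i
    have hcell : ∀ σ : Fin L.length → SignType, (sgCell l σ).Nonempty →
        ∃ a : E →ᵃ[ℝ] F, ∀ x ∈ closure (sgCell l σ), f x = a x := by
      intro σ hne
      refine hL _ (sgCell_convex l σ) hne fun m hm => ?_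
      obtain ⟨i, rfl⟩ := List.get_of_mem hm
      rcases hs : σ i with _ | _ | _
      · refine Or.inr (Or.inl fun x hx => ?_)
        have := hx i
        rw [hs] at this
        exact sign_eq_zero_iff.1 this
      · refine Or.inr (Or.inr fun x hx => ?_)
        have := hx i
        rw [hs] at this
        exact sign_eq_neg_one_iff.1 this
      · refine Or.inl fun x hx => ?_
        have := hx i
        rw [hs] at this
        exact sign_eq_one_iff.1 this
    choose a ha using hcell
    refine ⟨{c | ∃ (σ : Fin L.length → SignType) (hne : (sgCell l σ).Nonempty),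
      c = (sgPoly l σ, a σ hne)}, ?_, ?_, ?_⟩
    · have : {c : Set E × (E →ᵃ[ℝ] F) | ∃ (σ : Fin L.length → SignType)
          (hne : (sgCell l σ).Nonempty), c = (sgPoly l σ, a σ hne)} ⊆
          Set.range (fun σ : {σ : Fin L.length → SignType // (sgCell l σ).Nonempty} =>
            (sgPoly l σ.1, a σ.1 σ.2)) := by
        rintro c ⟨σ, hne, rfl⟩
        exact ⟨⟨σ, hne⟩, rfl⟩
      exact (Set.finite_range _).subset this
    · rintro c ⟨σ, hne, rfl⟩
      exact ⟨sgPoly_poly l σ, fun x hx => ha σ hne x (sgPoly_subset l σ hne hx)⟩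
    · intro x
      have hx : x ∈ sgCell l (fun i => SignType.sign (l i x)) := fun i => rfl
      refine ⟨_, ⟨fun i => SignType.sign (l i x), ⟨x, hx⟩, rfl⟩, fun i => ⟨fun h => ?_, fun h => ?_⟩⟩
      · by_contra hlt
        exact h (sign_neg (not_le.1 hlt))
      · by_contra hlt
        exact h (sign_pos (not_le.1 hlt))
  · rintro ⟨C, hC, hC1, hC2⟩
    refine ⟨?_, Prod.snd '' C, hC.image _, fun x => ?_⟩
    · have : Finite C := hC
      refine (locallyFinite_of_finite (fun c : C => c.1.1)).continuous ?_ ?_ ?_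
      · rw [Set.iUnion_eq_univ_iff]
        intro x
        obtain ⟨c, hc, hx⟩ := hC2 x
        exact ⟨⟨c, hc⟩, hx⟩
      · intro c
        exact (hC1 c.1 c.2).1.isClosed
      · intro c
        exact c.1.2.continuous_of_finiteDimensional.continuousOn.congr
          fun x hx => (hC1 c.1 c.2).2 x hx
    · obtain ⟨c, hc, hx⟩ := hC2 x
      exact ⟨c.2, ⟨c, hc, rfl⟩, (hC1 c hc).2 x hx⟩

end PLH
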