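import Pool.Agent.Lib.MP_6a1069_gt.HatSub
import Pool.Agent.Lib.MP_6a1069_gt.HatInit
import Pool.Agent.Lib.MP_6a1069_gt.Sel

/-!
HatAd: a triangulation adapted to `h ∈ PLc`.  `k` large: `h x = x` unless `|x_i| < k - 1` for all `i`.
Stage 1: `init_HT`, `subdivide` with the list of the `2n` functions `x ↦ k - 1 ± x_i` and `Q = univ`
 (all vertices rational).  Stage 2: `subdivide` with the list of `exists_tests h` and `Q = Qk n k`
 (Qk ⊆ univ, so stage 1 goodness is preserved; new vertices are in `Qk`).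
For `x ∈ Dk`, carrier `S_x = {v | φ_v x ≠ 0}`:
 if `|x_i| < k-1` for all i: by goodness of the stage 1 functions (`l x > 0` so some `l (p_v) > 0` so
 all `l (p_v) ≥ 0`) `S_x ⊂ Qk`; then for every test `l` all `l (p_v)`, `v ∈ S_x`, are ≥ 0 or all are
 ≤ 0, so `l` has constant sign on `C = {∑ t_v p_v | t_v > 0 on S_x, ∑ t = 1}` (convex, x ∈ C), so
 `h = a` affine on `closure C ∋ p_v`, and `h x = ∑ φ_v x h (p_v)`.
 otherwise some `l x ≤ 0` with `l = k - 1 ± x_i`: then all `l (p_v) ≤ 0` (either all ≤ 0, or all ≥ 0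
 and the weighted sum is ≤ 0, so all = 0), so `h (p_v) = p_v`, `h x = x = ∑ φ_v x p_v`.
-/

namespace PLH

namespace HatAd

/-- affine maps commute with barycentric sums -/
theorem aff_sum {E F : Type*} [AddCommGroup E] [Module ℝ E] [AddCommGroup F] [Module ℝ F]
    (a : E →ᵃ[ℝ] F) (N : ℕ) (t : ℕ → ℝ) (p : ℕ → E) (hs : ∑ v ∈ Finset.range N, t v = 1) :
    a (∑ v ∈ Finset.range N, t v • p v) = ∑ v ∈ Finset.range N, t v • a (p v) := by
  have hx : ∀ y, a y = a.linear y + a 0 := by
    intro y
    have := congrFun a.decomp y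
    simpa using this
  rw [hx]
  have : ∀ v ∈ Finset.range N, t v • a (p v) = t v • a.linear (p v) + t v • a 0 := by
    intro v _
    rw [hx (p v), smul_add]
  rw [Finset.sum_congr rfl this, Finset.sum_add_distrib, ← Finset.sum_smul, hs, one_smul, map_sum]
  simp only [map_smul]

/-- the function `k - 1 - s x_i` -/
def lc {n : ℕ} (k : ℕ) (s : ℝ) (i : Fin n) : (Fin n → ℝ) →ᵃ[ℝ] ℝ where
  toFun x := (k : ℝ) - 1 - s * x i
  linear := (-s) • LinearMap.proj i
  map_vadd' := by
    intro p v
    simp only [vadd_eq_add, Pi.add_apply, LinearMap.smul_apply, LinearMap.proj_apply, smul_eq_mul]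
    ring

theorem lc_apply {n : ℕ} (k : ℕ) (s : ℝ) (i : Fin n) (x : Fin n → ℝ) :
    lc k s i x = (k : ℝ) - 1 - s * x i := rfl

theorem mem_Qk {n k : ℕ} {x : Fin n → ℝ} (h : ∀ i, 0 ≤ lc k 1 i x ∧ 0 ≤ lc k (-1) i x) :
    x ∈ Qk n k := by
  intro i
  have h1 := h i
  rw [lc_apply, lc_apply] at h1
  rw [abs_le]
  constructor <;> linarith

/-- the list of the functions `k - 1 ± x_i` -/
def L1 (n k : ℕ) : List ((Fin n → ℝ) →ᵃ[ℝ] ℝ) :=
  (List.finRange n).map (lc k 1) ++ (List.finRange n).map (lc k (-1))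

theorem mem_L1 {n k : ℕ} {l : (Fin n → ℝ) →ᵃ[ℝ] ℝ} :
    l ∈ L1 n k ↔ ∃ (s : ℝ) (i : Fin n), (s = 1 ∨ s = -1) ∧ l = lc k s i := by
  unfold L1
  rw [List.mem_append, List.mem_map, List.mem_map]
  constructor
  · rintro (⟨i, -, rfl⟩ | ⟨i, -, rfl⟩)
    · exact ⟨1, i, Or.inl rfl, rfl⟩
    · exact ⟨-1, i, Or.inr rfl, rfl⟩
  · rintro ⟨s, i, (rfl | rfl), rfl⟩
    · exact Or.inl ⟨i, List.mem_finRange i, rfl⟩
    · exact Or.inr ⟨i, List.mem_finRange i, rfl⟩

theorem rat_L1 {n k : ℕ} {l : (Fin n → ℝ) →ᵃ[ℝ] ℝ} (hl : l ∈ L1 n k) (x : Fin n → ℝ)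
    (hx : IsRat x) : ∃ q : ℚ, l x = q := by
  obtain ⟨s, i, hs, rfl⟩ := mem_L1.mp hl
  obtain ⟨q, hq⟩ := hx i
  rw [lc_apply]
  rcases hs with rfl | rfl
  · exact ⟨(k : ℚ) - 1 - 1 * q, by rw [hq]; push_cast; ring⟩
  · exact ⟨(k : ℚ) - 1 - (-1) * q, by rw [hq]; push_cast; ring⟩

/-- the open face spanned by the carrier of `x` -/
def cell {E : Type*} [AddCommGroup E] [Module ℝ E] (N : ℕ) (p : ℕ → E) (f : ℕ → ℝ) : Set E :=
  {y | ∃ t : ℕ → ℝ, (∀ v < N, 0 ≤ t v) ∧ (∀ v < N, t v ≠ 0 ↔ f v ≠ 0) ∧
    ∑ v ∈ Finset.range N, t v = 1 ∧ y = ∑ v ∈ Finset.range N, t v • p v}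

theorem cell_convex {E : Type*} [AddCommGroup E] [Module ℝ E] (N : ℕ) (p : ℕ → E)
    (f : ℕ → ℝ) : Convex ℝ (cell N p f) := by
  rintro x ⟨t, ht0, htf, hts, rfl⟩ y ⟨u, hu0, huf, hus, rfl⟩ a b ha hb hab
  refine ⟨fun v => a * t v + b * u v, fun v hv => ?_, fun v hv => ?_, ?_, ?_⟩
  · exact add_nonneg (mul_nonneg ha (ht0 v hv)) (mul_nonneg hb (hu0 v hv))
  · constructor
    · intro hne
      by_contra hf
      have e1 : t v = 0 := by
        by_contra hc
        exact (htf v hv).mp hc hf
      have e2 : u v = 0 := by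
        by_contra hc
        exact (huf v hv).mp hc hf
      exact hne (by simp only [e1, e2]; ring)
    · intro hf
      have e1 : 0 < t v := lt_of_le_of_ne (ht0 v hv) (Ne.symm ((htf v hv).mpr hf))
      have e2 : 0 < u v := lt_of_le_of_ne (hu0 v hv) (Ne.symm ((huf v hv).mpr hf))
      simp only
      rcases eq_or_lt_of_le ha with e | e
      · rw [← e] at hab ⊢
        rw [zero_add] at hab
        rw [hab]
        have : 0 < 0 * t v + 1 * u v := by linarith
        exact this.ne'
      · have : 0 < a * t v + b * u v := by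
          have e3 := mul_pos e e1
          have e4 := mul_nonneg hb e2.le
          linarith
        exact this.ne'
  · rw [Finset.sum_add_distrib, ← Finset.mul_sum, ← Finset.mul_sum, hts, hus, mul_one, mul_one,
      hab]
  · simp only [add_smul, Finset.sum_add_distrib, mul_smul, Finset.smul_sum]

/-- vertices of the carrier are in the closure of the cell -/
theorem vertex_mem_closure {E : Type*} [NormedAddCommGroup E] [NormedSpace ℝ E] {N : ℕ}
    {p : ℕ → E} {f : ℕ → ℝ} (hf0 : ∀ v < N, 0 ≤ f v) (hfs : ∑ v ∈ Finset.range N, f v = 1)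
    {v : ℕ} (hv : v < N) (hfv : f v ≠ 0) : p v ∈ closure (cell N p f) := by
  have h1 : openSegment ℝ (p v) (∑ w ∈ Finset.range N, f w • p w) ⊆ cell N p f := by
    rintro y ⟨a, b, ha, hb, hab, rfl⟩
    refine ⟨fun w => (if w = v then a else 0) + b * f w, fun w hw => ?_, fun w hw => ?_, ?_, ?_⟩
    · have := mul_nonneg hb.le (hf0 w hw)
      simp only
      split_ifs <;> linarith
    · constructor
      · intro hne hfw
        apply hne
        simp only
        have : w ≠ v := by
          rintro rfl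
          exact hfv hfw
        rw [if_neg this, hfw]
        ring
      · intro hfw
        have e1 : 0 < f w := lt_of_le_of_ne (hf0 w hw) (Ne.symm hfw)
        have e2 := mul_pos hb e1
        simp only
        split_ifs
        · exact (by linarith : (0 : ℝ) < a + b * f w).ne'
        · exact (by linarith : (0 : ℝ) < 0 + b * f w).ne'
    · rw [Finset.sum_add_distrib, ← Finset.mul_sum, hfs]
      simp [Finset.sum_ite_eq', hv, hab]
    · simp only [add_smul, Finset.sum_add_distrib, mul_smul, Finset.smul_sum, ite_smul, zero_smul,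
        Finset.sum_ite_eq', Finset.mem_range, hv, if_true]
  have h2 := closure_mono h1
  rw [closure_openSegment] at h2
  exact h2 (left_mem_segment ℝ _ _)

/-- in a good triangulation the sign of `l` on the carrier is constant -/
theorem good_sign {n : ℕ} {D : Set (Fin n → ℝ)} {N : ℕ} {p : ℕ → Fin n → ℝ}
    {φ : ℕ → (Fin n → ℝ) → ℝ} {Q : Set (Fin n → ℝ)} {l : (Fin n → ℝ) →ᵃ[ℝ] ℝ}
    (hg : GoodFor D N p φ Q l) {x : Fin n → ℝ} (hx : x ∈ D)
    (hQ : ∀ v < N, φ v x ≠ 0 → p v ∈ Q) {w : ℕ} (hw : w < N) (hwx : φ w x ≠ 0)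
    (hlw : 0 < l (p w)) : ∀ v < N, φ v x ≠ 0 → 0 ≤ l (p v) := by
  intro v hv hvx
  by_contra hc
  push Not at hc
  exact hg x hx w hw v hv hwx hvx (hQ w hw hwx) (hQ v hv hvx) ⟨hlw, hc⟩

end HatAd

open HatAd

theorem adapted {n : ℕ} {h : Equiv.Perm (Fin n → ℝ)} (hh : h ∈ PLc (Fin n → ℝ)) :
    ∃ (k N : ℕ) (p : ℕ → Fin n → ℝ) (φ : ℕ → (Fin n → ℝ) → ℝ), IsHT (Dk n k) N p φ ∧
      (∀ x ∈ Dk n k, h x = ∑ v ∈ Finset.range N, φ v x • h (p v)) ∧
      (∀ v < N, p v ∉ Qk n k → IsRat (p v) ∧ h (p v) = p v) ∧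
      (∀ x, x ∉ Dk n k → h x = x) := by
  obtain ⟨hpl, -, R, hR⟩ := hh
  obtain ⟨k, hk⟩ := exists_nat_gt (R + 1)
  have hfix : ∀ (y : Fin n → ℝ) (l : (Fin n → ℝ) →ᵃ[ℝ] ℝ), l ∈ L1 n k → l y ≤ 0 → h y = y := by
    intro y l hl hly
    obtain ⟨s, i, hs, rfl⟩ := mem_L1.mp hl
    rw [lc_apply] at hly
    apply hR
    have e1 : |y i| ≤ ‖y‖ := norm_le_pi_norm y i
    have e2 : s * y i ≤ |y i| := by
      rcases hs with rfl | rfl
      · rw [one_mul]; exact le_abs_self _
      · rw [neg_one_mul]; exact neg_le_abs _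
    linarith
  have hfixQ : ∀ y : Fin n → ℝ, y ∉ Qk n k → h y = y := by
    intro y hy
    by_contra hc
    apply hy
    apply mem_Qk
    intro i
    constructor
    · by_contra hcc
      push Not at hcc
      exact hc (hfix y (lc k 1 i) (mem_L1.mpr ⟨1, i, Or.inl rfl, rfl⟩) hcc.le)
    · by_contra hcc
      push Not at hcc
      exact hc (hfix y (lc k (-1) i) (mem_L1.mpr ⟨-1, i, Or.inr rfl, rfl⟩) hcc.le)
  obtain ⟨p0, φ0, hHT0, hrat0⟩ := init_HT n k
  obtain ⟨N1, p1, φ1, hHT1, -, -, -, hgood1, -, hrat1⟩ :=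
    subdivide (Dk_convex n k) (L1 n k) (convex_univ (𝕜 := ℝ) (E := Fin n → ℝ)) hHT0
  have hrat : ∀ v < N1, IsRat (p1 v) :=
    hrat1 (fun l hl x hx => rat_L1 hl x hx) hrat0
  obtain ⟨L2, hL2⟩ := exists_tests hpl
  obtain ⟨N, p, φ, hHT, hN, hpp, hpQ, hgood, hkeep, -⟩ :=
    subdivide (Dk_convex n k) L2 (Qk_convex n k) hHT1
  have hgood' : ∀ l ∈ L1 n k, GoodFor (Dk n k) N p φ Set.univ l := fun l hl =>
    hkeep _ l (Set.subset_univ _) (hgood1 l hl)
  refine ⟨k, N, p, φ, hHT, ?_, ?_, ?_⟩
  · intro x hx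
    have hsum := hHT.sum_one x hx
    have hbary := hHT.bary x hx
    have hval : ∀ l : (Fin n → ℝ) →ᵃ[ℝ] ℝ, l x = ∑ v ∈ Finset.range N, φ v x * l (p v) := by
      intro l
      have := aff_sum l N (fun v => φ v x) p hsum
      simp only [smul_eq_mul] at this
      rw [← this, hbary]
    by_cases hcase : ∃ l ∈ L1 n k, l x ≤ 0
    · obtain ⟨l, hl, hlx⟩ := hcase
      rw [hfix x l hl hlx]
      conv_lhs => rw [← hbary]
      refine Finset.sum_congr rfl fun v hv => ?_
      have hv' := Finset.mem_range.mp hv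
      by_cases hz : φ v x = 0
      · rw [hz, zero_smul, zero_smul]
      · rw [hfix (p v) l hl ?_]
        by_contra hc
        push Not at hc
        have hs := good_sign (hgood' l hl) hx (fun _ _ _ => Set.mem_univ _) hv' hz hc
        have e1 : φ v x * l (p v) ≤ ∑ w ∈ Finset.range N, φ w x * l (p w) := by
          refine Finset.single_le_sum (f := fun w => φ w x * l (p w)) (fun w hw => ?_) hv
          have hw' := Finset.mem_range.mp hw
          by_cases hz' : φ w x = 0
          · simp only [hz', zero_mul]; exact le_refl _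
          · exact mul_nonneg (hHT.nonneg w hw' x hx) (hs w hw' hz')
        have e2 : 0 < φ v x * l (p v) :=
          mul_pos (lt_of_le_of_ne (hHT.nonneg v hv' x hx) (Ne.symm hz)) hc
        rw [hval l] at hlx
        linarith
    · push Not at hcase
      have hQ : ∀ v < N, φ v x ≠ 0 → p v ∈ Qk n k := by
        intro v hv hvx
        have hpos : ∀ l ∈ L1 n k, 0 ≤ l (p v) := by
          intro l hl
          have h1 := hcase l hl
          rw [hval l] at h1
          obtain ⟨w, hw, hwp⟩ := Finset.exists_lt_of_sum_lt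
            (s := Finset.range N) (f := fun _ => (0 : ℝ)) (g := fun w => φ w x * l (p w))
            (by simpa using h1)
          have hw' := Finset.mem_range.mp hw
          have hwx : φ w x ≠ 0 := by
            intro hz
            rw [hz, zero_mul] at hwp
            exact lt_irrefl _ hwp
          have hlw : 0 < l (p w) := by
            by_contra hc
            push Not at hc
            have := mul_nonpos_of_nonneg_of_nonpos (hHT.nonneg w hw' x hx) hc
            linarith
          exact good_sign (hgood' l hl) hx (fun _ _ _ => Set.mem_univ _) hw' hwx hlw v hv hvx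
        exact mem_Qk fun i => ⟨hpos _ (mem_L1.mpr ⟨1, i, Or.inl rfl, rfl⟩),
          hpos _ (mem_L1.mpr ⟨-1, i, Or.inr rfl, rfl⟩)⟩
      have hxC : x ∈ cell N p (fun v => φ v x) :=
        ⟨fun v => φ v x, fun v hv => hHT.nonneg v hv x hx, fun v hv => Iff.rfl, hsum, hbary.symm⟩
      obtain ⟨a, ha⟩ := hL2 (cell N p (fun v => φ v x)) (cell_convex _ _ _) ⟨x, hxC⟩ (by
        intro l hl
        by_cases hp : ∃ w < N, φ w x ≠ 0 ∧ 0 < l (p w)
        · obtain ⟨w, hw, hwx, hlw⟩ := hp
          have hs := good_sign (hgood l hl) hx hQ hw hwx hlw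
          left
          rintro y ⟨t, ht0, htf, hts, rfl⟩
          rw [aff_sum l N t p hts]
          simp only [smul_eq_mul]
          have e1 : t w * l (p w) ≤ ∑ v ∈ Finset.range N, t v * l (p v) := by
            refine Finset.single_le_sum (f := fun v => t v * l (p v)) (fun v hv => ?_)
              (Finset.mem_range.mpr hw)
            have hv' := Finset.mem_range.mp hv
            by_cases hz' : t v = 0
            · simp only [hz', zero_mul]; exact le_refl _
            · exact mul_nonneg (ht0 v hv') (hs v hv' ((htf v hv').mp hz'))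
          have e2 : 0 < t w := lt_of_le_of_ne (ht0 w hw) (Ne.symm ((htf w hw).mpr hwx))
          have e3 := mul_pos e2 hlw
          linarith
        · push Not at hp
          by_cases hp' : ∃ w < N, φ w x ≠ 0 ∧ l (p w) < 0
          · obtain ⟨w, hw, hwx, hlw⟩ := hp'
            right; right
            rintro y ⟨t, ht0, htf, hts, rfl⟩
            rw [aff_sum l N t p hts]
            simp only [smul_eq_mul]
            have e1 : t w * (-l (p w)) ≤ ∑ v ∈ Finset.range N, t v * (-l (p v)) := by
              refine Finset.single_le_sum (f := fun v => t v * (-l (p v))) (fun v hv => ?_)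
                (Finset.mem_range.mpr hw)
              have hv' := Finset.mem_range.mp hv
              by_cases hz' : t v = 0
              · simp only [hz', zero_mul]; exact le_refl _
              · exact mul_nonneg (ht0 v hv')
                  (by have := hp v hv' ((htf v hv').mp hz'); linarith)
            have e2 : 0 < t w := lt_of_le_of_ne (ht0 w hw) (Ne.symm ((htf w hw).mpr hwx))
            have e3 := mul_pos e2 (neg_pos.mpr hlw)
            have e4 : ∑ v ∈ Finset.range N, t v * (-l (p v)) =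
                -∑ v ∈ Finset.range N, t v * l (p v) := by
              rw [← Finset.sum_neg_distrib]
              exact Finset.sum_congr rfl fun v _ => by ring
            linarith
          · push Not at hp'
            right; left
            rintro y ⟨t, ht0, htf, hts, rfl⟩
            rw [aff_sum l N t p hts]
            simp only [smul_eq_mul]
            refine Finset.sum_eq_zero fun v hv => ?_
            have hv' := Finset.mem_range.mp hv
            by_cases hz' : t v = 0
            · rw [hz', zero_mul]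
            · have hf := (htf v hv').mp hz'
              rw [le_antisymm (hp v hv' hf) (hp' v hv' hf), mul_zero])
      rw [ha x (subset_closure hxC)]
      conv_lhs => rw [← hbary]
      rw [aff_sum a N (fun v => φ v x) p hsum]
      refine Finset.sum_congr rfl fun v hv => ?_
      have hv' := Finset.mem_range.mp hv
      by_cases hz : φ v x = 0
      · simp only [hz, zero_smul]
      · rw [ha (p v) (vertex_mem_closure (f := fun v => φ v x)
          (fun w hw => hHT.nonneg w hw x hx) hsum hv' hz)]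
  · intro v hv hvQ
    refine ⟨?_, hfixQ _ hvQ⟩
    by_cases hv1 : v < N1
    · rw [hpp v hv1]
      exact hrat v hv1
    · exact absurd (hpQ v (by omega) hv) hvQ
  · intro x hx
    apply hfixQ
    intro hq
    exact hx (interior_subset (Qk_subset n k hq))

end PLH
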