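import Pool.Agent.Lib.MP_6a1069_gt.Defs2

/-!
HatStep: stellar subdivision of the edge `a b` at `m = (1-θ) p_a + θ p_b`, as a formula:
`φ'_N = min (φ_a/(1-θ)) (φ_b/θ)`, `φ'_a = φ_a - (1-θ) φ'_N`, `φ'_b = φ_b - θ φ'_N`, others equal.
-/

set_option linter.unusedSectionVars false

namespace PLH

namespace HatStep

variable {E : Type*} [NormedAddCommGroup E] [NormedSpace ℝ E]

/-- the new hat function -/
noncomputable def mm (φ : ℕ → E → ℝ) (a b : ℕ) (θ : ℝ) (x : E) : ℝ :=
  min (φ a x / (1 - θ)) (φ b x / θ)

/-- the new hat functions -/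
noncomputable def ph (N : ℕ) (φ : ℕ → E → ℝ) (a b : ℕ) (θ : ℝ) (v : ℕ) (x : E) : ℝ :=
  if v = N then mm φ a b θ x
  else φ v x - (if v = a then (1 - θ) * mm φ a b θ x else 0)
    - (if v = b then θ * mm φ a b θ x else 0)

theorem ph_N {N : ℕ} {φ : ℕ → E → ℝ} {a b : ℕ} {θ : ℝ} (x : E) :
    ph N φ a b θ N x = mm φ a b θ x := by simp [ph]

theorem ph_a {N : ℕ} {φ : ℕ → E → ℝ} {a b : ℕ} {θ : ℝ} (ha : a < N) (hab : a ≠ b) (x : E) :
    ph N φ a b θ a x = φ a x - (1 - θ) * mm φ a b θ x := by
  simp [ph, ha.ne, hab]

theorem ph_b {N : ℕ} {φ : ℕ → E → ℝ} {a b : ℕ} {θ : ℝ} (hb : b < N) (hab : a ≠ b) (x : E) :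
    ph N φ a b θ b x = φ b x - θ * mm φ a b θ x := by
  simp [ph, hb.ne, hab.symm]

theorem ph_o {N : ℕ} {φ : ℕ → E → ℝ} {a b : ℕ} {θ : ℝ} {v : ℕ} (hv : v < N) (ha : v ≠ a)
    (hb : v ≠ b) (x : E) : ph N φ a b θ v x = φ v x := by
  simp [ph, hv.ne, ha, hb]

theorem sum_ph {N : ℕ} {φ : ℕ → E → ℝ} {a b : ℕ} {θ : ℝ} (ha : a < N) (hb : b < N) (x : E)
    {F : Type*} [AddCommGroup F] [Module ℝ F] (q : ℕ → F) :
    ∑ v ∈ Finset.range N, ph N φ a b θ v x • q v =
      ∑ v ∈ Finset.range N, φ v x • q v - ((1 - θ) * mm φ a b θ x) • q a
        - (θ * mm φ a b θ x) • q b := by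
  have h1 : ∀ v ∈ Finset.range N, ph N φ a b θ v x • q v =
      φ v x • q v - (if v = a then ((1 - θ) * mm φ a b θ x) • q a else 0)
        - (if v = b then (θ * mm φ a b θ x) • q b else 0) := by
    intro v hv
    have hv' := Finset.mem_range.mp hv
    unfold ph
    rw [if_neg hv'.ne, sub_smul, sub_smul]
    congr 1
    · congr 1
      split_ifs with h
      · rw [h]
      · rw [zero_smul]
    · split_ifs with h
      · rw [h]
      · rw [zero_smul]
  rw [Finset.sum_congr rfl h1, Finset.sum_sub_distrib, Finset.sum_sub_distrib]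
  simp [Finset.sum_ite_eq', ha, hb]

end HatStep

open HatStep

theorem IsHT.stellar {E : Type*} [NormedAddCommGroup E] [NormedSpace ℝ E] {D : Set E}
    (hD : Convex ℝ D) {N : ℕ} {p : ℕ → E} {φ : ℕ → E → ℝ} (h : IsHT D N p φ) {a b : ℕ}
    (ha : a < N) (hb : b < N) (hab : a ≠ b) {θ : ℝ} (h0 : 0 < θ) (h1 : θ < 1) :
    ∃ (p' : ℕ → E) (φ' : ℕ → E → ℝ), IsHT D (N+1) p' φ' ∧ (∀ v < N, p' v = p v) ∧
      p' N = (1-θ) • p a + θ • p b ∧
      (∀ x ∈ D, ∀ v < N, φ' v x ≠ 0 → φ v x ≠ 0) ∧
      (∀ x ∈ D, φ' N x ≠ 0 → φ a x ≠ 0 ∧ φ b x ≠ 0) ∧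
      (∀ x ∈ D, φ' a x = 0 ∨ φ' b x = 0) := by
  have h2 : 0 < 1 - θ := by linarith
  have hmin : ∀ x ∈ D, φ a x = 0 ∨ φ b x = 0 → mm φ a b θ x = 0 := by
    intro x hx hz
    have e1 := h.nonneg a ha x hx
    have e2 := h.nonneg b hb x hx
    unfold mm
    rcases hz with hz | hz
    · rw [hz, zero_div]
      exact min_eq_left (by positivity)
    · rw [hz, zero_div]
      exact min_eq_right (by positivity)
  have hm0 : ∀ x ∈ D, 0 ≤ mm φ a b θ x := by
    intro x hx
    have e1 := h.nonneg a ha x hx
    have e2 := h.nonneg b hb x hx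
    exact le_min (by positivity) (by positivity)
  have hma : ∀ x, (1 - θ) * mm φ a b θ x ≤ φ a x := by
    intro x
    have := min_le_left (φ a x / (1 - θ)) (φ b x / θ)
    rw [le_div_iff₀ h2] at this
    unfold mm
    linarith
  have hmb : ∀ x, θ * mm φ a b θ x ≤ φ b x := by
    intro x
    have := min_le_right (φ a x / (1 - θ)) (φ b x / θ)
    rw [le_div_iff₀ h0] at this
    unfold mm
    linarith
  have hzero : ∀ x, ph N φ a b θ a x = 0 ∨ ph N φ a b θ b x = 0 := by
    intro x
    rw [ph_a ha hab, ph_b hb hab]
    rcases min_choice (φ a x / (1 - θ)) (φ b x / θ) with e | e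
    · left
      unfold mm
      rw [e]
      field_simp
      simp
    · right
      unfold mm
      rw [e]
      field_simp
      simp
  have hnonneg : ∀ v < N + 1, ∀ x ∈ D, 0 ≤ ph N φ a b θ v x := by
    intro v hv x hx
    by_cases hvN : v = N
    · rw [hvN, ph_N]; exact hm0 x hx
    have hv' : v < N := by omega
    by_cases hva : v = a
    · rw [hva, ph_a ha hab]
      linarith [hma x]
    by_cases hvb : v = b
    · rw [hvb, ph_b hb hab]
      linarith [hmb x]
    rw [ph_o hv' hva hvb]
    exact h.nonneg v hv' x hx
  have hp : ∀ v < N, Function.update p N ((1 - θ) • p a + θ • p b) v = p v := by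
    intro v hv
    exact Function.update_of_ne hv.ne _ _
  have hpN : Function.update p N ((1 - θ) • p a + θ • p b) N = (1 - θ) • p a + θ • p b :=
    Function.update_self _ _ _
  have hpl : IsPL (mm φ a b θ) := by
    unfold mm
    exact ((h.pl a ha).div_const _).min ((h.pl b hb).div_const _)
  refine ⟨Function.update p N ((1 - θ) • p a + θ • p b), ph N φ a b θ, ?_, hp, hpN, ?_, ?_,
    fun x _ => hzero x⟩
  · refine ⟨?_, ?_, hnonneg, ?_, ?_, ?_⟩
    · intro v hv
      by_cases hvN : v = N
      · rw [hvN]
        exact hpl.congr fun x => ph_N x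
      have hv' : v < N := by omega
      by_cases hva : v = a
      · rw [hva]
        exact ((h.pl a ha).sub (hpl.const_mul (1 - θ))).congr fun x => ph_a ha hab x
      by_cases hvb : v = b
      · rw [hvb]
        exact ((h.pl b hb).sub (hpl.const_mul θ)).congr fun x => ph_b hb hab x
      exact (h.pl v hv').congr fun x => ph_o hv' hva hvb x
    · intro v hv
      by_cases hvN : v = N
      · rw [hvN, hpN]
        exact hD (h.mem a ha) (h.mem b hb) h2.le h0.le (by ring)
      · rw [hp v (by omega)]
        exact h.mem v (by omega)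
    · intro x hx
      rw [Finset.sum_range_succ, ph_N]
      have e := sum_ph (N := N) (φ := φ) (θ := θ) ha hb x (fun _ => (1 : ℝ))
      simp only [smul_eq_mul, mul_one] at e
      rw [e, h.sum_one x hx]
      ring
    · intro x hx
      rw [Finset.sum_range_succ, ph_N, hpN]
      have e : ∑ v ∈ Finset.range N, ph N φ a b θ v x •
          Function.update p N ((1 - θ) • p a + θ • p b) v =
          ∑ v ∈ Finset.range N, ph N φ a b θ v x • p v := by
        refine Finset.sum_congr rfl fun v hv => ?_
        rw [hp v (Finset.mem_range.mp hv)]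
      rw [e, sum_ph ha hb, h.bary x hx, smul_add, smul_smul, smul_smul,
        mul_comm (mm φ a b θ x) (1 - θ), mul_comm (mm φ a b θ x) θ]
      abel
    · intro x hx t' ht0 ht1 hts
      set t : ℕ → ℝ := fun v => t' v + (if v = a then (1 - θ) * t' N else 0)
        + (if v = b then θ * t' N else 0) with ht
      have hta : t a = t' a + (1 - θ) * t' N := by simp [ht, hab]
      have htb : t b = t' b + θ * t' N := by simp [ht, hab.symm]
      have hto : ∀ v, v ≠ a → v ≠ b → t v = t' v := by
        intro v h1 h2
        simp [ht, h1, h2]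
      have hN0 : 0 ≤ t' N := ht0 N (by omega)
      have hab0 : t' a = 0 ∨ t' b = 0 := by
        rcases hzero x with e | e
        · left
          by_contra hc
          exact (hts a (by omega)).mp hc e
        · right
          by_contra hc
          exact (hts b (by omega)).mp hc e
      have hsup : ∀ v < N, t v ≠ 0 ↔ φ v x ≠ 0 := by
        intro v hv
        by_cases hva : v = a
        · subst hva
          rw [hta]
          have e1 := hts v (by omega)
          have e2 := hts N (by omega)
          rw [ph_a ha hab] at e1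
          rw [ph_N] at e2
          have e3 := ht0 v (by omega)
          have e4 := hm0 x hx
          have e5 := hma x
          constructor
          · intro hne hz
            have e6 := hmin x hx (Or.inl hz)
            have e7 : t' N = 0 := by
              by_contra hc
              exact e2.mp hc e6
            have e8 : t' v = 0 := by
              by_contra hc
              exact e1.mp hc (by rw [hz, e6]; ring)
            exact hne (by rw [e7, e8]; ring)
          · intro hne hz
            have e6 : t' v = 0 := by nlinarith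
            have e7 : t' N = 0 := by nlinarith
            have e8 : mm φ v b θ x = 0 := by
              by_contra hc
              exact (e2.mpr hc) e7
            have e9 : φ v x - (1 - θ) * mm φ v b θ x = 0 := by
              by_contra hc
              exact (e1.mpr hc) e6
            rw [e8, mul_zero, sub_zero] at e9
            exact hne e9
        by_cases hvb : v = b
        · subst hvb
          rw [htb]
          have e1 := hts v (by omega)
          have e2 := hts N (by omega)
          rw [ph_b hb hab] at e1
          rw [ph_N] at e2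
          have e3 := ht0 v (by omega)
          constructor
          · intro hne hz
            have e6 := hmin x hx (Or.inr hz)
            have e7 : t' N = 0 := by
              by_contra hc
              exact e2.mp hc e6
            have e8 : t' v = 0 := by
              by_contra hc
              exact e1.mp hc (by rw [hz, e6]; ring)
            exact hne (by rw [e7, e8]; ring)
          · intro hne hz
            have e6 : t' v = 0 := by nlinarith
            have e7 : t' N = 0 := by nlinarith
            have e8 : mm φ a v θ x = 0 := by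
              by_contra hc
              exact (e2.mpr hc) e7
            have e9 : φ v x - θ * mm φ a v θ x = 0 := by
              by_contra hc
              exact (e1.mpr hc) e6
            rw [e8, mul_zero, sub_zero] at e9
            exact hne e9
        rw [hto v hva hvb]
        have e1 := hts v (by omega)
        rw [ph_o hv hva hvb] at e1
        exact e1
      have htn : ∀ v < N, 0 ≤ t v := by
        intro v hv
        have e1 := ht0 v (by omega)
        have e2 : 0 ≤ (1 - θ) * t' N := by positivity
        have e3 : 0 ≤ θ * t' N := by positivity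
        simp only [ht]
        split_ifs <;> linarith
      have htsum : ∑ v ∈ Finset.range N, t v = 1 := by
        rw [Finset.sum_range_succ] at ht1
        simp only [ht]
        rw [Finset.sum_add_distrib, Finset.sum_add_distrib]
        simp only [Finset.sum_ite_eq', Finset.mem_range, ha, hb, if_true]
        linarith
      obtain ⟨y, hy, hyt⟩ := h.full x hx t htn htsum hsup
      refine ⟨y, hy, ?_⟩
      have hmy : mm φ a b θ y = t' N := by
        unfold mm
        rw [hyt a ha, hyt b hb, hta, htb, add_div, add_div, mul_div_cancel_left₀ _ h2.ne',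
          mul_div_cancel_left₀ _ h0.ne']
        have e1 : 0 ≤ t' a / (1 - θ) := div_nonneg (ht0 a (by omega)) h2.le
        have e2 : 0 ≤ t' b / θ := div_nonneg (ht0 b (by omega)) h0.le
        rcases hab0 with e | e
        · rw [e, zero_div, zero_add]
          exact min_eq_left (by linarith)
        · rw [e, zero_div, zero_add]
          exact min_eq_right (by linarith)
      intro v hv
      by_cases hvN : v = N
      · rw [hvN, ph_N, hmy]
      have hv' : v < N := by omega
      by_cases hva : v = a
      · rw [hva, ph_a ha hab, hmy, hyt a ha, hta]; ring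
      by_cases hvb : v = b
      · rw [hvb, ph_b hb hab, hmy, hyt b hb, htb]; ring
      rw [ph_o hv' hva hvb, hyt v hv', hto v hva hvb]
  · intro x hx v hv hne hz
    apply hne
    by_cases hva : v = a
    · rw [hva] at hz ⊢
      rw [ph_a ha hab, hz, hmin x hx (Or.inl hz)]; ring
    by_cases hvb : v = b
    · rw [hvb] at hz ⊢
      rw [ph_b hb hab, hz, hmin x hx (Or.inr hz)]; ring
    rw [ph_o hv hva hvb, hz]
  · intro x hx hne
    rw [ph_N] at hne
    exact ⟨fun hz => hne (hmin x hx (Or.inl hz)), fun hz => hne (hmin x hx (Or.inr hz))⟩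

end PLH
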