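import Pool.Agent.Lib.MP_6a1069_gt.HatStep

/-!
HatSub: subdivision along hyperplanes.
One `l`: bad pairs `(a,b)`, `a, b < N`, `p a, p b ∈ Q`, `0 < l (p a)`, `l (p b) < 0`, and some `x ∈ D`
with `φ_a x ≠ 0 ≠ φ_b x`.  Take a bad pair, `θ = l(p_a)/(l(p_a) - l(p_b))`, so `l (p' N) = 0`, and
`p' N ∈ Q` (convex).  After `IsHT.stellar` the pair is not bad any more, supports of old vertices
only shrink, the new vertex is in no bad pair (`l = 0`): the number of bad pairs drops (strong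
induction on the cardinality of the finite set of bad pairs in `range N ×ˢ range N`; the new ones are
a subset of the old ones minus `(a,b)`).
Preservation of `GoodFor Q' l'` for `Q ⊆ Q'`: a bad pair `(N, c)` for `l'` at `x`: `l'(p' N) > 0`
implies `l'(p_a) > 0` or `l'(p_b) > 0`, and `φ_a x ≠ 0`, `φ_b x ≠ 0`, so `(a,c)` or `(b,c)` was bad.
Then induction on the list `L`.  Rationality: `θ` is rational if `l (p a)`, `l (p b)` are.
-/

namespace PLH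

namespace HatSub

/-- bad pairs of vertices -/
def Bad {n : ℕ} (D : Set (Fin n → ℝ)) (p : ℕ → Fin n → ℝ) (φ : ℕ → (Fin n → ℝ) → ℝ)
    (Q : Set (Fin n → ℝ)) (l : (Fin n → ℝ) →ᵃ[ℝ] ℝ) (c : ℕ × ℕ) : Prop :=
  p c.1 ∈ Q ∧ p c.2 ∈ Q ∧ 0 < l (p c.1) ∧ l (p c.2) < 0 ∧ ∃ x ∈ D, φ c.1 x ≠ 0 ∧ φ c.2 x ≠ 0

/-- the finite set of bad pairs -/
noncomputable def bads {n : ℕ} (D : Set (Fin n → ℝ)) (N : ℕ) (p : ℕ → Fin n → ℝ)
    (φ : ℕ → (Fin n → ℝ) → ℝ) (Q : Set (Fin n → ℝ)) (l : (Fin n → ℝ) →ᵃ[ℝ] ℝ) :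
    Finset (ℕ × ℕ) :=
  haveI : DecidablePred (Bad D p φ Q l) := Classical.decPred _
  (Finset.range N ×ˢ Finset.range N).filter (Bad D p φ Q l)

theorem mem_bads {n : ℕ} {D : Set (Fin n → ℝ)} {N : ℕ} {p : ℕ → Fin n → ℝ}
    {φ : ℕ → (Fin n → ℝ) → ℝ} {Q : Set (Fin n → ℝ)} {l : (Fin n → ℝ) →ᵃ[ℝ] ℝ} {c : ℕ × ℕ} :
    c ∈ bads D N p φ Q l ↔ (c.1 < N ∧ c.2 < N) ∧ Bad D p φ Q l c := by
  unfold bads
  simp only [Finset.mem_filter, Finset.mem_product, Finset.mem_range]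

/-- one stellar subdivision keeps goodness -/
theorem keep {n : ℕ} {D : Set (Fin n → ℝ)} {N : ℕ} {p p' : ℕ → Fin n → ℝ}
    {φ φ' : ℕ → (Fin n → ℝ) → ℝ} {a b : ℕ} (ha : a < N) (hb : b < N) {θ : ℝ} (h0 : 0 < θ)
    (h1 : θ < 1) {Q : Set (Fin n → ℝ)} (haQ : p a ∈ Q) (hbQ : p b ∈ Q)
    (hp : ∀ v < N, p' v = p v) (hpN : p' N = (1-θ) • p a + θ • p b)
    (hs : ∀ x ∈ D, ∀ v < N, φ' v x ≠ 0 → φ v x ≠ 0)
    (hN : ∀ x ∈ D, φ' N x ≠ 0 → φ a x ≠ 0 ∧ φ b x ≠ 0)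
    (Q' : Set (Fin n → ℝ)) (l' : (Fin n → ℝ) →ᵃ[ℝ] ℝ) (hQ : Q ⊆ Q')
    (hg : GoodFor D N p φ Q' l') : GoodFor D (N+1) p' φ' Q' l' := by
  have hl : l' (p' N) = (1-θ) * l' (p a) + θ * l' (p b) := by
    rw [hpN]
    have := Convex.combo_affine_apply (f := l') (x := p a) (y := p b)
      (a := 1 - θ) (b := θ) (by ring)
    rw [this]
    rfl
  have h2 : 0 < 1 - θ := by linarith
  intro x hx c hc d hd hcx hdx hcQ hdQ hcd
  obtain ⟨hcl, hdl⟩ := hcd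
  by_cases hcN : c = N
  · subst hcN
    by_cases hdN : d = c
    · subst hdN
      linarith
    · have hd' : d < c := by omega
      rw [hl] at hcl
      rw [hp d hd'] at hdl hdQ
      obtain ⟨e1, e2⟩ := hN x hx hcx
      have e3 := hs x hx d hd' hdx
      by_cases e4 : 0 < l' (p a)
      · exact hg x hx a ha d hd' e1 e3 (hQ haQ) hdQ ⟨e4, hdl⟩
      · by_cases e5 : 0 < l' (p b)
        · exact hg x hx b hb d hd' e2 e3 (hQ hbQ) hdQ ⟨e5, hdl⟩
        · push Not at e4 e5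
          have e6 := mul_nonpos_of_nonneg_of_nonpos h2.le e4
          have e7 := mul_nonpos_of_nonneg_of_nonpos h0.le e5
          linarith
  · have hc' : c < N := by omega
    rw [hp c hc'] at hcl hcQ
    have e3 := hs x hx c hc' hcx
    by_cases hdN : d = N
    · subst hdN
      rw [hl] at hdl
      obtain ⟨e1, e2⟩ := hN x hx hdx
      by_cases e4 : l' (p a) < 0
      · exact hg x hx c hc' a ha e3 e1 hcQ (hQ haQ) ⟨hcl, e4⟩
      · by_cases e5 : l' (p b) < 0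
        · exact hg x hx c hc' b hb e3 e2 hcQ (hQ hbQ) ⟨hcl, e5⟩
        · push Not at e4 e5
          have e6 := mul_nonneg h2.le e4
          have e7 := mul_nonneg h0.le e5
          linarith
    · have hd' : d < N := by omega
      rw [hp d hd'] at hdl hdQ
      exact hg x hx c hc' d hd' e3 (hs x hx d hd' hdx) hcQ hdQ ⟨hcl, hdl⟩

theorem aux {n : ℕ} {D : Set (Fin n → ℝ)} (hD : Convex ℝ D) (l : (Fin n → ℝ) →ᵃ[ℝ] ℝ)
    {Q : Set (Fin n → ℝ)} (hQ : Convex ℝ Q) (m : ℕ) : ∀ {N : ℕ} {p : ℕ → Fin n → ℝ}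
    {φ : ℕ → (Fin n → ℝ) → ℝ}, IsHT D N p φ → (bads D N p φ Q l).card = m →
    ∃ (N' : ℕ) (p' : ℕ → Fin n → ℝ) (φ' : ℕ → (Fin n → ℝ) → ℝ), IsHT D N' p' φ' ∧ N ≤ N' ∧
      (∀ v < N, p' v = p v) ∧ (∀ v, N ≤ v → v < N' → p' v ∈ Q) ∧ GoodFor D N' p' φ' Q l ∧
      (∀ (Q' : Set (Fin n → ℝ)) (l' : (Fin n → ℝ) →ᵃ[ℝ] ℝ), Q ⊆ Q' →
        GoodFor D N p φ Q' l' → GoodFor D N' p' φ' Q' l') ∧
      ((∀ x, IsRat x → ∃ q : ℚ, l x = q) → (∀ v < N, IsRat (p v)) → ∀ v < N', IsRat (p' v)) := by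
  induction m using Nat.strong_induction_on with
  | _ m ih =>
  intro N p φ h hm
  by_cases hemp : bads D N p φ Q l = ∅
  · refine ⟨N, p, φ, h, le_refl _, fun v _ => rfl, fun v h1 h2 => absurd h1 (by omega), ?_,
      fun _ _ _ hg => hg, fun _ hr => hr⟩
    intro x hx a ha b hb hax hbx haQ hbQ hab
    have : ((a, b) : ℕ × ℕ) ∈ bads D N p φ Q l :=
      mem_bads.mpr ⟨⟨ha, hb⟩, haQ, hbQ, hab.1, hab.2, x, hx, hax, hbx⟩
    rw [hemp] at this
    exact absurd this (Finset.notMem_empty _)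
  · obtain ⟨⟨a, b⟩, hab⟩ := Finset.nonempty_iff_ne_empty.mpr hemp
    obtain ⟨⟨ha, hb⟩, haQ, hbQ, hla, hlb, -⟩ := mem_bads.mp hab
    simp only at ha hb haQ hbQ hla hlb
    have hne : a ≠ b := by
      rintro rfl
      linarith
    have hden : 0 < l (p a) - l (p b) := by linarith
    set θ : ℝ := l (p a) / (l (p a) - l (p b)) with hθ
    have h0 : 0 < θ := div_pos hla hden
    have h1 : θ < 1 := by
      rw [hθ, div_lt_one hden]; linarith
    obtain ⟨p1, φ1, hHT, hp1, hp1N, hs, hN, hz⟩ := h.stellar hD ha hb hne h0 h1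
    have hkeep := fun Q' l' hQ' hg => keep (Q := Q) ha hb h0 h1 haQ hbQ hp1 hp1N hs hN Q' l' hQ' hg
    have hlN : l (p1 N) = 0 := by
      rw [hp1N]
      have := Convex.combo_affine_apply (f := l) (x := p a) (y := p b)
        (a := 1 - θ) (b := θ) (by ring)
      rw [this]
      simp only [smul_eq_mul]
      rw [hθ]
      field_simp
      ring
    have hsub : bads D (N+1) p1 φ1 Q l ⊆ (bads D N p φ Q l).erase (a, b) := by
      rintro ⟨c, d⟩ hcd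
      obtain ⟨⟨hc, hd⟩, hcQ, hdQ, hlc, hld, x, hx, hcx, hdx⟩ := mem_bads.mp hcd
      simp only at hc hd hcQ hdQ hlc hld hcx hdx
      have hcN : c ≠ N := by
        rintro rfl
        rw [hlN] at hlc
        exact lt_irrefl _ hlc
      have hdN : d ≠ N := by
        rintro rfl
        rw [hlN] at hld
        exact lt_irrefl _ hld
      have hc' : c < N := by omega
      have hd' : d < N := by omega
      rw [hp1 c hc'] at hcQ hlc
      rw [hp1 d hd'] at hdQ hld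
      refine Finset.mem_erase.mpr ⟨?_, mem_bads.mpr ⟨⟨hc', hd'⟩, hcQ, hdQ, hlc, hld, x, hx,
        hs x hx c hc' hcx, hs x hx d hd' hdx⟩⟩
      intro heq
      rw [Prod.mk.injEq] at heq
      rcases hz x hx with e | e
      · exact hcx (by rw [heq.1]; exact e)
      · exact hdx (by rw [heq.2]; exact e)
    have hcard : (bads D (N+1) p1 φ1 Q l).card < m := by
      have e1 := Finset.card_le_card hsub
      have e2 := Finset.card_erase_lt_of_mem hab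
      omega
    obtain ⟨N', p', φ', g1, g2, g3, g4, g5, g6, g7⟩ := ih _ hcard hHT rfl
    refine ⟨N', p', φ', g1, by omega, ?_, ?_, g5, ?_, ?_⟩
    · intro v hv
      rw [g3 v (by omega), hp1 v hv]
    · intro v hv1 hv2
      by_cases hvN : v = N
      · subst hvN
        rw [g3 v (by omega), hp1N]
        exact hQ haQ hbQ (by linarith) h0.le (by ring)
      · exact g4 v (by omega) hv2
    · intro Q' l' hQ' hg
      exact g6 Q' l' hQ' (hkeep Q' l' hQ' hg)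
    · intro hr hrp
      refine g7 hr ?_
      intro v hv
      by_cases hvN : v = N
      · subst hvN
        intro i
        obtain ⟨q1, hq1⟩ := hr _ (hrp a ha)
        obtain ⟨q2, hq2⟩ := hr _ (hrp b hb)
        obtain ⟨r1, hr1⟩ := hrp a ha i
        obtain ⟨r2, hr2⟩ := hrp b hb i
        refine ⟨(1 - q1 / (q1 - q2)) * r1 + q1 / (q1 - q2) * r2, ?_⟩
        rw [hp1N]
        simp only [Pi.add_apply, Pi.smul_apply, smul_eq_mul]
        rw [hθ, hq1, hq2, hr1, hr2]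
        push_cast
        rfl
      · rw [hp1 v (by omega)]
        exact hrp v (by omega)

end HatSub

theorem subdivide1 {n : ℕ} {D : Set (Fin n → ℝ)} (hD : Convex ℝ D) (l : (Fin n → ℝ) →ᵃ[ℝ] ℝ)
    {Q : Set (Fin n → ℝ)} (hQ : Convex ℝ Q) {N : ℕ} {p : ℕ → Fin n → ℝ}
    {φ : ℕ → (Fin n → ℝ) → ℝ} (h : IsHT D N p φ) :
    ∃ (N' : ℕ) (p' : ℕ → Fin n → ℝ) (φ' : ℕ → (Fin n → ℝ) → ℝ), IsHT D N' p' φ' ∧ N ≤ N' ∧
      (∀ v < N, p' v = p v) ∧ (∀ v, N ≤ v → v < N' → p' v ∈ Q) ∧ GoodFor D N' p' φ' Q l ∧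
      (∀ (Q' : Set (Fin n → ℝ)) (l' : (Fin n → ℝ) →ᵃ[ℝ] ℝ), Q ⊆ Q' →
        GoodFor D N p φ Q' l' → GoodFor D N' p' φ' Q' l') ∧
      ((∀ x, IsRat x → ∃ q : ℚ, l x = q) → (∀ v < N, IsRat (p v)) → ∀ v < N', IsRat (p' v)) :=
  HatSub.aux hD l hQ _ h rfl

theorem subdivide {n : ℕ} {D : Set (Fin n → ℝ)} (hD : Convex ℝ D)
    (L : List ((Fin n → ℝ) →ᵃ[ℝ] ℝ)) {Q : Set (Fin n → ℝ)} (hQ : Convex ℝ Q) {N : ℕ}
    {p : ℕ → Fin n → ℝ} {φ : ℕ → (Fin n → ℝ) → ℝ} (h : IsHT D N p φ) :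
    ∃ (N' : ℕ) (p' : ℕ → Fin n → ℝ) (φ' : ℕ → (Fin n → ℝ) → ℝ), IsHT D N' p' φ' ∧ N ≤ N' ∧
      (∀ v < N, p' v = p v) ∧ (∀ v, N ≤ v → v < N' → p' v ∈ Q) ∧
      (∀ l ∈ L, GoodFor D N' p' φ' Q l) ∧
      (∀ (Q' : Set (Fin n → ℝ)) (l' : (Fin n → ℝ) →ᵃ[ℝ] ℝ), Q ⊆ Q' →
        GoodFor D N p φ Q' l' → GoodFor D N' p' φ' Q' l') ∧
      ((∀ l ∈ L, ∀ x, IsRat x → ∃ q : ℚ, l x = q) → (∀ v < N, IsRat (p v)) →
        ∀ v < N', IsRat (p' v)) := by
  induction L generalizing N p φ with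
  | nil =>
    exact ⟨N, p, φ, h, le_refl _, fun v _ => rfl, fun v h1 h2 => absurd h1 (by omega),
      fun l hl => absurd hl List.not_mem_nil, fun _ _ _ hg => hg, fun _ hr => hr⟩
  | cons l L ih =>
    obtain ⟨N1, p1, φ1, f1, f2, f3, f4, f5, f6, f7⟩ := subdivide1 hD l hQ h
    obtain ⟨N', p', φ', g1, g2, g3, g4, g5, g6, g7⟩ := ih f1
    refine ⟨N', p', φ', g1, by omega, ?_, ?_, ?_, ?_, ?_⟩
    · intro v hv
      rw [g3 v (by omega), f3 v hv]
    · intro v hv1 hv2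
      by_cases hvN : v < N1
      · rw [g3 v hvN]
        exact f4 v hv1 hvN
      · exact g4 v (by omega) hv2
    · intro l' hl'
      rcases List.mem_cons.mp hl' with e | e
      · rw [e]
        exact g6 Q l (fun _ hx => hx) f5
      · exact g5 l' e
    · intro Q' l' hQ' hg
      exact g6 Q' l' hQ' (f6 Q' l' hQ' hg)
    · intro hr hrp
      refine g7 (fun l' hl' => hr l' (List.mem_cons_of_mem _ hl')) ?_
      exact f7 (hr l List.mem_cons_self) hrp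

end PLH
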