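import Pool.Agent.Lib.MP_6a1069_gt.BaseGT
import Pool.Agent.Lib.MP_6a1069_gt.BaseLT
import Pool.Agent.Lib.MP_6a1069_gt.BaseEQ

/-!
Ind: induction on the number of lines.  First induction on `I` (for all `A'`, `β`, `α`, `J`, `A`),
then on `J`.  `pair_inf`: two lines of slopes `> m₀` : either equal slopes (the minimum is a line)
or there is a PL offset `γ` with  `A ⊓ C` replaced by one of them on each side of `Ln m₀ γ`:
slopes `m₁ > m₂ > m₀`, crossing `t = (c₂-c₁)/(m₁-m₂)`, `γ = c₁ + (m₁-m₀) t`; for all `s, t`: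
`s < m₀ t + γ → (s < A₁ ∧ s < A₂ ↔ s < A₁)` and `s > m₀ t + γ → (s < A₁ ∧ s < A₂ ↔ s < A₂)`.
Step: `I = C :: I'`; `foldr` with base `A'` over `C :: I'` = `foldr` over `I'` with base `C ⊓ A'`
(min is commutative/associative pointwise). Cut with `Ln m₀ γ`:
`(U, Ln m₀ β ⊓ Ln m₀ γ ⊓ ...)` with `Ln m₀ β ⊓ Ln m₀ γ = Ln m₀ (min β γ)` and base `A₁`;
`(U ⊔ Ln m₀ γ, ...)` with `Ln m₀ (max α γ)` and base `A₂`; `F.del_congr` for each, both regions are
contained in the given one, so bounded.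
-/

namespace PLH

variable {B : Type*} [NormedAddCommGroup B] [NormedSpace ℝ B]

/-- two lines `m₁ t + c₁`, `m₂ t + c₂` of slopes `m₀ < m₂ < m₁`, below the line of slope `m₀`
through their crossing -/
theorem ind_low {m₀ m₁ m₂ c₁ c₂ t s : ℝ} (h2 : m₀ < m₂) (h1 : m₂ < m₁)
    (hs : s < m₀ * t + (c₁ + (m₁ - m₀) * ((c₂ - c₁) / (m₁ - m₂)))) :
    (s < m₁ * t + c₁ → s < m₂ * t + c₂) ∧ (m₂ * t + c₂ < s → m₁ * t + c₁ < s) := by
  have hd : 0 < m₁ - m₂ := by linarith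
  set X := (c₂ - c₁) / (m₁ - m₂) with hX
  have hX' : (m₁ - m₂) * X = c₂ - c₁ := by rw [hX]; field_simp
  constructor
  · intro h
    rcases le_total t X with ht | ht
    · nlinarith
    · nlinarith
  · intro h
    have ht : t < X := by
      by_contra hc
      have hc' : X ≤ t := not_lt.1 hc
      nlinarith
    nlinarith

theorem ind_high {m₀ m₁ m₂ c₁ c₂ t s : ℝ} (h2 : m₀ < m₂) (h1 : m₂ < m₁)
    (hs : m₀ * t + (c₁ + (m₁ - m₀) * ((c₂ - c₁) / (m₁ - m₂))) < s) :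
    (s < m₂ * t + c₂ → s < m₁ * t + c₁) ∧ (m₁ * t + c₁ < s → m₂ * t + c₂ < s) := by
  have hd : 0 < m₁ - m₂ := by linarith
  set X := (c₂ - c₁) / (m₁ - m₂) with hX
  have hX' : (m₁ - m₂) * X = c₂ - c₁ := by rw [hX]; field_simp
  constructor
  · intro h
    have ht : X < t := by
      by_contra hc
      have hc' : t ≤ X := not_lt.1 hc
      nlinarith
    nlinarith
  · intro h
    rcases le_total t X with ht | ht
    · nlinarith
    · nlinarith

theorem ind_off {m₀ m₁ m₂ : ℝ} {c₁ c₂ : B → ℝ} (h1 : IsPL c₁) (h2 : IsPL c₂) :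
    IsPL (fun b => c₁ b + (m₁ - m₀) * ((c₂ b - c₁ b) / (m₁ - m₂))) :=
  h1.add (((h2.sub h1).div_const _).const_mul _)

theorem pair_inf {m₀ : ℝ} {A C : B → P} (h0 : 0 < m₀) (hA : IsLn m₀ A) (hC : IsLn m₀ C) :
    IsLn m₀ (A ⊓ C) ∨ ∃ γ : B → ℝ, IsPL γ ∧ ∃ A₁ A₂ : B → P, IsLn m₀ A₁ ∧ IsLn m₀ A₂ ∧
      (∀ b t s, s < m₀ * t + γ b → ((s < A b t ∧ s < C b t) ↔ s < A₁ b t)) ∧
      (∀ b t s, m₀ * t + γ b < s → ((s < A b t ∧ s < C b t) ↔ s < A₂ b t)) := by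
  obtain ⟨m, c, hm, hc, rfl⟩ := hA
  obtain ⟨m', c', hm', hc', rfl⟩ := hC
  have hp : 0 < m := h0.trans hm
  have hp' : 0 < m' := h0.trans hm'
  rcases lt_trichotomy m m' with h | h | h
  · right
    refine ⟨_, ind_off (m₀ := m₀) (m₁ := m') (m₂ := m) hc' hc, Ln m' c', Ln m c,
      ⟨m', c', hm', hc', rfl⟩, ⟨m, c, hm, hc, rfl⟩, fun b t s hs => ?_, fun b t s hs => ?_⟩
    · rw [Ln_apply hp, Ln_apply hp']
      exact ⟨fun h => h.2, fun h' => ⟨(ind_low hm h hs).1 h', h'⟩⟩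
    · rw [Ln_apply hp, Ln_apply hp']
      exact ⟨fun h => h.1, fun h' => ⟨h', (ind_high hm h hs).1 h'⟩⟩
  · left
    subst h
    refine ⟨m, fun b => Min.min (c b) (c' b), hm, hc.min hc', ?_⟩
    apply fam_ext
    intro b t
    show Min.min (Ln m c b t) (Ln m c' b t) = _
    rw [Ln_apply hp, Ln_apply hp, Ln_apply hp, min_add_add_left]
  · right
    refine ⟨_, ind_off (m₀ := m₀) (m₁ := m) (m₂ := m') hc hc', Ln m c, Ln m' c',
      ⟨m, c, hm, hc, rfl⟩, ⟨m', c', hm', hc', rfl⟩, fun b t s hs => ?_, fun b t s hs => ?_⟩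
    · rw [Ln_apply hp, Ln_apply hp']
      exact ⟨fun h => h.1, fun h' => ⟨h', (ind_low hm' h hs).1 h'⟩⟩
    · rw [Ln_apply hp, Ln_apply hp']
      exact ⟨fun h => h.2, fun h' => ⟨(ind_high hm' h hs).1 h', h'⟩⟩

theorem pair_sup {m₀ : ℝ} {A C : B → P} (h0 : 0 < m₀) (hA : IsLn m₀ A) (hC : IsLn m₀ C) :
    IsLn m₀ (A ⊔ C) ∨ ∃ γ : B → ℝ, IsPL γ ∧ ∃ A₁ A₂ : B → P, IsLn m₀ A₁ ∧ IsLn m₀ A₂ ∧
      (∀ b t s, s < m₀ * t + γ b → ((A b t < s ∧ C b t < s) ↔ A₁ b t < s)) ∧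
      (∀ b t s, m₀ * t + γ b < s → ((A b t < s ∧ C b t < s) ↔ A₂ b t < s)) := by
  obtain ⟨m, c, hm, hc, rfl⟩ := hA
  obtain ⟨m', c', hm', hc', rfl⟩ := hC
  have hp : 0 < m := h0.trans hm
  have hp' : 0 < m' := h0.trans hm'
  rcases lt_trichotomy m m' with h | h | h
  · right
    refine ⟨_, ind_off (m₀ := m₀) (m₁ := m') (m₂ := m) hc' hc, Ln m c, Ln m' c',
      ⟨m, c, hm, hc, rfl⟩, ⟨m', c', hm', hc', rfl⟩, fun b t s hs => ?_, fun b t s hs => ?_⟩
    · rw [Ln_apply hp, Ln_apply hp']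
      exact ⟨fun h => h.1, fun h' => ⟨h', (ind_low hm h hs).2 h'⟩⟩
    · rw [Ln_apply hp, Ln_apply hp']
      exact ⟨fun h => h.2, fun h' => ⟨(ind_high hm h hs).2 h', h'⟩⟩
  · left
    subst h
    refine ⟨m, fun b => Max.max (c b) (c' b), hm, hc.max hc', ?_⟩
    apply fam_ext
    intro b t
    show Max.max (Ln m c b t) (Ln m c' b t) = _
    rw [Ln_apply hp, Ln_apply hp, Ln_apply hp, max_add_add_left]
  · right
    refine ⟨_, ind_off (m₀ := m₀) (m₁ := m) (m₂ := m') hc hc', Ln m' c', Ln m c,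
      ⟨m', c', hm', hc', rfl⟩, ⟨m, c, hm, hc, rfl⟩, fun b t s hs => ?_, fun b t s hs => ?_⟩
    · rw [Ln_apply hp, Ln_apply hp']
      exact ⟨fun h => h.2, fun h' => ⟨(ind_low hm' h hs).2 h', h'⟩⟩
    · rw [Ln_apply hp, Ln_apply hp']
      exact ⟨fun h => h.1, fun h' => ⟨h', (ind_high hm' h hs).2 h'⟩⟩

theorem base_case [FiniteDimensional ℝ B] {m₀ : ℝ} (h0 : 0 < m₀) {A A' : B → P}
    (hA : IsLn m₀ A) (hA' : IsLn m₀ A') {α β : B → ℝ} (hα : IsPL α) (hβ : IsPL β)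
    (h : BddReg (Ln m₀ α ⊔ A) (Ln m₀ β ⊓ A')) :
    del (Ln m₀ α ⊔ A) (Ln m₀ β ⊓ A') ∈ NN B := by
  obtain ⟨m, c, hm, hc, rfl⟩ := hA
  obtain ⟨m', c', hm', hc', rfl⟩ := hA'
  rcases lt_trichotomy m m' with h1 | h1 | h1
  · exact base_gt h0 hm h1 hα hβ hc hc' h
  · subst h1
    exact base_eq h0 hm hα hβ hc hc' h
  · exact base_lt h0 hm' h1 hα hβ hc hc' h

theorem ind_sup_apply (U W : B → P) (b : B) (t : ℝ) :
    (U ⊔ W) b t = Max.max (U b t) (W b t) := rfl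

theorem ind_inf_apply (U W : B → P) (b : B) (t : ℝ) :
    (U ⊓ W) b t = Min.min (U b t) (W b t) := rfl

theorem ind_foldr_sup (J : List (B → P)) (A : B → P) (b : B) (t s : ℝ) :
    (J.foldr (· ⊔ ·) A) b t < s ↔ (∀ C ∈ J, C b t < s) ∧ A b t < s := by
  induction J with
  | nil => simp
  | cons C J ih =>
    rw [List.foldr_cons, ind_sup_apply, max_lt_iff, ih, List.forall_mem_cons, and_assoc]

theorem ind_foldr_inf (J : List (B → P)) (A : B → P) (b : B) (t s : ℝ) :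
    s < (J.foldr (· ⊓ ·) A) b t ↔ (∀ C ∈ J, s < C b t) ∧ s < A b t := by
  induction J with
  | nil => simp
  | cons C J ih =>
    rw [List.foldr_cons, ind_inf_apply, lt_min_iff, ih, List.forall_mem_cons, and_assoc]

theorem ind_mono {U W U' W' : B → P} (h : BddReg U W)
    (hs : ∀ b t s, U' b t < s ∧ s < W' b t → U b t < s ∧ s < W b t) : BddReg U' W' := by
  refine h.mono fun b t hbt => ?_
  obtain ⟨s, hs1, hs2⟩ := exists_between hbt
  have := hs b t s ⟨hs1, hs2⟩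
  exact this.1.trans this.2

theorem lists_mem [FiniteDimensional ℝ B] {m₀ : ℝ} (h0 : 0 < m₀) (J I : List (B → P))
    (hJ : ∀ A ∈ J, IsLn m₀ A) (hI : ∀ A ∈ I, IsLn m₀ A) {A A' : B → P}
    (hA : IsLn m₀ A) (hA' : IsLn m₀ A') {α β : B → ℝ} (hα : IsPL α) (hβ : IsPL β)
    (h : BddReg (Ln m₀ α ⊔ J.foldr (· ⊔ ·) A) (Ln m₀ β ⊓ I.foldr (· ⊓ ·) A')) :
    del (Ln m₀ α ⊔ J.foldr (· ⊔ ·) A) (Ln m₀ β ⊓ I.foldr (· ⊓ ·) A') ∈ NN B := by
  induction J generalizing A A' α β with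
  | nil =>
    induction I generalizing A A' α β with
    | nil => exact base_case h0 hA hA' hα hβ h
    | cons C I ih =>
      have hI' : ∀ A ∈ I, IsLn m₀ A := fun A hA => hI A (List.mem_cons_of_mem _ hA)
      have hC : IsLn m₀ C := hI C List.mem_cons_self
      rcases pair_inf h0 hC hA' with hl | ⟨γ, hγ, A₁, A₂, hA₁, hA₂, hlo, hhi⟩
      · have hS : SameReg (Ln m₀ α ⊔ A) (Ln m₀ β ⊓ I.foldr (· ⊓ ·) (C ⊓ A'))
            (Ln m₀ α ⊔ A) (Ln m₀ β ⊓ (C :: I).foldr (· ⊓ ·) A') := by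
          intro b t s
          rw [ind_inf_apply, ind_inf_apply, lt_min_iff, lt_min_iff, ind_foldr_inf, ind_foldr_inf,
            ind_inf_apply, lt_min_iff, List.forall_mem_cons]
          tauto
        rw [List.foldr_nil, ← F.del_congr hS]
        exact ih hI' hA hl hα hβ (hS.symm.bddReg h)
      · rw [F.del_cut _ _ (Ln m₀ γ)]
        have hS1 : SameReg (Ln m₀ α ⊔ A) (Ln m₀ (fun b => Min.min (β b) (γ b)) ⊓
            I.foldr (· ⊓ ·) A₁) (Ln m₀ α ⊔ A)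
            ((Ln m₀ β ⊓ (C :: I).foldr (· ⊓ ·) A') ⊓ Ln m₀ γ) := by
          intro b t s
          rw [ind_inf_apply, ind_inf_apply, ind_inf_apply, lt_min_iff, lt_min_iff, lt_min_iff,
            ind_foldr_inf, ind_foldr_inf, List.forall_mem_cons, Ln_apply h0, Ln_apply h0,
            Ln_apply h0, ← min_add_add_left, lt_min_iff]
          have := hlo b t s
          tauto
        have hS2 : SameReg (Ln m₀ (fun b => Max.max (α b) (γ b)) ⊔ A)
            (Ln m₀ β ⊓ I.foldr (· ⊓ ·) A₂) ((Ln m₀ α ⊔ A) ⊔ Ln m₀ γ)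
            (Ln m₀ β ⊓ (C :: I).foldr (· ⊓ ·) A') := by
          intro b t s
          rw [ind_inf_apply, ind_inf_apply, lt_min_iff, lt_min_iff, ind_sup_apply, ind_sup_apply,
            ind_sup_apply, max_lt_iff, max_lt_iff, max_lt_iff,
            ind_foldr_inf, ind_foldr_inf, List.forall_mem_cons, Ln_apply h0, Ln_apply h0,
            Ln_apply h0, Ln_apply h0, ← max_add_add_left, max_lt_iff]
          have := hhi b t s
          tauto
        refine mul_mem ?_ ?_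
        · rw [List.foldr_nil, ← F.del_congr hS1]
          refine ih hI' hA hA₁ hα (hβ.min hγ) (hS1.symm.bddReg (ind_mono h fun b t s hs => ?_))
          refine ⟨hs.1, ?_⟩
          have h2 := hs.2
          rw [ind_inf_apply, lt_min_iff] at h2
          exact h2.1
        · rw [List.foldr_nil, ← F.del_congr hS2]
          refine ih hI' hA hA₂ (hα.max hγ) hβ (hS2.symm.bddReg (ind_mono h fun b t s hs => ?_))
          refine ⟨?_, hs.2⟩
          have h2 := hs.1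
          rw [ind_sup_apply, max_lt_iff] at h2
          exact h2.1
  | cons C J ih =>
    have hJ' : ∀ A ∈ J, IsLn m₀ A := fun A hA => hJ A (List.mem_cons_of_mem _ hA)
    have hC : IsLn m₀ C := hJ C List.mem_cons_self
    rcases pair_sup h0 hC hA with hl | ⟨γ, hγ, A₁, A₂, hA₁, hA₂, hlo, hhi⟩
    · have hS : SameReg (Ln m₀ α ⊔ J.foldr (· ⊔ ·) (C ⊔ A)) (Ln m₀ β ⊓ I.foldr (· ⊓ ·) A')
          (Ln m₀ α ⊔ (C :: J).foldr (· ⊔ ·) A) (Ln m₀ β ⊓ I.foldr (· ⊓ ·) A') := by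
        intro b t s
        rw [ind_sup_apply, ind_sup_apply, max_lt_iff, max_lt_iff, ind_foldr_sup, ind_foldr_sup,
          ind_sup_apply, max_lt_iff, List.forall_mem_cons]
        tauto
      rw [← F.del_congr hS]
      exact ih hJ' hl hA' hα hβ (hS.symm.bddReg h)
    · rw [F.del_cut _ _ (Ln m₀ γ)]
      have hS1 : SameReg (Ln m₀ α ⊔ J.foldr (· ⊔ ·) A₁) (Ln m₀ (fun b => Min.min (β b) (γ b)) ⊓
          I.foldr (· ⊓ ·) A') (Ln m₀ α ⊔ (C :: J).foldr (· ⊔ ·) A)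
          ((Ln m₀ β ⊓ I.foldr (· ⊓ ·) A') ⊓ Ln m₀ γ) := by
        intro b t s
        rw [ind_inf_apply, ind_inf_apply, ind_inf_apply, lt_min_iff, lt_min_iff, lt_min_iff,
          ind_sup_apply, ind_sup_apply, max_lt_iff, max_lt_iff,
          ind_foldr_sup, ind_foldr_sup, List.forall_mem_cons, Ln_apply h0, Ln_apply h0,
          Ln_apply h0, Ln_apply h0, ← min_add_add_left, lt_min_iff]
        have := hlo b t s
        tauto
      have hS2 : SameReg (Ln m₀ (fun b => Max.max (α b) (γ b)) ⊔ J.foldr (· ⊔ ·) A₂)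
          (Ln m₀ β ⊓ I.foldr (· ⊓ ·) A') ((Ln m₀ α ⊔ (C :: J).foldr (· ⊔ ·) A) ⊔ Ln m₀ γ)
          (Ln m₀ β ⊓ I.foldr (· ⊓ ·) A') := by
        intro b t s
        rw [ind_sup_apply, ind_sup_apply, ind_sup_apply, max_lt_iff, max_lt_iff, max_lt_iff,
          ind_foldr_sup, ind_foldr_sup, List.forall_mem_cons, Ln_apply h0, Ln_apply h0,
          Ln_apply h0, ← max_add_add_left, max_lt_iff]
        have := hhi b t s
        tauto
      refine mul_mem ?_ ?_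
      · rw [← F.del_congr hS1]
        refine ih hJ' hA₁ hA' hα (hβ.min hγ) (hS1.symm.bddReg (ind_mono h fun b t s hs => ?_))
        refine ⟨hs.1, ?_⟩
        have h2 := hs.2
        rw [ind_inf_apply, lt_min_iff] at h2
        exact h2.1
      · rw [← F.del_congr hS2]
        refine ih hJ' hA₂ hA' (hα.max hγ) hβ (hS2.symm.bddReg (ind_mono h fun b t s hs => ?_))
        refine ⟨?_, hs.2⟩
        have h2 := hs.1
        rw [ind_sup_apply, max_lt_iff] at h2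
        exact h2.1

end PLH
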