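import Pool.Agent.Lib.MP_6a1069_gt.Defs

/-!
Inv: the inverse of a PL homeomorphism is PL.
`isPL_symm`: `S` the finite set of `h`.  The closed sets `C_a = {x | h x = a x}` cover `E`, so
`⋃ interior C_a` is dense (`dense_iUnion_interior_of_closed`), and since there are finitely many
`C_a`, every `x` is in the closure of the interior of some `C_a`, in particular `h x = a x` and
`interior C_a ≠ ∅`; then `a` is injective on an open set, so `a.linear` is injective, hence `a` is
an affine automorphism of `E` (finite dimension).  The inverses of these `a` select `h.symm`.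
`inv_PL`: the map `(b,t) ↦ (b, F b t)` is a PL bijection of `B × ℝ`; its inverse
`(b,s) ↦ (b, (F b)⁻¹ s)` is continuous: for `ε > 0`, `F b (t-ε) < s < F b (t+ε)` persists for nearby
`(b', s')`.
`exists_family`: `f(b, ·)` is strictly increasing and continuous and equal to `t` for large `|t|`,
so surjective: `StrictMono.orderIsoOfSurjective`.
-/

namespace PLH

theorem isPL_symm {E : Type*} [NormedAddCommGroup E] [NormedSpace ℝ E] [FiniteDimensional ℝ E]
    (h : Equiv.Perm E) (hh : IsPL (h : E → E)) (hc : Continuous (⇑h⁻¹ : E → E)) :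
    IsPL (⇑h⁻¹ : E → E) := by
  classical
  obtain ⟨hhc, S, hS, hS'⟩ := hh
  set K : (E →ᵃ[ℝ] E) → Set E := fun a => {x | h x = a x} with hK
  have hKc : ∀ a ∈ S, IsClosed (K a) := fun a _ =>
    isClosed_eq hhc a.continuous_of_finiteDimensional
  have hKu : ⋃ a ∈ S, K a = Set.univ := by
    refine Set.eq_univ_of_forall fun x => ?_
    obtain ⟨a, ha, hax⟩ := hS' x
    exact Set.mem_biUnion ha hax
  have hcomplete : CompleteSpace E := FiniteDimensional.complete ℝ E
  have hdense := dense_biUnion_interior_of_closed hKc hS.countable hKu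
  -- pieces with interior are bijective
  have hbij : ∀ a ∈ S, (interior (K a)).Nonempty → Function.Bijective a := by
    intro a _ ⟨x₀, hx₀⟩
    have hinj : Function.Injective a.linear := by
      rw [← LinearMap.ker_eq_bot, LinearMap.ker_eq_bot']
      intro v hv
      by_contra hv0
      have hcont : Continuous fun t : ℝ => x₀ + t • v := by fun_prop
      have hev : ∀ᶠ t in nhds (0 : ℝ), x₀ + t • v ∈ interior (K a) := by
        refine hcont.continuousAt.eventually (isOpen_interior.mem_nhds ?_)
        simpa using hx₀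
      have hev2 : ∀ᶠ t in nhdsWithin (0 : ℝ) {0}ᶜ, x₀ + t • v ∈ interior (K a) :=
        hev.filter_mono nhdsWithin_le_nhds
      obtain ⟨t, ht, ht0⟩ := (hev2.and self_mem_nhdsWithin).exists
      have ht' : x₀ + t • v ∈ K a := interior_subset ht
      have hx₀' : x₀ ∈ K a := interior_subset hx₀
      have h1 : h (x₀ + t • v) = a (x₀ + t • v) := ht'
      have h2 : h x₀ = a x₀ := hx₀'
      have h3 : a (x₀ + t • v) = a x₀ := by
        have := a.map_vadd x₀ (t • v)
        rw [vadd_eq_add, vadd_eq_add, map_smul, hv, smul_zero, zero_add, add_comm] at this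
        exact this
      have h4 : x₀ + t • v = x₀ := h.injective (by rw [h1, h2, h3])
      have h5 : t • v = 0 := by simpa using h4
      rcases smul_eq_zero.1 h5 with h6 | h6
      · exact ht0 h6
      · exact hv0 h6
    rw [← AffineMap.linear_bijective_iff]
    exact ⟨hinj, LinearMap.injective_iff_surjective.1 hinj⟩
  set inv : (E →ᵃ[ℝ] E) → (E →ᵃ[ℝ] E) := fun a =>
    if hb : Function.Bijective a then ((AffineEquiv.ofBijective hb).symm : E →ᵃ[ℝ] E) else a
    with hinv
  refine ⟨hc, inv '' S, hS.image _, fun y => ?_⟩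
  have hx := hdense (h⁻¹ y)
  have hcl : closure (⋃ a ∈ S, interior (K a)) = ⋃ a ∈ S, closure (interior (K a)) :=
    hS.closure_biUnion _
  rw [hcl] at hx
  obtain ⟨a, ha, hxa⟩ := Set.mem_iUnion₂.1 hx
  have hne : (interior (K a)).Nonempty := by
    rw [← closure_nonempty_iff]
    exact ⟨_, hxa⟩
  have hxK : h (h⁻¹ y) = a (h⁻¹ y) :=
    (closure_minimal interior_subset (hKc a ha)) hxa
  have hb := hbij a ha hne
  refine ⟨inv a, ⟨a, ha, rfl⟩, ?_⟩
  have h1 : h (h⁻¹ y) = y := h.apply_symm_apply y
  have h2 : inv a = ((AffineEquiv.ofBijective hb).symm : E →ᵃ[ℝ] E) := by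
    simp only [hinv, dif_pos hb]
  have h3 : (AffineEquiv.ofBijective hb) (h⁻¹ y) = y := by
    rw [AffineEquiv.ofBijective_apply, ← hxK, h1]
  rw [h2]
  show h⁻¹ y = (AffineEquiv.ofBijective hb).symm y
  rw [AffineEquiv.eq_symm_apply, h3]

variable {B : Type*} [NormedAddCommGroup B] [NormedSpace ℝ B] [FiniteDimensional ℝ B]

omit [NormedSpace ℝ B] [FiniteDimensional ℝ B] in
theorem continuous_fn_inv (F : B → P) (h : Continuous (fn F)) : Continuous (fn F⁻¹) := by
  rw [continuous_iff_continuousAt]
  rintro ⟨b₀, s₀⟩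
  have hval : fn F⁻¹ (b₀, s₀) = (F b₀)⁻¹ s₀ := rfl
  rw [ContinuousAt, hval, tendsto_order]
  have hc : ∀ t : ℝ, Continuous fun x : B × ℝ => F x.1 t - x.2 := fun t => by
    have h1 : Continuous fun x : B × ℝ => fn F (x.1, t) :=
      h.comp (continuous_fst.prodMk continuous_const)
    exact h1.sub continuous_snd
  have hs : F b₀ ((F b₀)⁻¹ s₀) = s₀ := (F b₀).apply_symm_apply s₀
  constructor
  · intro t ht
    have h1 : F b₀ t - s₀ < 0 := by
      have := (F b₀).strictMono ht
      rw [hs] at this
      linarith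
    have h2 := (hc t).continuousAt.eventually_lt (x₀ := (b₀, s₀))
      (continuousAt_const (y := (0 : ℝ))) h1
    filter_upwards [h2] with x hx
    show t < (F x.1)⁻¹ x.2
    have h3 : F x.1 ((F x.1)⁻¹ x.2) = x.2 := (F x.1).apply_symm_apply x.2
    rw [← (F x.1).lt_iff_lt, h3]
    linarith
  · intro t ht
    have h1 : 0 < F b₀ t - s₀ := by
      have := (F b₀).strictMono ht
      rw [hs] at this
      linarith
    have h2 := (continuousAt_const (y := (0 : ℝ))).eventually_lt (x₀ := (b₀, s₀))
      (hc t).continuousAt h1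
    filter_upwards [h2] with x hx
    show (F x.1)⁻¹ x.2 < t
    have h3 : F x.1 ((F x.1)⁻¹ x.2) = x.2 := (F x.1).apply_symm_apply x.2
    rw [← (F x.1).lt_iff_lt, h3]
    linarith

/-- The homeomorphism of the total space of a family. -/
def totalPerm (F : B → P) : Equiv.Perm (B × ℝ) where
  toFun x := (x.1, F x.1 x.2)
  invFun x := (x.1, (F x.1)⁻¹ x.2)
  left_inv x := by
    refine Prod.ext rfl ?_
    exact (F x.1).symm_apply_apply x.2
  right_inv x := by
    refine Prod.ext rfl ?_
    exact (F x.1).apply_symm_apply x.2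

theorem inv_PL (F : B → P) (h : IsPL (fn F)) : IsPL (fn F⁻¹) := by
  have h1 : IsPL (totalPerm F : B × ℝ → B × ℝ) := (IsPL.fst.prodMk h).congr fun _ => rfl
  have h2 : Continuous (⇑(totalPerm F)⁻¹ : B × ℝ → B × ℝ) :=
    continuous_fst.prodMk (continuous_fn_inv F h.continuous)
  exact (IsPL.snd.comp (isPL_symm (totalPerm F) h1 h2)).congr fun _ => rfl

theorem exists_family (f : B × ℝ → ℝ) (hf : IsPL f) (hm : ∀ b, StrictMono (fun t => f (b, t)))
    (R : ℝ) (hR : ∀ x : B × ℝ, R < ‖x‖ → f x = x.2) : ∃ F ∈ VV B, fn F = f := by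
  have hnorm : ∀ (b : B) (t : ℝ), |t| ≤ ‖((b, t) : B × ℝ)‖ := fun b t => by
    rw [← Real.norm_eq_abs]; exact norm_snd_le (b, t)
  have hsurj : ∀ b, Function.Surjective fun t => f (b, t) := by
    intro b
    have hcont : Continuous fun t => f (b, t) :=
      hf.continuous.comp (continuous_const.prodMk continuous_id)
    refine hcont.surjective ?_ ?_
    · refine Filter.tendsto_id.congr' ?_
      filter_upwards [Filter.eventually_gt_atTop (Max.max R 0)] with t ht
      have : R < ‖((b, t) : B × ℝ)‖ := (le_max_left _ _).trans_lt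
        (ht.trans_le ((le_abs_self t).trans (hnorm b t)))
      exact (hR _ this).symm
    · refine Filter.tendsto_id.congr' ?_
      filter_upwards [Filter.eventually_lt_atBot (-(Max.max R 0))] with t ht
      have : R < ‖((b, t) : B × ℝ)‖ := (le_max_left R 0).trans_lt
        ((lt_neg_of_lt_neg ht).trans_le ((neg_le_abs t).trans (hnorm b t)))
      exact (hR _ this).symm
  set F : B → P := fun b => StrictMono.orderIsoOfSurjective (fun t => f (b, t)) (hm b) (hsurj b)
    with hF
  have hfn : fn F = f := by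
    funext x
    rfl
  have hPL : IsPL (fn F) := by rw [hfn]; exact hf
  refine ⟨F, ⟨⟨hPL, inv_PL F hPL⟩, R, fun b t h => ?_⟩, hfn⟩
  exact hR (b, t) h

end PLH
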