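import Pool.Agent.Lib.MP_6a1069_gt.T3

/-!
Lens: bounded triangles with three slopes are in `NN B`.
`lens1`: multiply by `(Ln q cq)⁻¹` (`F.mul_del`, `F.mul_inf`): `(Ln q cq)⁻¹ * Ln r cr = Dil (r/q) a`
with `a = (cq - cr)/(r - q)`, `(Ln q cq)⁻¹ * Ln p cp = Dil (p/q) b`, `b = (cp - cq)/(q - p)`; so the
element is `Em (r/q) (p/q) a b` (`F.del_one_left`). `{a < b}` is bounded: if `a x < b x` then
`(x, (a x + b x)/2)` is in the region.
`lens2`: `del U W = (U ⊓ W)⁻¹ * W` (`F.del_eq_inf`), so it is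
`((W⁻¹ U) ⊓ 1)⁻¹ = (W⁻¹ U)⁻¹ ⊔ 1`, `W⁻¹ U = Dil (r/q) a ⊔ Dil (p/q) b`, inverse
`Dil (q/r) a ⊓ Dil (q/p) b`: it is `Em (q/p) (q/r) b a`.
-/

namespace PLH

variable {B : Type*} [NormedAddCommGroup B] [NormedSpace ℝ B] [FiniteDimensional ℝ B]

omit [FiniteDimensional ℝ B] in
/-- the quotient of two lines is a dilation -/
theorem Ln_inv_mul {p q : ℝ} (hp : 0 < p) (hq : 0 < q) (hpq : p ≠ q) (cp cq : B → ℝ) :
    (Ln q cq)⁻¹ * Ln p cp = Dil (p / q) (fun x => (cp x - cq x) / (q - p)) := by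
  refine fam_ext fun x t => ?_
  have h1 : ((Ln q cq)⁻¹ * Ln p cp) x t = (p * t + cp x - cq x) / q := by
    show (ln q (cq x))⁻¹ (ln p (cp x) t) = _
    rw [ln_inv_apply hq, ln_apply hp]
  have h2 : Dil (p / q) (fun x => (cp x - cq x) / (q - p)) x t
      = (cp x - cq x) / (q - p) + p / q * (t - (cp x - cq x) / (q - p)) :=
    dil_apply (div_pos hp hq) _ _
  rw [h1, h2]
  have h3 : q - p ≠ 0 := sub_ne_zero.2 (Ne.symm hpq)
  field_simp
  ring

theorem lens1 {p q r : ℝ} (hp : 0 < p) (hpq : p < q) (hqr : q < r) {cp cq cr : B → ℝ}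
    (h1 : IsPL cp) (h2 : IsPL cq) (h3 : IsPL cr)
    (h : BddReg (Ln q cq) (Ln r cr ⊓ Ln p cp)) :
    del (Ln q cq) (Ln r cr ⊓ Ln p cp) ∈ NN B := by
  have hq : 0 < q := hp.trans hpq
  have hr : 0 < r := hq.trans hqr
  have key : del (Ln q cq) (Ln r cr ⊓ Ln p cp)
      = Em (r / q) (p / q) (fun x => (cr x - cq x) / (q - r)) (fun x => (cp x - cq x) / (q - p)) := by
    rw [← F.mul_del (Ln q cq)⁻¹, inv_mul_cancel, F.mul_inf, Ln_inv_mul hr hq hqr.ne',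
      Ln_inv_mul hp hq hpq.ne, F.del_one_left]
    rfl
  rw [key]
  refine Em_mem_NN ((one_lt_div hq).2 hqr) (div_pos hp hq) ((div_lt_one hq).2 hpq)
    ((h3.sub h2).div_const _) ((h1.sub h2).div_const _) ?_
  have hb : Bornology.IsBounded (Prod.fst '' {x : B × ℝ |
      Ln q cq x.1 x.2 < (Ln r cr ⊓ Ln p cp) x.1 x.2}) := h.image_fst
  refine hb.subset fun x hx => ?_
  have hx' : (cr x - cq x) / (q - r) < (cp x - cq x) / (q - p) := hx
  obtain ⟨t, ht1, ht2⟩ := exists_between hx'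
  refine ⟨(x, t), ?_, rfl⟩
  show ln q (cq x) t < min (ln r (cr x) t) (ln p (cp x) t)
  rw [ln_apply hq, ln_apply hr, ln_apply hp]
  rw [div_lt_iff_of_neg (by linarith)] at ht1
  rw [lt_div_iff₀ (by linarith)] at ht2
  exact lt_min (by linarith) (by linarith)

theorem lens2 {p q r : ℝ} (hp : 0 < p) (hpq : p < q) (hqr : q < r) {cp cq cr : B → ℝ}
    (h1 : IsPL cp) (h2 : IsPL cq) (h3 : IsPL cr)
    (h : BddReg (Ln r cr ⊔ Ln p cp) (Ln q cq)) :
    del (Ln r cr ⊔ Ln p cp) (Ln q cq) ∈ NN B := by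
  have hq : 0 < q := hp.trans hpq
  have hr : 0 < r := hq.trans hqr
  have hdil : ∀ (m : ℝ) (hm : 0 < m) (a : B → ℝ), (Dil m a)⁻¹ = Dil m⁻¹ a := fun m hm a =>
    funext fun x => dil_inv hm (a x)
  have key : del (Ln r cr ⊔ Ln p cp) (Ln q cq)
      = Em (q / p) (q / r) (fun x => (cp x - cq x) / (q - p)) (fun x => (cr x - cq x) / (q - r)) := by
    rw [F.del_eq_inf]
    have e1 : ((Ln r cr ⊔ Ln p cp) ⊓ Ln q cq)⁻¹ * Ln q cq
        = ((Ln q cq)⁻¹ * ((Ln r cr ⊔ Ln p cp) ⊓ Ln q cq))⁻¹ := by group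
    rw [e1, F.mul_inf, F.mul_sup, inv_mul_cancel, Ln_inv_mul hr hq hqr.ne',
      Ln_inv_mul hp hq hpq.ne, F.inv_inf, F.inv_sup, hdil _ (div_pos hr hq), hdil _ (div_pos hp hq),
      inv_one, inv_div, inv_div, F.sup_comm, F.inf_comm]
    rfl
  rw [key]
  refine Em_mem_NN ((one_lt_div hp).2 hpq) (div_pos hq hr) ((div_lt_one hr).2 hqr)
    ((h1.sub h2).div_const _) ((h3.sub h2).div_const _) ?_
  have hb : Bornology.IsBounded (Prod.fst '' {x : B × ℝ |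
      (Ln r cr ⊔ Ln p cp) x.1 x.2 < Ln q cq x.1 x.2}) := h.image_fst
  refine hb.subset fun x hx => ?_
  have hx' : (cp x - cq x) / (q - p) < (cr x - cq x) / (q - r) := hx
  obtain ⟨t, ht1, ht2⟩ := exists_between hx'
  refine ⟨(x, t), ?_, rfl⟩
  show max (ln r (cr x) t) (ln p (cp x) t) < ln q (cq x) t
  rw [ln_apply hq, ln_apply hr, ln_apply hp]
  rw [lt_div_iff_of_neg (by linarith)] at ht2
  rw [div_lt_iff₀ (by linarith)] at ht1
  exact max_lt (by linarith) (by linarith)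

end PLH
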