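import Pool.Agent.Lib.MP_6a1069_gt.Perf
import Pool.Agent.Lib.MP_6a1069_gt.Inv

/-!
LinP: transport to `E`: `LPc v` is perfect.
Choose a linear functional `φ` with `φ v = 1`, `B = ker φ` (a submodule), and the linear
homeomorphism `e : E ≃L[ℝ] B × ℝ`, `e x = (x - φ x • v, φ x)`, `e v = (0,1)`.
`Φ : (B → P) →* Equiv.Perm E`, `Φ F x = e.symm ((e x).1, F (e x).1 (e x).2)`.
`Φ` maps `VV B` into `LPc v` (PL: IsPL.comp), so `NN B` into `⁅LPc v, LPc v⁆`
(`Subgroup.map_commutator`, `Subgroup.commutator_mono`).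
Every `h ∈ LPc v` is `Φ F` with `F ∈ VV B`: `f (b,t) = (e (h (e.symm (b,t)))).2` is PL, and
`t ↦ f (b,t)` is continuous, injective, equal to `t` for large `|t|`, so strictly increasing
(`Continuous.strictMono_of_inj`); `exists_family`.
-/

namespace PLH

section

variable {E : Type*} [NormedAddCommGroup E] [NormedSpace ℝ E] [FiniteDimensional ℝ E]
  {B : Type*} [NormedAddCommGroup B] [NormedSpace ℝ B] [FiniteDimensional ℝ B]

/-- transport of families to permutations of `E` -/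
noncomputable def lpHom (e : E ≃L[ℝ] B × ℝ) : (B → P) →* Equiv.Perm E where
  toFun F :=
    { toFun := fun x => e.symm ((e x).1, F (e x).1 (e x).2)
      invFun := fun x => e.symm ((e x).1, (F (e x).1)⁻¹ (e x).2)
      left_inv := fun x => by
        simp only [ContinuousLinearEquiv.apply_symm_apply]
        rw [RelIso.inv_apply_self]
        exact e.symm_apply_apply x
      right_inv := fun x => by
        simp only [ContinuousLinearEquiv.apply_symm_apply]
        rw [RelIso.apply_inv_self]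
        exact e.symm_apply_apply x }
  map_one' := Equiv.ext fun x => e.symm_apply_apply x
  map_mul' F G := Equiv.ext fun x => by
    show e.symm ((e x).1, F (e x).1 (G (e x).1 (e x).2))
      = e.symm ((e (e.symm ((e x).1, G (e x).1 (e x).2))).1,
          F (e (e.symm ((e x).1, G (e x).1 (e x).2))).1
            (e (e.symm ((e x).1, G (e x).1 (e x).2))).2)
    rw [e.apply_symm_apply]

omit [FiniteDimensional ℝ E] [FiniteDimensional ℝ B] in
theorem lpHom_apply (e : E ≃L[ℝ] B × ℝ) (F : B → P) (x : E) :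
    lpHom e F x = e.symm ((e x).1, F (e x).1 (e x).2) := rfl

omit [FiniteDimensional ℝ E] [FiniteDimensional ℝ B] in
theorem lpHom_isPL (e : E ≃L[ℝ] B × ℝ) {F : B → P} (hF : IsPL (fn F)) :
    IsPL (lpHom e F : E → E) := by
  have he : IsPL (fun x : E => e x) := IsPL.clm (e : E →L[ℝ] B × ℝ)
  have hes : IsPL (fun y : B × ℝ => e.symm y) := IsPL.clm (e.symm : B × ℝ →L[ℝ] E)
  exact hes.comp ((IsPL.fst.comp he).prodMk (hF.comp he))

omit [FiniteDimensional ℝ E] [FiniteDimensional ℝ B] in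
theorem lpHom_mem (e : E ≃L[ℝ] B × ℝ) {v : E} (hv : e v = (0, 1)) {F : B → P} (hF : F ∈ VV B) :
    lpHom e F ∈ LPc v := by
  obtain ⟨⟨h1, h2⟩, R, hR⟩ := hF
  refine ⟨⟨lpHom_isPL e h1, ?_, ‖(e.symm : B × ℝ →L[ℝ] E)‖ * max R 0, fun x hx => ?_⟩,
    fun x => ⟨F (e x).1 (e x).2 - (e x).2, ?_⟩⟩
  · rw [← map_inv]
    exact lpHom_isPL e h2
  · have h3 : R < ‖e x‖ := by
      by_contra hcon
      have h4 : ‖e x‖ ≤ max R 0 := (not_lt.1 hcon).trans (le_max_left _ _)
      have h5 : ‖x‖ ≤ ‖(e.symm : B × ℝ →L[ℝ] E)‖ * ‖e x‖ := by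
        have := (e.symm : B × ℝ →L[ℝ] E).le_opNorm (e x)
        simpa using this
      have h6 := mul_le_mul_of_nonneg_left h4 (norm_nonneg (e.symm : B × ℝ →L[ℝ] E))
      linarith
    rw [lpHom_apply, hR (e x).1 (e x).2 h3]
    exact e.symm_apply_apply x
  · apply e.injective
    rw [lpHom_apply, e.apply_symm_apply, map_add, map_smul, hv]
    ext <;> simp

omit [FiniteDimensional ℝ E] in
theorem exists_lpHom (e : E ≃L[ℝ] B × ℝ) {v : E} (hv : e v = (0, 1)) {h : Equiv.Perm E}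
    (hh : h ∈ LPc v) : ∃ F ∈ VV B, lpHom e F = h := by
  obtain ⟨⟨h1, h2, R, hR⟩, h3⟩ := hh
  have he : IsPL (fun x : E => e x) := IsPL.clm (e : E →L[ℝ] B × ℝ)
  have hes : IsPL (fun y : B × ℝ => e.symm y) := IsPL.clm (e.symm : B × ℝ →L[ℝ] E)
  have hf : IsPL (fun y : B × ℝ => (e (h (e.symm y))).2) :=
    IsPL.snd.comp (he.comp (h1.comp hes))
  have hfst : ∀ x, (e (h x)).1 = (e x).1 := fun x => by
    obtain ⟨t, ht⟩ := h3 x
    rw [ht, map_add, map_smul, hv]
    simp
  -- bound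
  have hbd : ∀ y : B × ℝ, ‖(e : E →L[ℝ] B × ℝ)‖ * max R 0 < ‖y‖ → h (e.symm y) = e.symm y := by
    intro y hy
    apply hR
    by_contra hcon
    have h4 : ‖e.symm y‖ ≤ max R 0 := (not_lt.1 hcon).trans (le_max_left _ _)
    have h5 : ‖y‖ ≤ ‖(e : E →L[ℝ] B × ℝ)‖ * ‖e.symm y‖ := by
      have := (e : E →L[ℝ] B × ℝ).le_opNorm (e.symm y)
      simpa using this
    have h6 := mul_le_mul_of_nonneg_left h4 (norm_nonneg (e : E →L[ℝ] B × ℝ))
    linarith
  have hbd' : ∀ y : B × ℝ, ‖(e : E →L[ℝ] B × ℝ)‖ * max R 0 < ‖y‖ →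
      (e (h (e.symm y))).2 = y.2 := fun y hy => by
    rw [hbd y hy, e.apply_symm_apply]
  have hm : ∀ b : B, StrictMono (fun t : ℝ => (e (h (e.symm (b, t)))).2) := by
    intro b
    have hc : Continuous (fun t : ℝ => (e (h (e.symm (b, t)))).2) :=
      hf.continuous.comp (continuous_const.prodMk continuous_id)
    have hi : Function.Injective (fun t : ℝ => (e (h (e.symm (b, t)))).2) := by
      intro s t hst
      have h4 : e (h (e.symm (b, s))) = e (h (e.symm (b, t))) := by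
        refine Prod.ext ?_ hst
        rw [hfst, hfst, e.apply_symm_apply, e.apply_symm_apply]
      have h5 := e.symm.injective (h.injective (e.injective h4))
      exact (Prod.ext_iff.1 h5).2
    rcases hc.strictMono_of_inj hi with h4 | h4
    · exact h4
    · exfalso
      obtain ⟨T, hT⟩ : ∃ T, T = ‖(e : E →L[ℝ] B × ℝ)‖ * max R 0 + 1 := ⟨_, rfl⟩
      have hT0 : 0 ≤ ‖(e : E →L[ℝ] B × ℝ)‖ * max R 0 := by positivity
      have hlt : ∀ s : ℝ, T ≤ s → (e (h (e.symm (b, s)))).2 = s := fun s hs => by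
        refine hbd' (b, s) ?_
        refine lt_of_lt_of_le ?_ (norm_snd_le (b, s))
        show _ < ‖s‖
        rw [Real.norm_of_nonneg (by linarith)]
        linarith
      have h5 := h4 (show T < T + 1 by linarith)
      have h6 : (e (h (e.symm (b, T + 1)))).2 < (e (h (e.symm (b, T)))).2 := h5
      rw [hlt T le_rfl, hlt (T + 1) (by linarith)] at h6
      linarith
  obtain ⟨F, hF, hFf⟩ := exists_family _ hf hm _ hbd'
  refine ⟨F, hF, Equiv.ext fun x => ?_⟩
  have h4 : F (e x).1 (e x).2 = (e (h (e.symm (e x)))).2 := congrFun hFf (e x)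
  rw [lpHom_apply, h4, e.symm_apply_apply, ← hfst x]
  exact e.symm_apply_apply (h x)

end

/-- splitting off the line spanned by `v` -/
noncomputable def lpSplit {E : Type*} [NormedAddCommGroup E] [NormedSpace ℝ E]
    (φ : E →L[ℝ] ℝ) (v : E) (h : φ v = 1) : E ≃ₗ[ℝ] (LinearMap.ker φ.toLinearMap) × ℝ where
  toFun x := (⟨x - φ x • v, by simp [LinearMap.mem_ker, h]⟩, φ x)
  map_add' x y := by
    refine Prod.ext (Subtype.ext ?_) (map_add φ x y)
    show x + y - φ (x + y) • v = (x - φ x • v) + (y - φ y • v)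
    rw [map_add, add_smul]; abel
  map_smul' c x := by
    refine Prod.ext (Subtype.ext ?_) (map_smul φ c x)
    show c • x - φ (c • x) • v = c • (x - φ x • v)
    rw [map_smul, smul_eq_mul, smul_sub, mul_smul]
  invFun y := (y.1 : E) + y.2 • v
  left_inv x := by simp
  right_inv y := by
    obtain ⟨⟨b, hb⟩, t⟩ := y
    have hb' : φ b = 0 := hb
    refine Prod.ext (Subtype.ext ?_) ?_
    · show b + t • v - φ (b + t • v) • v = b
      rw [map_add, map_smul, hb', h]; simp
    · show φ (b + t • v) = t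
      rw [map_add, map_smul, hb', h]; simp

theorem LPc_le {E : Type*} [NormedAddCommGroup E] [NormedSpace ℝ E] [FiniteDimensional ℝ E]
    {v : E} (hv : v ≠ 0) : LPc v ≤ ⁅LPc v, LPc v⁆ := by
  obtain ⟨φ, hφ⟩ := SeparatingDual.exists_eq_one (R := ℝ) hv
  obtain ⟨e, he⟩ : ∃ e : E ≃L[ℝ] (LinearMap.ker φ.toLinearMap) × ℝ, e v = (0, 1) := by
    refine ⟨(lpSplit φ v hφ).toContinuousLinearEquiv, ?_⟩
    refine Prod.ext (Subtype.ext ?_) hφ
    show v - φ v • v = 0
    rw [hφ, one_smul, sub_self]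
  have hmap : (VV (LinearMap.ker φ.toLinearMap)).map (lpHom e) ≤ LPc v := by
    rintro _ ⟨F, hF, rfl⟩
    exact lpHom_mem e he hF
  intro h hh
  obtain ⟨F, hF, rfl⟩ := exists_lpHom e he hh
  have h1 : lpHom e F ∈ (NN (LinearMap.ker φ.toLinearMap)).map (lpHom e) :=
    Subgroup.mem_map_of_mem _ (VV_le_NN hF)
  unfold NN at h1
  rw [Subgroup.map_commutator] at h1
  exact Subgroup.commutator_mono hmap hmap h1

end PLH
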