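import Pool.Agent.Lib.MP_6a1069_gt.HB

/-!
Lines: every `F ∈ HH B` is selected from finitely many affine lines of POSITIVE slope.
`S` the finite set of affine maps `B × ℝ → ℝ` of `fn F`.  Write `a ∈ S` as `a (b,t) = m_a t + c_a b`
(`m_a = a.linear (0,1)`, `c_a b = a (b,0)` as an affine map of `b`).  At a point `(b,t)` some
`a ∈ S` satisfies `F b s = a (b,s)` for `s > t` arbitrarily close to `t`; then `F b t = a (b,t)` by
continuity and `m_a > 0` since `F b` is strictly increasing.
-/

namespace PLH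

open Filter Topology

variable {B : Type*} [NormedAddCommGroup B] [NormedSpace ℝ B]

theorem exists_lines {F : B → P} (hF : F ∈ HH B) :
    ∃ L : List (B → P), (∀ A ∈ L, ∃ (m : ℝ) (c : B →ᵃ[ℝ] ℝ), 0 < m ∧ A = Ln m (fun b => c b)) ∧
      ∀ b t, ∃ A ∈ L, F b t = A b t := by
  classical
  obtain ⟨⟨hc, S, hS, hS'⟩, -⟩ := hF
  set ι : B →ᵃ[ℝ] B × ℝ := (LinearMap.inl ℝ B ℝ).toAffineMap with hι
  have hdec : ∀ (a : B × ℝ →ᵃ[ℝ] ℝ) (b : B) (t : ℝ),
      a (b, t) = a.linear (0, 1) * t + (a.comp ι) b := by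
    intro a b t
    have h1 : ((b, t) : B × ℝ) = (t • ((0 : B), (1 : ℝ))) +ᵥ ((b, (0 : ℝ)) : B × ℝ) := by
      simp
    rw [h1, AffineMap.map_vadd, map_smul]
    simp [hι, mul_comm]
  refine ⟨((hS.toFinset.filter fun a => 0 < a.linear (0, 1)).toList.map
    fun a => Ln (a.linear (0, 1)) (fun b => (a.comp ι) b)), ?_, ?_⟩
  · intro A hA
    simp only [List.mem_map, Finset.mem_toList, Finset.mem_filter] at hA
    obtain ⟨a, ⟨-, ha⟩, rfl⟩ := hA
    exact ⟨_, a.comp ι, ha, rfl⟩
  · intro b t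
    have hcb : Continuous fun s : ℝ => fn F (b, s) := hc.comp (by fun_prop)
    have key : ∃ a ∈ S, ∃ᶠ s in 𝓝[>] t, fn F (b, s) = a (b, s) := by
      by_contra hcon
      push Not at hcon
      have h1 : ∀ᶠ s in 𝓝[>] t, ∀ a ∈ S, fn F (b, s) ≠ a (b, s) := by
        rw [eventually_all_finite hS]
        intro a ha
        exact not_frequently.1 (by simpa using hcon a ha)
      obtain ⟨s, hs⟩ := h1.exists
      obtain ⟨a, ha, hae⟩ := hS' (b, s)
      exact hs a ha hae
    obtain ⟨a, haS, hfr⟩ := key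
    have hcl : IsClosed {s : ℝ | fn F (b, s) = a (b, s)} := by
      refine isClosed_eq hcb ?_
      have : (fun s : ℝ => a (b, s)) = fun s => a.linear (0, 1) * s + (a.comp ι) b :=
        funext fun s => hdec a b s
      rw [this]
      fun_prop
    have heq : fn F (b, t) = a (b, t) :=
      hcl.mem_of_frequently_of_tendsto hfr (tendsto_nhdsWithin_of_tendsto_nhds tendsto_id)
    obtain ⟨s, hs, hst⟩ := (hfr.and_eventually self_mem_nhdsWithin).exists
    have hpos : 0 < a.linear (0, 1) := by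
      have h1 : F b t < F b s := (F b).strictMono hst
      have h2 : F b t = a (b, t) := heq
      have h3 : F b s = a (b, s) := hs
      rw [h2, h3, hdec, hdec a b s] at h1
      have h4 : a.linear (0, 1) * (s - t) > 0 := by linarith
      exact (mul_pos_iff_of_pos_right (sub_pos.2 hst)).1 h4
    refine ⟨Ln (a.linear (0, 1)) (fun b => (a.comp ι) b), ?_, ?_⟩
    · simp only [List.mem_map, Finset.mem_toList, Finset.mem_filter]
      exact ⟨a, ⟨hS.mem_toFinset.2 haS, hpos⟩, rfl⟩
    · rw [Ln_apply hpos, ← hdec]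
      exact heq

end PLH
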