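import Pool.Agent.Lib.MP_6a1069_gt.Defs

/-!
PB: basic identities in the lattice ordered group `P` and in families `B → P`.
-/

namespace PLH

theorem P.ext {f g : P} (h : ∀ t, f t = g t) : f = g := RelIso.ext h

/-- locality -/
theorem P.loc {f f' g g' : P} (hf : ∀ t, f t ≤ f' t) (hg : ∀ t, g t ≤ g' t)
    (h : ∀ t, (f t = g t ∧ f' t = g' t) ∨ (f t = f' t ∧ g t = g' t)) :
    f⁻¹ * f' = g⁻¹ * g' := by
  refine P.ext fun t => ?_
  show f⁻¹ (f' t) = g⁻¹ (g' t)
  rcases h t with ⟨h1, h2⟩ | ⟨h1, h2⟩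
  · -- let `t' = f⁻¹ (f' t)`
    obtain ⟨t', ht'⟩ : ∃ t', t' = f⁻¹ (f' t) := ⟨_, rfl⟩
    have e1 : f t' = f' t := by rw [ht']; exact RelIso.apply_inv_self f _
    have e2 : g t' = g' t := by
      rcases (hf t).eq_or_lt with h3 | h3
      · have : t' = t := f.injective (by rw [e1, h3])
        rw [this, ← h1, h3, h2]
      · have h4 : t < t' := by
          rw [← f.lt_iff_lt, e1]; exact h3
        rcases h t' with ⟨h5, h6⟩ | ⟨h5, h6⟩
        · rw [← h5, e1, h2]
        · exfalso
          have : f' t < f' t' := f'.strictMono h4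
          rw [← h5, e1] at this
          exact lt_irrefl _ this
    rw [← ht', ← e2]
    exact (RelIso.inv_apply_self g _).symm
  · rw [← h1, ← h2]
    rw [RelIso.inv_apply_self, RelIso.inv_apply_self]

theorem P.mul_sup (f g h : P) : f * (g ⊔ h) = f * g ⊔ f * h :=
  P.ext fun t => by
    show f (max (g t) (h t)) = max (f (g t)) (f (h t))
    exact f.monotone.map_max
theorem P.mul_inf (f g h : P) : f * (g ⊓ h) = f * g ⊓ f * h :=
  P.ext fun t => by
    show f (min (g t) (h t)) = min (f (g t)) (f (h t))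
    exact f.monotone.map_min
theorem P.sup_mul (f g h : P) : (f ⊔ g) * h = f * h ⊔ g * h := P.ext fun _ => rfl
theorem P.inf_mul (f g h : P) : (f ⊓ g) * h = f * h ⊓ g * h := P.ext fun _ => rfl
theorem P.inv_sup (f g : P) : (f ⊔ g)⁻¹ = f⁻¹ ⊓ g⁻¹ := P.ext fun _ => rfl
theorem P.inv_inf (f g : P) : (f ⊓ g)⁻¹ = f⁻¹ ⊔ g⁻¹ := P.ext fun _ => rfl

theorem P.del_eq_inf (U W : P) : del U W = (U ⊓ W)⁻¹ * W := by
  refine P.loc (fun t => le_max_left _ _) (fun t => min_le_right _ _) (fun t => ?_)
  rcases le_total (U t) (W t) with h | h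
  · left
    exact ⟨(min_eq_left h).symm, max_eq_right h⟩
  · right
    exact ⟨(max_eq_left h).symm, min_eq_right h⟩

theorem P.del_cut (U W G : P) : del U W = del U (W ⊓ G) * del (U ⊔ G) W := by
  have key : (U ⊔ (W ⊓ G))⁻¹ * (U ⊔ W) = (U ⊔ G)⁻¹ * (U ⊔ G ⊔ W) := by
    refine P.loc (fun t => ?_) (fun t => le_max_left _ _) (fun t => ?_)
    · exact max_le_max le_rfl (min_le_left _ _)
    · rcases le_total (G t) (W t) with h | h
      · left
        constructor
        · show max (U t) (min (W t) (G t)) = max (U t) (G t)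
          rw [min_eq_right h]
        · show max (U t) (W t) = max (max (U t) (G t)) (W t)
          rw [max_assoc, max_eq_right h]
      · right
        constructor
        · show max (U t) (min (W t) (G t)) = max (U t) (W t)
          rw [min_eq_left h]
        · show max (U t) (G t) = max (max (U t) (G t)) (W t)
          rw [max_assoc, max_eq_left h]
  unfold del
  rw [mul_assoc, ← key]
  group

theorem P.del_congr {U W U' W' : P}
    (h : ∀ t s, (U t < s ∧ s < W t) ↔ (U' t < s ∧ s < W' t)) : del U W = del U' W' := by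
  have hint : ∀ t, (U t = U' t ∧ W t = W' t) ∨ (W t ≤ U t ∧ W' t ≤ U' t) := by
    intro t
    by_cases h1 : U t < W t
    · left
      have h2 : U' t < W' t := by
        obtain ⟨s, hs1, hs2⟩ := exists_between h1
        have := (h t s).1 ⟨hs1, hs2⟩
        exact this.1.trans this.2
      have hI : Set.Ioo (U t) (W t) = Set.Ioo (U' t) (W' t) := Set.ext fun s => h t s
      have e1 := csInf_Ioo h1
      have e2 := csInf_Ioo h2
      have e3 := csSup_Ioo h1
      have e4 := csSup_Ioo h2
      rw [hI] at e1 e3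
      exact ⟨e1.symm.trans e2, e3.symm.trans e4⟩
    · right
      refine ⟨not_lt.1 h1, ?_⟩
      by_contra h2
      obtain ⟨s, hs1, hs2⟩ := exists_between (not_le.1 h2)
      have := (h t s).2 ⟨hs1, hs2⟩
      exact h1 (this.1.trans this.2)
  refine P.loc (fun t => le_max_left _ _) (fun t => le_max_left _ _) (fun t => ?_)
  rcases hint t with ⟨h1, h2⟩ | ⟨h1, h2⟩
  · left
    refine ⟨h1, ?_⟩
    show max (U t) (W t) = max (U' t) (W' t)
    rw [h1, h2]
  · right
    exact ⟨(max_eq_left h1).symm, (max_eq_left h2).symm⟩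

theorem P.del_eq_one {U W : P} (h : ∀ t, W t ≤ U t) : del U W = 1 := by
  have : U ⊔ W = U := P.ext fun t => max_eq_left (h t)
  unfold del
  rw [this, inv_mul_cancel]

theorem P.eq_sup_mul_inf (f : P) : f = (f ⊔ 1) * (f ⊓ 1) := by
  refine P.ext fun t => ?_
  show f t = max (f (min (f t) t)) (min (f t) t)
  rcases le_total (f t) t with h | h
  · rw [min_eq_left h, max_eq_right (f.monotone h)]
  · rw [min_eq_right h, max_eq_left h]

theorem P.del_one_left (f : P) : del 1 f = 1 ⊔ f := by
  unfold del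
  rw [inv_one, one_mul]

theorem P.mul_del (f U W : P) : del (f * U) (f * W) = del U W := by
  unfold del
  rw [← P.mul_sup]
  group

section families

variable {B : Type*} [NormedAddCommGroup B] [NormedSpace ℝ B]

theorem fam_ext {F G : B → P} (h : ∀ b t, F b t = G b t) : F = G :=
  funext fun b => P.ext (h b)
theorem F.mul_sup (f g h : B → P) : f * (g ⊔ h) = f * g ⊔ f * h :=
  funext fun b => P.mul_sup (f b) (g b) (h b)
theorem F.mul_inf (f g h : B → P) : f * (g ⊓ h) = f * g ⊓ f * h :=
  funext fun b => P.mul_inf (f b) (g b) (h b)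
theorem F.inv_sup (f g : B → P) : (f ⊔ g)⁻¹ = f⁻¹ ⊓ g⁻¹ := funext fun b => P.inv_sup (f b) (g b)
theorem F.inv_inf (f g : B → P) : (f ⊓ g)⁻¹ = f⁻¹ ⊔ g⁻¹ := funext fun b => P.inv_inf (f b) (g b)
theorem F.sup_comm (f g : B → P) : f ⊔ g = g ⊔ f := fam_ext fun b t => max_comm (f b t) (g b t)
theorem F.inf_comm (f g : B → P) : f ⊓ g = g ⊓ f := fam_ext fun b t => min_comm (f b t) (g b t)
theorem F.sup_assoc (f g h : B → P) : (f ⊔ g) ⊔ h = f ⊔ (g ⊔ h) :=
  fam_ext fun b t => max_assoc (f b t) (g b t) (h b t)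
theorem F.inf_assoc (f g h : B → P) : (f ⊓ g) ⊓ h = f ⊓ (g ⊓ h) :=
  fam_ext fun b t => min_assoc (f b t) (g b t) (h b t)
theorem F.del_eq_inf (U W : B → P) : del U W = (U ⊓ W)⁻¹ * W :=
  funext fun b => P.del_eq_inf (U b) (W b)
theorem F.del_cut (U W G : B → P) : del U W = del U (W ⊓ G) * del (U ⊔ G) W :=
  funext fun b => P.del_cut (U b) (W b) (G b)
theorem F.del_congr {U W U' W' : B → P} (h : SameReg U W U' W') : del U W = del U' W' :=
  funext fun b => P.del_congr (h b)
theorem F.del_eq_one {U W : B → P} (h : ∀ b t, W b t ≤ U b t) : del U W = 1 :=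
  funext fun b => P.del_eq_one (h b)
theorem F.eq_sup_mul_inf (f : B → P) : f = (f ⊔ 1) * (f ⊓ 1) :=
  funext fun b => P.eq_sup_mul_inf (f b)
theorem F.del_one_left (f : B → P) : del 1 f = 1 ⊔ f := funext fun b => P.del_one_left (f b)
theorem F.mul_del (f U W : B → P) : del (f * U) (f * W) = del U W :=
  funext fun b => P.mul_del (f b) (U b) (W b)

theorem BddReg.mono {U W U' W' : B → P} (h : BddReg U W)
    (hs : ∀ b t, U' b t < W' b t → U b t < W b t) : BddReg U' W' :=
  Bornology.IsBounded.subset h fun x hx => hs x.1 x.2 hx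
theorem SameReg.symm {U W U' W' : B → P} (h : SameReg U W U' W') : SameReg U' W' U W :=
  fun b t s => (h b t s).symm
theorem SameReg.bddReg {U W U' W' : B → P} (h : SameReg U W U' W') (hb : BddReg U W) :
    BddReg U' W' := by
  refine hb.mono fun b t ht => ?_
  obtain ⟨s, hs1, hs2⟩ := exists_between ht
  have := (h b t s).2 ⟨hs1, hs2⟩
  exact this.1.trans this.2
theorem SameReg.refl (U W : B → P) : SameReg U W U W := fun _ _ _ => Iff.rfl
theorem SameReg.trans {U W U' W' U'' W'' : B → P} (h : SameReg U W U' W')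
    (h' : SameReg U' W' U'' W'') : SameReg U W U'' W'' :=
  fun b t s => (h b t s).trans (h' b t s)

end families

end PLH
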