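import Pool.Agent.Lib.MP_6a1069_gt.Sel
import Pool.Agent.Lib.MP_6a1069_gt.Alex

/-!
# MP_6a1069_gt: the group `PL₀(ℝⁿ)`

`PLH.IsPiecewiseLinear f` (file `Defs2`): the space is a finite union of closed convex polyhedra
(finite intersections of closed half spaces), on each of which `f` is affine.

`PL0 n` is the group of the problem for `M = ℝⁿ`: the permutations `h` of `ℝⁿ` for which there is a
PL isotopy `H` from the identity to `h` (parametrised by `t ∈ ℝ`, constant for `t ≤ 0` and for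
`t ≥ 1`), PL together with its inverse as a map of `ℝⁿ × ℝ`, with supports in one ball.  By the
Alexander trick (`PLH.alexander`) this is the group of all compactly supported PL homeomorphisms of
`ℝⁿ` (`PL0_eq`).
-/

namespace PLH

/-- `h` is the end of a compactly supported PL isotopy of `ℝⁿ` which starts at the identity. -/
def IsotopicToId {n : ℕ} (h : Equiv.Perm (Fin n → ℝ)) : Prop :=
  ∃ H : ℝ → Equiv.Perm (Fin n → ℝ), (∀ t ≤ 0, H t = 1) ∧ (∀ t ≥ 1, H t = h) ∧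
    IsPiecewiseLinear (fun p : (Fin n → ℝ) × ℝ => H p.2 p.1) ∧
    IsPiecewiseLinear (fun p : (Fin n → ℝ) × ℝ => (H p.2)⁻¹ p.1) ∧
    ∃ R : ℝ, ∀ t x, R < ‖x‖ → H t x = x

theorem isotopicToId_iff {n : ℕ} (h : Equiv.Perm (Fin n → ℝ)) :
    IsotopicToId h ↔ h ∈ PLc (Fin n → ℝ) := by
  constructor
  · rintro ⟨H, -, h1, h2, h3, R, hR⟩
    have e : H 1 = h := h1 1 le_rfl
    have hp : IsPL (fun x : Fin n → ℝ => (x, (1 : ℝ))) := IsPL.id.prodMk (IsPL.const 1)
    refine ⟨((isPL_iff.2 h2).comp hp).congr fun x => ?_,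
      ((isPL_iff.2 h3).comp hp).congr fun x => ?_, R, fun x hx => ?_⟩
    · rw [← e]
    · rw [← e]
    · rw [← e]; exact hR 1 x hx
  · intro hh
    obtain ⟨H, h0, h1, h2, h3, h4⟩ := alexander hh
    exact ⟨H, h0, h1, isPL_iff.1 h2, isPL_iff.1 h3, h4⟩

/-- The group `PL₀(ℝⁿ)`. -/
def PL0 (n : ℕ) : Subgroup (Equiv.Perm (Fin n → ℝ)) where
  carrier := {h | IsotopicToId h}
  one_mem' := (isotopicToId_iff 1).2 (one_mem _)
  mul_mem' := fun ha hb =>
    (isotopicToId_iff _).2 (mul_mem ((isotopicToId_iff _).1 ha) ((isotopicToId_iff _).1 hb))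
  inv_mem' := fun ha => (isotopicToId_iff _).2 (inv_mem ((isotopicToId_iff _).1 ha))

theorem PL0_eq (n : ℕ) : PL0 n = PLc (Fin n → ℝ) := by
  ext h
  exact isotopicToId_iff h

/-- The elements of `PL₀(ℝⁿ)` which map every line parallel to `v` to itself. -/
def PLline {n : ℕ} (v : Fin n → ℝ) : Subgroup (Equiv.Perm (Fin n → ℝ)) where
  carrier := {h | h ∈ PL0 n ∧ ∀ x, ∃ t : ℝ, h x = x + t • v}
  one_mem' := ⟨one_mem _, (one_mem (LPc v)).2⟩
  mul_mem' := by
    rintro a b ⟨h1, h2⟩ ⟨h3, h4⟩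
    have h1' : a ∈ LPc v := ⟨(isotopicToId_iff _).1 h1, h2⟩
    have h3' : b ∈ LPc v := ⟨(isotopicToId_iff _).1 h3, h4⟩
    exact ⟨mul_mem h1 h3, (mul_mem h1' h3').2⟩
  inv_mem' := by
    rintro a ⟨h1, h2⟩
    have h1' : a ∈ LPc v := ⟨(isotopicToId_iff _).1 h1, h2⟩
    exact ⟨inv_mem h1, (inv_mem h1').2⟩

theorem PLline_eq {n : ℕ} (v : Fin n → ℝ) : PLline v = LPc v := by
  ext h
  exact ⟨fun hh => ⟨(isotopicToId_iff _).1 hh.1, hh.2⟩,
    fun hh => ⟨(isotopicToId_iff _).2 hh.1, hh.2⟩⟩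

end PLH
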