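import Pool.Agent.Lib.MP_6a1069_gt.Ind
import Pool.Agent.Lib.MP_6a1069_gt.Lines
import Pool.Agent.Lib.MP_6a1069_gt.Cell

/-!
Perf: `VV B` is perfect.
(1) `del_mem_NN`: lines `L` for `U` and `W` together (`exists_lines` twice, append), all slopes
 `> m₀ > 0`.  Claim: for lists `J I L'` with `J ++ I ++ L'` a permutation of (or same members as) `L`:
 `del (J.foldr (⊔) U) (I.foldr (⊓) W) ∈ NN`; induction on `L'`: cut with the head `G`
 (`F.del_cut`; `(J.foldr U) ⊔ G` has the region of `(G :: J).foldr U`, and so on).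
 `L' = []`: if the region `{J.foldr U < s < I.foldr W}` is empty then `F.del_eq_one`.  Otherwise take
 a point of it and apply `cell`: `J = A :: J'`, `I = A' :: I'` and the region equals
 `{J'.foldr A < s < I'.foldr A'}`.  This region is bounded in `(b,t,s)`, so (exists_bound for `U`
 or `W` on the bounded base set, or on it for the lines) there are constants `α, β` with
 `m₀ t + α < s < m₀ t + β` on it, and the region is that of
 `(Ln m₀ α ⊔ J'.foldr (⊔) A, Ln m₀ β ⊓ I'.foldr (⊓) A')`: apply `lists_mem`.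
(2) `F ∈ VV`: `F = (F ⊔ 1) * (F ⊓ 1)`, `F ⊔ 1 = del 1 F`, `(F ⊓ 1)⁻¹ = F⁻¹ ⊔ 1 = del 1 F⁻¹`.
-/

namespace PLH

section lists

variable {B : Type*}

theorem foldr_sup_lt_iff (J : List (B → P)) (U : B → P) (b : B) (t s : ℝ) :
    J.foldr (· ⊔ ·) U b t < s ↔ (∀ A ∈ J, A b t < s) ∧ U b t < s := by
  induction J with
  | nil => simp
  | cons G J ih =>
    have h : (G :: J).foldr (· ⊔ ·) U b t = max (G b t) (J.foldr (· ⊔ ·) U b t) := rfl
    rw [h, max_lt_iff, ih]
    simp only [List.mem_cons, forall_eq_or_imp]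
    tauto

theorem lt_foldr_inf_iff (I : List (B → P)) (W : B → P) (b : B) (t s : ℝ) :
    s < I.foldr (· ⊓ ·) W b t ↔ (∀ A ∈ I, s < A b t) ∧ s < W b t := by
  induction I with
  | nil => simp
  | cons G I ih =>
    have h : (G :: I).foldr (· ⊓ ·) W b t = min (G b t) (I.foldr (· ⊓ ·) W b t) := rfl
    rw [h, lt_min_iff, ih]
    simp only [List.mem_cons, forall_eq_or_imp]
    tauto

end lists

variable {B : Type*} [NormedAddCommGroup B] [NormedSpace ℝ B] [FiniteDimensional ℝ B]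

/-- finitely many affine lines of positive slope have slopes above some `m₀ > 0` -/
theorem exists_slope (L : List (B → P)) (hL : ∀ A ∈ L, IsAff A) :
    ∃ m₀ : ℝ, 0 < m₀ ∧ ∀ A ∈ L, IsLn m₀ A := by
  induction L with
  | nil => exact ⟨1, one_pos, by simp⟩
  | cons G L ih =>
    obtain ⟨m₁, h1, h2⟩ := ih fun A hA => hL A (List.mem_cons_of_mem _ hA)
    obtain ⟨m, c, hm, hG⟩ := hL G List.mem_cons_self
    refine ⟨min m₁ (m / 2), lt_min h1 (by linarith), fun A hA => ?_⟩
    rcases List.mem_cons.1 hA with rfl | hA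
    · exact ⟨m, fun b => c b, (min_le_right _ _).trans_lt (by linarith), IsPL.affine c, hG⟩
    · obtain ⟨m', c', h3, h4, h5⟩ := h2 A hA
      exact ⟨m', c', (min_le_left _ _).trans_lt h3, h4, h5⟩

/-- a line of slope `m₀` above a line on a bounded set -/
theorem IsLn.exists_above {m₀ : ℝ} (h0 : 0 < m₀) {A : B → P} (hA : IsLn m₀ A)
    {K : Set (B × ℝ)} (hK : Bornology.IsBounded K) :
    ∃ M : ℝ, ∀ x ∈ K, |A x.1 x.2 - m₀ * x.2| ≤ M := by
  obtain ⟨m, c, hm, hc, rfl⟩ := hA
  have hcont : Continuous (fun x : B × ℝ => (m - m₀) * x.2 + c x.1) :=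
    (continuous_const.mul continuous_snd).add (hc.continuous.comp continuous_fst)
  obtain ⟨M, hM⟩ := exists_bound hK hcont
  refine ⟨M, fun x hx => ?_⟩
  have h1 : Ln m c x.1 x.2 - m₀ * x.2 = (m - m₀) * x.2 + c x.1 := by
    rw [Ln_apply (h0.trans hm)]; ring
  rw [h1]
  exact hM x hx

theorem del_mem_NN_aux {U W : B → P} (hU : U ∈ HH B) (hW : W ∈ HH B) (h : BddReg U W)
    {m₀ : ℝ} (h0 : 0 < m₀) {L : List (B → P)} (hsU : ∀ b t, ∃ A ∈ L, U b t = A b t)
    (hsW : ∀ b t, ∃ A ∈ L, W b t = A b t) (L' : List (B → P)) :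
    ∀ J I : List (B → P), (∀ A ∈ J, IsAff A ∧ IsLn m₀ A) → (∀ A ∈ I, IsAff A ∧ IsLn m₀ A) →
      (∀ A ∈ L', IsAff A ∧ IsLn m₀ A) → (∀ A ∈ L, A ∈ J ++ I ++ L') →
      del (J.foldr (· ⊔ ·) U) (I.foldr (· ⊓ ·) W) ∈ NN B := by
  induction L' with
  | cons G L' ih =>
    intro J I hJ hI hL' hL
    rw [F.del_cut (J.foldr (· ⊔ ·) U) (I.foldr (· ⊓ ·) W) G, F.inf_comm _ G, F.sup_comm _ G]
    have hG := hL' G List.mem_cons_self
    have hL'' : ∀ A ∈ L', IsAff A ∧ IsLn m₀ A := fun A hA => hL' A (List.mem_cons_of_mem _ hA)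
    refine mul_mem (ih J (G :: I) hJ ?_ hL'' ?_) (ih (G :: J) I ?_ hI hL'' ?_)
    · intro A hA
      rcases List.mem_cons.1 hA with rfl | hA
      · exact hG
      · exact hI A hA
    · intro A hA
      have := hL A hA
      simp only [List.mem_append, List.mem_cons] at this ⊢
      tauto
    · intro A hA
      rcases List.mem_cons.1 hA with rfl | hA
      · exact hG
      · exact hJ A hA
    · intro A hA
      have := hL A hA
      simp only [List.mem_append, List.mem_cons] at this ⊢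
      tauto
  | nil =>
    intro J I hJ hI _ hL
    rw [List.append_nil] at hL
    by_cases hne : ∀ b t, I.foldr (· ⊓ ·) W b t ≤ J.foldr (· ⊔ ·) U b t
    · rw [F.del_eq_one hne]
      exact one_mem _
    · push Not at hne
      obtain ⟨b, t, hbt⟩ := hne
      obtain ⟨s, hs1, hs2⟩ := exists_between hbt
      obtain ⟨h1, h3⟩ := (foldr_sup_lt_iff J U b t s).1 hs1
      obtain ⟨h2, h4⟩ := (lt_foldr_inf_iff I W b t s).1 hs2
      obtain ⟨hJ0, hI0, hcell⟩ := cell hU hW (fun A hA => (hJ A hA).1) (fun A hA => (hI A hA).1)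
        (fun b t => by obtain ⟨A, hA, h⟩ := hsU b t; exact ⟨A, hL A hA, h⟩)
        (fun b t => by obtain ⟨A, hA, h⟩ := hsW b t; exact ⟨A, hL A hA, h⟩) h1 h2 h3 h4
      obtain ⟨A, J', rfl⟩ : ∃ A J', J = A :: J' := by
        cases J with
        | nil => exact absurd rfl hJ0
        | cons A J' => exact ⟨A, J', rfl⟩
      obtain ⟨A', I', rfl⟩ : ∃ A' I', I = A' :: I' := by
        cases I with
        | nil => exact absurd rfl hI0
        | cons A' I' => exact ⟨A', I', rfl⟩
      have hA := hJ A List.mem_cons_self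
      have hA' := hI A' List.mem_cons_self
      -- the region is the cell
      have hreg : ∀ b t s, ((A :: J').foldr (· ⊔ ·) U b t < s ∧
          s < (A' :: I').foldr (· ⊓ ·) W b t) ↔
          (J'.foldr (· ⊔ ·) A b t < s ∧ s < I'.foldr (· ⊓ ·) A' b t) := by
        intro b t s
        rw [foldr_sup_lt_iff, lt_foldr_inf_iff, foldr_sup_lt_iff, lt_foldr_inf_iff]
        constructor
        · rintro ⟨⟨g1, g2⟩, g3, g4⟩
          exact ⟨⟨fun C hC => g1 C (List.mem_cons_of_mem _ hC), g1 A List.mem_cons_self⟩,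
            fun C hC => g3 C (List.mem_cons_of_mem _ hC), g3 A' List.mem_cons_self⟩
        · rintro ⟨⟨g1, g2⟩, g3, g4⟩
          have k1 : ∀ C ∈ A :: J', C b t < s := by
            intro C hC
            rcases List.mem_cons.1 hC with rfl | hC
            · exact g2
            · exact g1 C hC
          have k2 : ∀ C ∈ A' :: I', s < C b t := by
            intro C hC
            rcases List.mem_cons.1 hC with rfl | hC
            · exact g4
            · exact g3 C hC
          obtain ⟨k3, k4⟩ := hcell b t s k1 k2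
          exact ⟨⟨k1, k3⟩, k2, k4⟩
      -- boundedness
      obtain ⟨M, hM⟩ := hA.2.exists_above h0 h
      obtain ⟨M', hM'⟩ := hA'.2.exists_above h0 h
      have hin : ∀ b t s, J'.foldr (· ⊔ ·) A b t < s → s < I'.foldr (· ⊓ ·) A' b t →
          m₀ * t - (M + 1) < s ∧ s < m₀ * t + (M' + 1) := by
        intro b t s g1 g2
        have g3 := (hreg b t s).2 ⟨g1, g2⟩
        have g4 := ((foldr_sup_lt_iff _ _ _ _ _).1 g3.1)
        have g5 := ((lt_foldr_inf_iff _ _ _ _ _).1 g3.2)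
        have hmem : ((b, t) : B × ℝ) ∈ {x : B × ℝ | U x.1 x.2 < W x.1 x.2} := g4.2.trans g5.2
        have k1 := abs_le.1 (hM _ hmem)
        have k2 := abs_le.1 (hM' _ hmem)
        have k3 := g4.1 A List.mem_cons_self
        have k4 := g5.1 A' List.mem_cons_self
        dsimp only at k1 k2
        constructor
        · linarith [k1.1]
        · linarith [k2.2]
      have hsame : ∀ b t s, (J'.foldr (· ⊔ ·) A b t < s ∧ s < I'.foldr (· ⊓ ·) A' b t) ↔
          ((Ln m₀ (fun _ : B => -(M + 1)) ⊔ J'.foldr (· ⊔ ·) A) b t < s ∧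
            s < (Ln m₀ (fun _ : B => M' + 1) ⊓ I'.foldr (· ⊓ ·) A') b t) := by
        intro b t s
        show _ ↔ (max (Ln m₀ (fun _ : B => -(M + 1)) b t) (J'.foldr (· ⊔ ·) A b t) < s ∧
            s < min (Ln m₀ (fun _ : B => M' + 1) b t) (I'.foldr (· ⊓ ·) A' b t))
        rw [Ln_apply h0, Ln_apply h0, max_lt_iff, lt_min_iff]
        constructor
        · rintro ⟨g1, g2⟩
          obtain ⟨g3, g4⟩ := hin b t s g1 g2
          exact ⟨⟨by linarith, g1⟩, g4, g2⟩
        · rintro ⟨⟨_, g1⟩, _, g2⟩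
          exact ⟨g1, g2⟩
      have hfin : SameReg ((A :: J').foldr (· ⊔ ·) U) ((A' :: I').foldr (· ⊓ ·) W)
          (Ln m₀ (fun _ : B => -(M + 1)) ⊔ J'.foldr (· ⊔ ·) A)
          (Ln m₀ (fun _ : B => M' + 1) ⊓ I'.foldr (· ⊓ ·) A') :=
        fun b t s => (hreg b t s).trans (hsame b t s)
      rw [F.del_congr hfin]
      have hb1 : BddReg ((A :: J').foldr (· ⊔ ·) U) ((A' :: I').foldr (· ⊓ ·) W) := by
        refine h.mono fun b t hlt => ?_
        obtain ⟨s, g1, g2⟩ := exists_between hlt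
        exact ((foldr_sup_lt_iff _ _ _ _ _).1 g1).2.trans ((lt_foldr_inf_iff _ _ _ _ _).1 g2).2
      exact lists_mem h0 J' I' (fun C hC => (hJ C (List.mem_cons_of_mem _ hC)).2)
        (fun C hC => (hI C (List.mem_cons_of_mem _ hC)).2) hA.2 hA'.2 (IsPL.const _)
        (IsPL.const _) (hfin.bddReg hb1)

theorem del_mem_NN {U W : B → P} (hU : U ∈ HH B) (hW : W ∈ HH B) (h : BddReg U W) :
    del U W ∈ NN B := by
  obtain ⟨L₁, h1, h2⟩ := exists_lines hU
  obtain ⟨L₂, h3, h4⟩ := exists_lines hW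
  have hL : ∀ A ∈ L₁ ++ L₂, IsAff A := by
    intro A hA
    rcases List.mem_append.1 hA with hA | hA
    · exact h1 A hA
    · exact h3 A hA
  obtain ⟨m₀, h0, h5⟩ := exists_slope (L₁ ++ L₂) hL
  exact del_mem_NN_aux hU hW h h0 (L := L₁ ++ L₂)
    (fun b t => by obtain ⟨A, hA, e⟩ := h2 b t; exact ⟨A, List.mem_append_left _ hA, e⟩)
    (fun b t => by obtain ⟨A, hA, e⟩ := h4 b t; exact ⟨A, List.mem_append_right _ hA, e⟩)
    (L₁ ++ L₂) [] [] (by simp) (by simp) (fun A hA => ⟨hL A hA, h5 A hA⟩)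
    (fun A hA => by simpa using hA)

theorem sup_one_mem_NN {f : B → P} (hF : f ∈ VV B) : f ⊔ 1 ∈ NN B := by
  obtain ⟨hF1, R, hR⟩ := hF
  have h1 : f ⊔ 1 = del 1 f := by rw [F.del_one_left, F.sup_comm]
  rw [h1]
  refine del_mem_NN (one_mem _) hF1 ?_
  refine (Metric.isBounded_closedBall (x := (0 : B × ℝ)) (r := R)).subset fun x hx => ?_
  rw [mem_closedBall_zero_iff]
  by_contra hc
  have hx' : x.2 < f x.1 x.2 := hx
  rw [hR x.1 x.2 (not_le.1 hc)] at hx'
  exact lt_irrefl _ hx'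

theorem VV_le_NN : VV B ≤ NN B := by
  intro f hF
  rw [F.eq_sup_mul_inf f]
  refine mul_mem (sup_one_mem_NN hF) ?_
  rw [← inv_mem_iff, F.inv_inf, inv_one]
  exact sup_one_mem_NN (inv_mem hF)

end PLH
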