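import Pool.Agent.Lib.MP_6a1069_gt.EmB

/-!
T1: the commutator identity, pointwise.  Notation `b = a + d`, `k = (m-l)/(1-l) > m > 1`,
apex of `E = em m l a b` at `u = a + d/k` with value `v = a + m d / k = b + l (u - b)`.
(1) `K = em k (1/2) a (a + (2k-1) d)` equals `t ↦ a + k (t - a)` on `[a, b]` (its apex is at `b`),
    so `K * E * K⁻¹ = em m l a (a + k d) =: E'` : check `K (E t) = E' (K t)` for all `t`
    (t ≤ a: everything fixed; a ≤ t ≤ b: E t in [a,b], scaling; t ≥ b: K t ≥ K b = a + k d).
(2) `E' = X * E`, `X = em (m/l) l v (a + k d)`, apex of `X` at `b`: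
    t ≤ a: all fix t (t ≤ v);  a ≤ t ≤ u: E t = a + m (t-a) ≤ v is fixed by X, E' t = a + m (t-a)
    because the apex of E' is at b;  u ≤ t ≤ b: E t = b + l (t-b) in [v,b],
    X s = v + (m/l)(s - v) gives a + m (t-a);  t ≥ b: E t = t, X t = E' t (same right line).
-/

namespace PLH

theorem em_conj1 {m l : ℝ} (hm : 1 < m) (hl0 : 0 < l) (hl : l < 1) (a d k : ℝ) (hd : 0 ≤ d)
    (hk : 1 < k) :
    em k (1/2) a (a + (2*k-1)*d) * em m l a (a+d) * (em k (1/2) a (a + (2*k-1)*d))⁻¹
      = em m l a (a + k*d) := by
  rw [mul_inv_eq_iff_eq_mul]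
  have h2 : (0 : ℝ) < 1 / 2 := by norm_num
  have hK : ∀ t, a ≤ t → t ≤ a + d → em k (1/2) a (a + (2*k-1)*d) t = a + k * (t - a) := by
    intro t h1 h3
    apply em_left hk h2 h1
    nlinarith
  ext t
  rw [P.mul_apply, P.mul_apply]
  rcases le_total t a with ht | ht
  · rw [em_of_le hm hl0 ht, em_of_le hk h2 ht, em_of_le hm hl0 ht]
  rcases le_total t (a + d) with hb | hb
  · obtain ⟨h3, h4⟩ := em_mem_Icc hm hl0 hl ht hb
    rw [hK _ h3 h4, hK t ht hb]
    rw [em_apply (by linarith) hl0, em_apply (by linarith) hl0]
    have h5 : ∀ x y : ℝ, max (a + k * x) (a + k * y) = a + k * max x y := by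
      intro x y
      rw [mul_max_of_nonneg _ _ (by linarith), max_add_add_left]
    have h6 : ∀ x y : ℝ, min (a + k * x) (a + k * y) = a + k * min x y := by
      intro x y
      rw [mul_min_of_nonneg _ _ (by linarith), min_add_add_left]
    have e1 : a + m * (a + k * (t - a) - a) = a + k * (m * (t - a)) := by ring
    have e2 : a + k * d + l * (a + k * (t - a) - (a + k * d)) =
        a + k * (d + l * (t - (a + d))) := by ring
    rw [e1, e2, h6, h5]
    have e3 : a + m * (t - a) = a + (m * (t - a)) := rfl
    have e4 : a + d + l * (t - (a + d)) = a + (d + l * (t - (a + d))) := by ring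
    have e5 : max t (min (a + m * (t - a)) (a + d + l * (t - (a + d)))) - a =
        max (t - a) (min (m * (t - a)) (d + l * (t - (a + d)))) := by
      rw [e4, min_add_add_left]
      have : t = a + (t - a) := by ring
      nth_rewrite 1 [this]
      rw [max_add_add_left]
      ring
    rw [e5]
  · have hE : em m l a (a + d) t = t := em_of_ge hm hl0 hl hb
    rw [hE]
    have h7 : a + k * d ≤ em k (1/2) a (a + (2*k-1)*d) t := by
      have h8 := (em k (1/2) a (a + (2*k-1)*d)).monotone hb
      rw [hK (a + d) (by linarith) le_rfl] at h8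
      have e : a + k * (a + d - a) = a + k * d := by ring
      rw [e] at h8
      exact h8
    rw [em_of_ge hm hl0 hl h7]

theorem em_fact1 {m l : ℝ} (hm : 1 < m) (hl0 : 0 < l) (hl : l < 1) (a d k : ℝ) (hd : 0 ≤ d)
    (hk : k = (m-l)/(1-l)) :
    em m l a (a + k*d) * (em m l a (a+d))⁻¹ = em (m/l) l (a + m*d/k) (a + k*d) := by
  rw [mul_inv_eq_iff_eq_mul]
  have h1l : 0 < 1 - l := by linarith
  have hk' : k * (1 - l) = m - l := by rw [hk]; field_simp
  have hk1 : 1 < k := by
    rw [hk, lt_div_iff₀ h1l]; linarith
  have hk0 : 0 < k := by linarith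
  have hml : 1 < m / l := by rw [lt_div_iff₀ hl0]; linarith
  -- apex
  set u : ℝ := a + d / k with hu
  set v : ℝ := a + m * d / k with hv
  have hdk : 0 ≤ d / k := div_nonneg hd hk0.le
  have hdk1 : d / k ≤ d := div_le_self hd hk1.le
  have hvu : v = a + m * (u - a) := by rw [hv, hu]; ring
  have hvu2 : v = a + d + l * (u - (a + d)) := by
    have : m * (d / k) = d + l * (d / k - d) := by
      have e : k * (1 - l) * (d / k) = (m - l) * (d / k) := by rw [hk']
      have e3 : k * (1 - l) * (d / k) = d * (1 - l) := by field_simp
      linarith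
    rw [hvu, hu]
    have e2 : a + d / k - a = d / k := by ring
    rw [e2, this]; ring
  have hua : a ≤ u := by rw [hu]; linarith
  have hub : u ≤ a + d := by rw [hu]; linarith
  have hva : a ≤ v := by rw [hvu]; nlinarith
  have hvb : v ≤ a + d := by rw [hvu2]; nlinarith
  ext t
  rw [P.mul_apply]
  rcases le_total t a with ht | ht
  · rw [em_of_le hm hl0 ht, em_of_le hm hl0 ht, em_of_le hml hl0 (ht.trans hva)]
  rcases le_total t (a + d) with hb | hb
  · -- E' t = a + m (t - a)
    have hE' : em m l a (a + k * d) t = a + m * (t - a) := by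
      apply em_left hm hl0 ht
      have e : (m - l) * (t - a) ≤ (m - l) * d := by
        apply mul_le_mul_of_nonneg_left _ (by linarith); linarith
      have e2 : k * d * (1 - l) = (m - l) * d := by rw [← hk']; ring
      nlinarith
    rw [hE']
    rcases le_total t u with htu | htu
    · have hE : em m l a (a + d) t = a + m * (t - a) := by
        apply em_left hm hl0 ht
        have e : (m - l) * t ≤ (m - l) * u := mul_le_mul_of_nonneg_left htu (by linarith)
        nlinarith
      rw [hE]
      symm
      apply em_of_le hml hl0
      rw [hvu]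
      have := mul_le_mul_of_nonneg_left htu (show 0 ≤ m by linarith)
      linarith
    · have hE : em m l a (a + d) t = a + d + l * (t - (a + d)) := by
        apply em_right hm hl0 hl hb
        have e : (m - l) * u ≤ (m - l) * t := mul_le_mul_of_nonneg_left htu (by linarith)
        nlinarith
      rw [hE]
      have hs : a + d + l * (t - (a + d)) = v + l * (t - u) := by rw [hvu2]; ring
      rw [hs]
      symm
      have e1 : v + m / l * (v + l * (t - u) - v) = v + m * (t - u) := by
        field_simp; ring
      have : em (m / l) l v (a + k * d) (v + l * (t - u)) =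
          v + m / l * (v + l * (t - u) - v) := by
        apply em_left hml hl0
        · have : 0 ≤ l * (t - u) := mul_nonneg hl0.le (by linarith)
          linarith
        · rw [e1]
          -- v + m (t-u) ≤ (a+kd) + l (v + l(t-u) - (a+kd))
          have e2 : k * d * (1 - l) = (m - l) * d := by rw [← hk']; ring
          have e3 : v + m * (t - u) = a + m * (t - a) := by rw [hvu]; ring
          have e4 : v + l * (t - u) = a + d + l * (t - (a + d)) := hs.symm
          rw [e3, e4]
          have h5 : (m - l * l) * (t - (a + d)) ≤ 0 := by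
            apply mul_nonpos_of_nonneg_of_nonpos
            · nlinarith
            · linarith
          nlinarith
      rw [this, e1, hvu]
      ring
  · have hE : em m l a (a + d) t = t := em_of_ge hm hl0 hl hb
    rw [hE]
    rcases le_total t (a + k * d) with hc | hc
    · have e2 : k * d * (1 - l) = (m - l) * d := by rw [← hk']; ring
      have hE' : em m l a (a + k * d) t = a + k * d + l * (t - (a + k * d)) := by
        apply em_right hm hl0 hl hc
        have h5 : 0 ≤ (m - l) * (t - (a + d)) := mul_nonneg (by linarith) (by linarith)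
        nlinarith
      have hX : em (m / l) l v (a + k * d) t = a + k * d + l * (t - (a + k * d)) := by
        apply em_right hml hl0 hl hc
        -- a + kd + l (t - (a+kd)) ≤ v + m/l (t - v)
        have h6 : v + m / l * (a + d - v) = a + m * d := by
          have : a + d - v = l * (a + d - u) := by rw [hvu2]; ring
          rw [this]
          have e7 : m / l * (l * (a + d - u)) = m * (a + d - u) := by field_simp
          rw [e7, hvu]; ring
        have h8 : v + m / l * (t - v) = (a + m * d) + m / l * (t - (a + d)) := by
          rw [← h6]; ring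
        rw [h8]
        have h9 : l * (t - (a + d)) ≤ m / l * (t - (a + d)) := by
          apply mul_le_mul_of_nonneg_right _ (by linarith)
          linarith
        nlinarith
      rw [hE', hX]
    · rw [em_of_ge hm hl0 hl hc, em_of_ge hml hl0 hl hc]

end PLH
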