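import Pool.Agent.Lib.MP_6a1069_gt.PB
import Pool.Agent.Lib.MP_6a1069_gt.EmB

/-!
T2: mirror image of T1.  `a = b - d`, `k = (m-l)/(l(m-1)) > 1`, `E = em m l (b-d) b` with apex at
`u = a + d (1-l)/(m-l)`, value `v`;  `E' = em m l (b-kd) b`, whose apex value is `a`.
(1) `K⁻¹ = em 2 (1/k) (b-(2k-1)d) b` is `t ↦ b + (t-b)/k` on `[b-kd, b]`, so `K` is
    `t ↦ b + k (t-b)` on `[a,b]` and `K E K⁻¹ = E'`, i.e. `K⁻¹ (E' t) = E (K⁻¹ t)`.
(2) `E * X = E'` with `X = em m (l/m) (b-kd) u`:  t ≤ b-kd: fixed;  up to the apex u' of E'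
    (E' u' = a): X t = E' t ≤ a is fixed by E;  u' ≤ t ≤ u: X t = u + (l/m)(t-u) in [a,u], E of it
    = a + m (X t - a) = v + l (t-u) = E' t;  t ≥ u: X t = t and E t = E' t.
-/

namespace PLH

theorem em_conj2 {m l : ℝ} (hm : 1 < m) (hl0 : 0 < l) (hl : l < 1) (b d k : ℝ) (hd : 0 ≤ d)
    (hk : 1 < k) :
    (em 2 (1/k) (b - (2*k-1)*d) b)⁻¹ * em m l (b-d) b * em 2 (1/k) (b - (2*k-1)*d) b
      = em m l (b - k*d) b := by
  rw [mul_assoc, inv_mul_eq_iff_eq_mul]
  have hk0 : 0 < k := by linarith
  have h1k : 0 < 1 / k := by positivity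
  have h1k1 : 1 / k < 1 := by rw [div_lt_one hk0]; exact hk
  have hK : ∀ t, b - k * d ≤ t → t ≤ b →
      em 2 (1/k) (b - (2*k-1)*d) b t = b + 1 / k * (t - b) := by
    intro t h1 h3
    apply em_right (by norm_num) h1k h1k1 h3
    have h4 : -d ≤ 1 / k * (t - b) := by
      have h5 : 1 / k * (-(k * d)) ≤ 1 / k * (t - b) :=
        mul_le_mul_of_nonneg_left (by linarith) h1k.le
      have h6 : 1 / k * (-(k * d)) = -d := by field_simp
      linarith
    have h7 : 1 / k * (t - b) + d ≤ (t - b) + k * d := by
      have h8 : 1 / k * (t - b) + d = 1 / k * ((t - b) + k * d) := by field_simp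
      rw [h8]
      have h9 : 0 ≤ (t - b) + k * d := by linarith
      nlinarith
    nlinarith
  ext t
  rw [P.mul_apply, P.mul_apply]
  rcases le_total b t with ht | ht
  · rw [em_of_ge hm hl0 hl ht, em_of_ge (by norm_num) h1k h1k1 ht, em_of_ge hm hl0 hl ht]
  rcases le_total (b - k * d) t with hb | hb
  · obtain ⟨h3, h4⟩ := em_mem_Icc hm hl0 hl hb ht
    rw [hK _ h3 h4, hK t hb ht]
    rw [em_apply (by linarith) hl0, em_apply (by linarith) hl0]
    have h5 : ∀ x y : ℝ, max (b + 1 / k * x) (b + 1 / k * y) = b + 1 / k * max x y := by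
      intro x y
      rw [mul_max_of_nonneg _ _ h1k.le, max_add_add_left]
    have h6 : ∀ x y : ℝ, min (b + 1 / k * x) (b + 1 / k * y) = b + 1 / k * min x y := by
      intro x y
      rw [mul_min_of_nonneg _ _ h1k.le, min_add_add_left]
    have e1 : b - d + m * (b + 1 / k * (t - b) - (b - d)) =
        b + 1 / k * (-(k * d) + m * ((t - b) + k * d)) := by
      field_simp; ring
    have e2 : b + l * (b + 1 / k * (t - b) - b) = b + 1 / k * (l * (t - b)) := by ring
    rw [e1, e2, h6, h5]
    have e5 : max t (min (b - k * d + m * (t - (b - k * d))) (b + l * (t - b))) - b =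
        max (t - b) (min (-(k * d) + m * ((t - b) + k * d)) (l * (t - b))) := by
      have e3 : b - k * d + m * (t - (b - k * d)) = b + (-(k * d) + m * ((t - b) + k * d)) := by
        ring
      rw [e3, min_add_add_left]
      have : t = b + (t - b) := by ring
      nth_rewrite 1 [this]
      rw [max_add_add_left]
      ring
    rw [e5]
  · have hE : em m l (b - k * d) b t = t := em_of_le hm hl0 hb
    rw [hE]
    have h7 : em 2 (1/k) (b - (2*k-1)*d) b t ≤ b - d := by
      have h8 := (em 2 (1/k) (b - (2*k-1)*d) b).monotone hb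
      rw [hK (b - k * d) le_rfl (by nlinarith)] at h8
      have e : b + 1 / k * (b - k * d - b) = b - d := by field_simp; ring
      rw [e] at h8
      exact h8
    rw [em_of_le hm hl0 h7]

theorem em_fact2 {m l : ℝ} (hm : 1 < m) (hl0 : 0 < l) (hl : l < 1) (b d k : ℝ) (hd : 0 ≤ d)
    (hk : k = (m-l)/(l*(m-1))) :
    (em m l (b-d) b)⁻¹ * em m l (b - k*d) b
      = em m (l/m) (b - k*d) (b - d + d*(1-l)/(m-l)) := by
  rw [inv_mul_eq_iff_eq_mul]
  have hml : 0 < m - l := by linarith
  have hm1 : 0 < m - 1 := by linarith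
  have hm0 : 0 < m := by linarith
  have hkk : k * (l * (m - 1)) = m - l := by rw [hk]; field_simp
  have hk1 : 1 < k := by
    rw [hk, lt_div_iff₀ (by positivity)]; nlinarith
  have hlm0 : 0 < l / m := by positivity
  have hlm1 : l / m < 1 := by rw [div_lt_one hm0]; linarith
  set a : ℝ := b - d with ha
  set A : ℝ := b - k * d with hA
  set u : ℝ := a + d * (1 - l) / (m - l) with hu
  set u' : ℝ := b - d / l with hu'
  have hAa : A ≤ a := by rw [hA, ha]; nlinarith
  -- the apex of E
  have hua : (m - l) * (u - a) = d * (1 - l) := by rw [hu]; field_simp; ring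
  have hu1 : a ≤ u := by
    rw [hu]
    have : 0 ≤ d * (1 - l) / (m - l) := div_nonneg (mul_nonneg hd (by linarith)) hml.le
    linarith
  have hu2 : u ≤ b := by
    have h1 : (m - l) * (u - a) ≤ (m - l) * (b - a) := by
      rw [hua, ha]
      have : d * (1 - l) ≤ d * (m - l) := mul_le_mul_of_nonneg_left (by linarith) hd
      nlinarith
    have := le_of_mul_le_mul_left h1 hml
    linarith
  have hEu : a + m * (u - a) = b + l * (u - b) := by rw [ha] at hua ⊢; nlinarith
  -- the apex of E'
  have hAu' : A + m * (u' - A) = a := by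
    have h1 : m * (d / l) = d * (k * (m - 1) + 1) := by
      have h2 : d * (k * (l * (m - 1)) + l) = d * m := by rw [hkk]; ring
      have h3 : m * (d / l) * l = d * (k * (m - 1) + 1) * l := by
        have : m * (d / l) * l = d * m := by field_simp
        rw [this, ← h2]; ring
      exact mul_right_cancel₀ hl0.ne' h3
    rw [hA, hu', ha]
    nlinarith
  have hlu' : b + l * (u' - b) = a := by
    have : l * (d / l) = d := by field_simp
    rw [hu', ha]
    nlinarith
  have hXu' : u + l / m * (u' - u) = a := by
    have h1 : m * (u - a) = l * (u - u') := by linarith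
    have h2 : l / m * (u - u') = u - a := by
      have : l / m * (u - u') = l * (u - u') / m := by ring
      rw [this, ← h1]; field_simp
    linarith
  have hu'u : u' ≤ u := by
    by_contra hcon
    push Not at hcon
    have h3 : l * (u - u') < 0 := mul_neg_of_pos_of_neg hl0 (by linarith)
    have h4 : 0 ≤ m * (u - a) := mul_nonneg hm0.le (by linarith)
    have h1 : m * (u - a) = l * (u - u') := by linarith
    linarith
  have hAu'2 : A ≤ u' := by
    by_contra hcon
    push Not at hcon
    have : m * (u' - A) < 0 := mul_neg_of_pos_of_neg hm0 (by linarith)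
    linarith
  ext t
  rw [P.mul_apply]
  rcases le_total t A with ht | ht
  · rw [em_of_le hm hl0 ht, em_of_le hm hlm0 ht, em_of_le hm hl0 (ht.trans hAa)]
  rcases le_total u t with hut | hut
  · rw [em_of_ge hm hlm0 hlm1 hut]
    rcases le_total b t with hb | hb
    · rw [em_of_ge hm hl0 hl hb, em_of_ge hm hl0 hl hb]
    · have h1 : (m - l) * u ≤ (m - l) * t := mul_le_mul_of_nonneg_left hut hml.le
      have h2 : b + l * (t - b) ≤ a + m * (t - a) := by linarith [hEu, hAu', hlu', hXu']
      rw [em_right hm hl0 hl hb h2, em_right hm hl0 hl hb]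
      refine h2.trans ?_
      linarith [mul_nonneg hm1.le (sub_nonneg.2 hAa)]
  · rcases le_total t u' with h1 | h1
    · have hE' : em m l A b t = A + m * (t - A) := by
        apply em_left hm hl0 ht
        have h2 : (m - l) * t ≤ (m - l) * u' := mul_le_mul_of_nonneg_left h1 hml.le
        linarith [hEu, hAu', hlu', hXu']
      have hX : em m (l / m) A u t = A + m * (t - A) := by
        apply em_left hm hlm0 ht
        have h2 : (m - l / m) * t ≤ (m - l / m) * u' :=
          mul_le_mul_of_nonneg_left h1 (by linarith)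
        linarith [hEu, hAu', hlu', hXu']
      rw [hE', hX]
      symm
      apply em_of_le hm hl0
      have h3 : m * (t - A) ≤ m * (u' - A) := mul_le_mul_of_nonneg_left (by linarith) hm0.le
      linarith
    · have hE' : em m l A b t = b + l * (t - b) := by
        apply em_right hm hl0 hl (hut.trans hu2)
        have h2 : (m - l) * u' ≤ (m - l) * t := mul_le_mul_of_nonneg_left h1 hml.le
        linarith [hEu, hAu', hlu', hXu']
      have hX : em m (l / m) A u t = u + l / m * (t - u) := by
        apply em_right hm hlm0 hlm1 hut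
        have h2 : (m - l / m) * u' ≤ (m - l / m) * t :=
          mul_le_mul_of_nonneg_left h1 (by linarith)
        linarith [hEu, hAu', hlu', hXu']
      rw [hE', hX]
      have h3 : a ≤ u + l / m * (t - u) := by
        have : l / m * (u' - u) ≤ l / m * (t - u) :=
          mul_le_mul_of_nonneg_left (by linarith) hlm0.le
        linarith
      have h4 : u + l / m * (t - u) ≤ u := by
        have : l / m * (t - u) ≤ 0 := mul_nonpos_of_nonneg_of_nonpos hlm0.le (by linarith)
        linarith
      symm
      have h5 : em m l a b (u + l / m * (t - u)) = a + m * (u + l / m * (t - u) - a) := by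
        apply em_left hm hl0 h3
        have h6 : (m - l) * (u + l / m * (t - u)) ≤ (m - l) * u :=
          mul_le_mul_of_nonneg_left h4 hml.le
        linarith [hEu, hAu', hlu', hXu']
      rw [h5]
      have h7 : m * (l / m * (t - u)) = l * (t - u) := by field_simp
      linarith [hEu, hAu', hlu', hXu']

end PLH
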