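import Pool.Agent.Lib.MP_6a1069_gt.HB
import Pool.Agent.Lib.MP_6a1069_gt.T1
import Pool.Agent.Lib.MP_6a1069_gt.T2

/-!
T3: `Em m l a b ∈ NN B` for all `m > 1 > l > 0`.
Replace `b` by `max a b` (`em_eq_one`), `w = b - a ≥ 0`, `{w > 0}` bounded.
Case `m l > 1`: apply T1 with `m₁ = m l`, `l`: `k = (m₁-l)/(1-l)`, `d = w k/(k²-m₁)`,
 `a₁ = a - m₁ d/k`: then `a₁ + m₁ d/k = a`, `a₁ + k d = b`, and `m₁/l = m`.  All of `a₁`, `d` are
 PL, `d ≥ 0`, `{d > 0}` bounded; `E = Em m₁ l a₁ (a₁+d)`, `K = Em k (1/2) a₁ (a₁+(2k-1)d)` are in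
 `VV B` (`Em_mem_VV`), `Em m l a b = K E K⁻¹ E⁻¹ = ⁅K, E⁆`.
Case `m l < 1`: T2 with `m`, `l₁ = l m < 1`: `k = (m-l₁)/(l₁(m-1)) > 1`,
 `d = w/(k - 1 + (1-l₁)/(m-l₁))`, `b₁ = a + k d`: then `b₁ - k d = a`,
 `b₁ - d + d (1-l₁)/(m-l₁) = b`, `l₁/m = l`.  `E⁻¹ * (K E K⁻¹) = ⁅E⁻¹, K⁆`.
Case `m l = 1`: `n = (1+m)/2 ∈ (1,m)`.  `Em m l a b = del 1 (Dil m a ⊓ Dil l b)`, cut with
 `Dil n a`: first factor has the region of `Em n l a b` (`n l < 1`), second factor
 `del (Dil n a) (Dil m a ⊓ Dil l b) = Em (m/n) (l/n) a b'` (multiply by `(Dil n a)⁻¹`, `F.mul_del`),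
 `b'` the crossing of `Dil n a` and `Dil l b`; `(m/n)(l/n) = 1/n² < 1`.
-/

namespace PLH

open scoped commutatorElement

variable {B : Type*} [NormedAddCommGroup B] [NormedSpace ℝ B] [FiniteDimensional ℝ B]

/-- only `max a b` matters -/
theorem em_max {m l : ℝ} (hm : 1 < m) (hl0 : 0 < l) (hl : l < 1) (a b : ℝ) :
    em m l a b = em m l a (max a b) := by
  rcases le_total a b with h | h
  · rw [max_eq_right h]
  · rw [max_eq_left h, em_eq_one hm hl0 hl h, em_eq_one hm hl0 hl le_rfl]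

/-- case `m l > 1` -/
theorem Em_mem_NN_gt {m l : ℝ} (hm : 1 < m) (hl0 : 0 < l) (hl : l < 1) (hml : 1 < m * l)
    {a b : B → ℝ} (ha : IsPL a) (hb : IsPL b) (hab : Bornology.IsBounded {x | a x < b x}) :
    Em m l a b ∈ NN B := by
  have hl1 : 0 < 1 - l := by linarith
  obtain ⟨k, hk⟩ : ∃ k, k = (m * l - l) / (1 - l) := ⟨_, rfl⟩
  have hkm : m * l < k := by
    rw [hk, lt_div_iff₀ hl1]
    nlinarith
  have hk1 : 1 < k := hml.trans hkm
  have hk0 : 0 < k := by linarith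
  have hkk : 0 < k ^ 2 - m * l := by nlinarith
  obtain ⟨w, hw⟩ : ∃ w : B → ℝ, w = fun x => max (a x) (b x) - a x := ⟨_, rfl⟩
  have hwpl : IsPL w := by rw [hw]; exact (ha.max hb).sub ha
  have hw0 : ∀ x, 0 ≤ w x := fun x => by rw [hw]; exact sub_nonneg.2 (le_max_left _ _)
  have hwb : Bornology.IsBounded {x | 0 < w x} := by
    refine hab.subset fun x hx => ?_
    have hx' : 0 < max (a x) (b x) - a x := by rw [hw] at hx; exact hx
    show a x < b x
    by_contra h
    rw [max_eq_left (not_lt.1 h), sub_self] at hx'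
    exact lt_irrefl _ hx'
  obtain ⟨d, hd⟩ : ∃ d : B → ℝ, d = fun x => (k / (k ^ 2 - m * l)) * w x := ⟨_, rfl⟩
  have hdpl : IsPL d := by rw [hd]; exact hwpl.const_mul _
  have hc0 : 0 < k / (k ^ 2 - m * l) := div_pos hk0 hkk
  have hd0 : ∀ x, 0 ≤ d x := fun x => by rw [hd]; exact mul_nonneg hc0.le (hw0 x)
  have hdb : Bornology.IsBounded {x | 0 < d x} := by
    refine hwb.subset fun x hx => ?_
    have hx' : 0 < (k / (k ^ 2 - m * l)) * w x := by rw [hd] at hx; exact hx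
    exact (mul_pos_iff_of_pos_left hc0).1 hx'
  obtain ⟨a₁, ha₁⟩ : ∃ a₁ : B → ℝ, a₁ = fun x => a x - (m * l / k) * d x := ⟨_, rfl⟩
  have ha₁pl : IsPL a₁ := by rw [ha₁]; exact ha.sub (hdpl.const_mul _)
  have hbd : ∀ c : ℝ, Bornology.IsBounded {x | a₁ x < a₁ x + c * d x} := by
    intro c
    refine hdb.subset fun x hx => ?_
    have hx' : a₁ x < a₁ x + c * d x := hx
    show 0 < d x
    rcases (hd0 x).lt_or_eq with h | h
    · exact h
    · rw [← h] at hx'; simp at hx'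
  have hE : Em (m * l) l a₁ (fun x => a₁ x + 1 * d x) ∈ VV B :=
    Em_mem_VV hml hl0 hl ha₁pl (ha₁pl.add (hdpl.const_mul 1)) (hbd 1)
  have hK : Em k (1 / 2) a₁ (fun x => a₁ x + (2 * k - 1) * d x) ∈ VV B :=
    Em_mem_VV hk1 (by norm_num) (by norm_num) ha₁pl (ha₁pl.add (hdpl.const_mul _)) (hbd _)
  have key : Em m l a b = ⁅Em k (1 / 2) a₁ (fun x => a₁ x + (2 * k - 1) * d x),
      Em (m * l) l a₁ (fun x => a₁ x + 1 * d x)⁆ := by
    funext x
    have h1 := em_conj1 hml hl0 hl (a₁ x) (d x) k (hd0 x) hk1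
    have h2 := em_fact1 hml hl0 hl (a₁ x) (d x) k (hd0 x) hk
    have h3 : m * l / l = m := by field_simp
    have h4 : a₁ x + m * l * d x / k = a x := by rw [ha₁]; ring
    have h5 : a₁ x + k * d x = max (a x) (b x) := by
      have : (k - m * l / k) * (k / (k ^ 2 - m * l)) = 1 := by field_simp
      have e1 : a₁ x + k * d x = a x + (k - m * l / k) * (k / (k ^ 2 - m * l)) * w x := by
        rw [ha₁, hd]; ring
      rw [e1, this, hw]; ring
    rw [h3, h4, h5, ← em_max hm hl0 hl] at h2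
    rw [commutatorElement_def]
    show em m l (a x) (b x) = em k (1 / 2) (a₁ x) (a₁ x + (2 * k - 1) * d x) *
      em (m * l) l (a₁ x) (a₁ x + 1 * d x) * (em k (1 / 2) (a₁ x) (a₁ x + (2 * k - 1) * d x))⁻¹ *
      (em (m * l) l (a₁ x) (a₁ x + 1 * d x))⁻¹
    rw [one_mul, h1, h5]
    exact h2.symm
  rw [key]
  exact Subgroup.commutator_mem_commutator hK hE

/-- case `m l < 1` -/
theorem Em_mem_NN_lt {m l : ℝ} (hm : 1 < m) (hl0 : 0 < l) (hl : l < 1) (hml : m * l < 1)
    {a b : B → ℝ} (ha : IsPL a) (hb : IsPL b) (hab : Bornology.IsBounded {x | a x < b x}) :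
    Em m l a b ∈ NN B := by
  have hm0 : 0 < m := by linarith
  have hl1 : 0 < m * l := mul_pos hm0 hl0
  have hml' : 0 < m - m * l := by nlinarith
  have hm1 : 0 < m - 1 := by linarith
  obtain ⟨k, hk⟩ : ∃ k, k = (m - m * l) / (m * l * (m - 1)) := ⟨_, rfl⟩
  have hk1 : 1 < k := by
    rw [hk, lt_div_iff₀ (mul_pos hl1 hm1)]
    nlinarith
  have hk0 : 0 < k := by linarith
  have hq0 : 0 < (1 - m * l) / (m - m * l) := div_pos (by linarith) hml'
  obtain ⟨q, hq⟩ : ∃ q, q = k - 1 + (1 - m * l) / (m - m * l) := ⟨_, rfl⟩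
  have hqpos : 0 < q := by rw [hq]; linarith
  obtain ⟨w, hw⟩ : ∃ w : B → ℝ, w = fun x => max (a x) (b x) - a x := ⟨_, rfl⟩
  have hwpl : IsPL w := by rw [hw]; exact (ha.max hb).sub ha
  have hw0 : ∀ x, 0 ≤ w x := fun x => by rw [hw]; exact sub_nonneg.2 (le_max_left _ _)
  have hwb : Bornology.IsBounded {x | 0 < w x} := by
    refine hab.subset fun x hx => ?_
    have hx' : 0 < max (a x) (b x) - a x := by rw [hw] at hx; exact hx
    show a x < b x
    by_contra h
    rw [max_eq_left (not_lt.1 h), sub_self] at hx'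
    exact lt_irrefl _ hx'
  obtain ⟨d, hd⟩ : ∃ d : B → ℝ, d = fun x => q⁻¹ * w x := ⟨_, rfl⟩
  have hdpl : IsPL d := by rw [hd]; exact hwpl.const_mul _
  have hc0 : 0 < q⁻¹ := inv_pos.2 hqpos
  have hd0 : ∀ x, 0 ≤ d x := fun x => by rw [hd]; exact mul_nonneg hc0.le (hw0 x)
  have hdb : Bornology.IsBounded {x | 0 < d x} := by
    refine hwb.subset fun x hx => ?_
    have hx' : 0 < q⁻¹ * w x := by rw [hd] at hx; exact hx
    exact (mul_pos_iff_of_pos_left hc0).1 hx'
  obtain ⟨b₁, hb₁⟩ : ∃ b₁ : B → ℝ, b₁ = fun x => a x + k * d x := ⟨_, rfl⟩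
  have hb₁pl : IsPL b₁ := by rw [hb₁]; exact ha.add (hdpl.const_mul _)
  have hbd : ∀ c : ℝ, Bornology.IsBounded {x | b₁ x - c * d x < b₁ x} := by
    intro c
    refine hdb.subset fun x hx => ?_
    have hx' : b₁ x - c * d x < b₁ x := hx
    show 0 < d x
    rcases (hd0 x).lt_or_eq with h | h
    · exact h
    · rw [← h] at hx'; simp at hx'
  have hE : Em m (m * l) (fun x => b₁ x - 1 * d x) b₁ ∈ VV B :=
    Em_mem_VV hm hl1 hml (hb₁pl.sub (hdpl.const_mul 1)) hb₁pl (hbd 1)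
  have hK : Em 2 (1 / k) (fun x => b₁ x - (2 * k - 1) * d x) b₁ ∈ VV B :=
    Em_mem_VV (by norm_num) (by positivity) (by rw [div_lt_one hk0]; exact hk1)
      (hb₁pl.sub (hdpl.const_mul _)) hb₁pl (hbd _)
  have key : Em m l a b = ⁅(Em m (m * l) (fun x => b₁ x - 1 * d x) b₁)⁻¹,
      (Em 2 (1 / k) (fun x => b₁ x - (2 * k - 1) * d x) b₁)⁻¹⁆ := by
    funext x
    have h1 := em_conj2 hm hl1 hml (b₁ x) (d x) k (hd0 x) hk1
    have h2 := em_fact2 hm hl1 hml (b₁ x) (d x) k (hd0 x) hk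
    have h3 : m * l / m = l := by field_simp
    have h4 : b₁ x - k * d x = a x := by rw [hb₁]; ring
    have h5 : b₁ x - d x + d x * (1 - m * l) / (m - m * l) = max (a x) (b x) := by
      have e1 : b₁ x - d x + d x * (1 - m * l) / (m - m * l) = a x + q * d x := by
        rw [hb₁, hq]; ring
      rw [e1, hd]
      show a x + q * (q⁻¹ * w x) = _
      rw [mul_inv_cancel_left₀ hqpos.ne', hw]; ring
    rw [h3, h4, h5, ← em_max hm hl0 hl] at h2
    rw [commutatorElement_def, inv_inv, inv_inv]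
    show em m l (a x) (b x) = (em m (m * l) (b₁ x - 1 * d x) (b₁ x))⁻¹ *
      (em 2 (1 / k) (b₁ x - (2 * k - 1) * d x) (b₁ x))⁻¹ * em m (m * l) (b₁ x - 1 * d x) (b₁ x) *
      em 2 (1 / k) (b₁ x - (2 * k - 1) * d x) (b₁ x)
    rw [one_mul, ← h2, mul_assoc, mul_assoc, ← mul_assoc (em 2 (1 / k) _ _)⁻¹, h1, h4]
  rw [key]
  exact Subgroup.commutator_mem_commutator (inv_mem hE) (inv_mem hK)

theorem Em_mem_NN {m l : ℝ} (hm : 1 < m) (hl0 : 0 < l) (hl : l < 1)
    {a b : B → ℝ} (ha : IsPL a) (hb : IsPL b) (hab : Bornology.IsBounded {x | a x < b x}) :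
    Em m l a b ∈ NN B := by
  rcases lt_trichotomy (m * l) 1 with h | h | h
  · exact Em_mem_NN_lt hm hl0 hl h ha hb hab
  · have hm0 : 0 < m := by linarith
    obtain ⟨n, hn⟩ : ∃ n, n = (1 + m) / 2 := ⟨_, rfl⟩
    have hn1 : 1 < n := by rw [hn]; linarith
    have hnm : n < m := by rw [hn]; linarith
    have hn0 : 0 < n := by linarith
    have hnl : 0 < n - l := by linarith
    have hnl1 : n * l < 1 := by nlinarith
    obtain ⟨b', hb'⟩ : ∃ b' : B → ℝ, b' = fun x => a x + ((1 - l) / (n - l)) * (b x - a x) :=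
      ⟨_, rfl⟩
    have hb'pl : IsPL b' := by rw [hb']; exact ha.add ((hb.sub ha).const_mul _)
    have hc0 : 0 < (1 - l) / (n - l) := div_pos (by linarith) hnl
    have hab' : Bornology.IsBounded {x | a x < b' x} := by
      refine hab.subset fun x hx => ?_
      have hx' : a x < a x + ((1 - l) / (n - l)) * (b x - a x) := by rw [hb'] at hx; exact hx
      have h1 : 0 < ((1 - l) / (n - l)) * (b x - a x) := by linarith
      have h2 := (mul_pos_iff_of_pos_left hc0).1 h1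
      show a x < b x
      linarith
    have e1 : Em m l a b = del 1 (Dil m a ⊓ Dil l b) := by
      rw [F.del_one_left]; rfl
    have e2 : del 1 (Dil m a ⊓ Dil l b ⊓ Dil n a) = Em n l a b := by
      have : Em n l a b = del 1 (Dil n a ⊓ Dil l b) := by
        rw [F.del_one_left]; rfl
      rw [this]
      apply F.del_congr
      intro x t s
      show (t < s ∧ s < min (min (dil m (a x) t) (dil l (b x) t)) (dil n (a x) t)) ↔
        (t < s ∧ s < min (dil n (a x) t) (dil l (b x) t))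
      rw [dil_apply hm0, dil_apply hl0, dil_apply hn0]
      simp only [lt_min_iff]
      constructor
      · rintro ⟨h1, ⟨h2, h3⟩, h4⟩; exact ⟨h1, h4, h3⟩
      · rintro ⟨h1, h2, h3⟩
        refine ⟨h1, ⟨?_, h3⟩, h2⟩
        have : 0 < t - a x := by nlinarith
        nlinarith
    have e3 : del (1 ⊔ Dil n a) (Dil m a ⊓ Dil l b) = Em (m / n) (l / n) a b' := by
      have h1 : Em (m / n) (l / n) a b' = del 1 (Dil (m / n) a ⊓ Dil (l / n) b') := by
        rw [F.del_one_left]; rfl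
      have h2 : del 1 (Dil (m / n) a ⊓ Dil (l / n) b') = del (Dil n a) (Dil m a ⊓ Dil l b) := by
        rw [← F.mul_del (Dil n a) 1, mul_one, F.mul_inf]
        have g1 : Dil n a * Dil (m / n) a = Dil m a := by
          apply fam_ext
          intro x t
          show dil n (a x) (dil (m / n) (a x) t) = dil m (a x) t
          rw [dil_apply hn0, dil_apply (div_pos hm0 hn0), dil_apply hm0]
          field_simp; ring
        have g2 : Dil n a * Dil (l / n) b' = Dil l b := by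
          apply fam_ext
          intro x t
          show dil n (a x) (dil (l / n) (b' x) t) = dil l (b x) t
          rw [dil_apply hn0, dil_apply (div_pos hl0 hn0), dil_apply hl0, hb']
          field_simp; ring
        rw [g1, g2]
      rw [h1, h2]
      apply F.del_congr
      intro x t s
      show (max t (dil n (a x) t) < s ∧ s < min (dil m (a x) t) (dil l (b x) t)) ↔
        (dil n (a x) t < s ∧ s < min (dil m (a x) t) (dil l (b x) t))
      rw [dil_apply hm0, dil_apply hl0, dil_apply hn0]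
      simp only [lt_min_iff, max_lt_iff]
      constructor
      · rintro ⟨⟨h1, h2⟩, h3, h4⟩; exact ⟨h2, h3, h4⟩
      · rintro ⟨h1, h2, h3⟩
        refine ⟨⟨?_, h1⟩, h2, h3⟩
        have : 0 < t - a x := by
          have : (n - m) * (t - a x) < 0 := by linarith
          by_contra hc
          rw [not_lt] at hc
          nlinarith
        nlinarith
    rw [e1, F.del_cut 1 (Dil m a ⊓ Dil l b) (Dil n a), e2, e3]
    refine mul_mem (Em_mem_NN_lt hn1 hl0 hl hnl1 ha hb hab)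
      (Em_mem_NN_lt ?_ (div_pos hl0 hn0) ?_ ?_ ha hb'pl hab')
    · rw [lt_div_iff₀ hn0]; linarith
    · rw [div_lt_one hn0]; linarith
    · rw [div_mul_div_comm, div_lt_one (mul_pos hn0 hn0)]; nlinarith
  · exact Em_mem_NN_gt hm hl0 hl h ha hb hab

end PLH
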